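import Pool.Agent.Work.MP_ba58b9_gt.Stmts

/-! Bundle of small proof modules (one section per former module). -/

section

/-!
# Hereditarily countably paracompact manifolds: item G10 (the push theorem)
-/

set_option autoImplicit false

open Set Filter Topology Ordinal

namespace Pool.Agent.Work.MP_ba58b9_gt

/-- a countable base of a nonempty second countable space, indexed by the natural numbers -/
theorem itemG10_base (X : Type) [TopologicalSpace X] [SecondCountableTopology X] (x0 : X) :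
    ∃ b : ℕ → Set X, (∀ k, IsOpen (b k)) ∧
      ∀ (x : X) (o : Set X), IsOpen o → x ∈ o → ∃ k, x ∈ b k ∧ b k ⊆ o := by
  have hB := TopologicalSpace.isBasis_countableBasis X
  have hne : (TopologicalSpace.countableBasis X).Nonempty := by
    obtain ⟨v, hv, -, -⟩ := hB.exists_subset_of_mem_open (mem_univ x0) isOpen_univ
    exact ⟨v, hv⟩
  obtain ⟨b, hb⟩ := (TopologicalSpace.countable_countableBasis X).exists_eq_range hne
  refine ⟨b, fun k => ?_, fun x o ho hx => ?_⟩
  · apply hB.isOpen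
    rw [hb]
    exact mem_range_self k
  · obtain ⟨v, hv, h1, h2⟩ := hB.exists_subset_of_mem_open hx ho
    rw [hb] at hv
    obtain ⟨k, rfl⟩ := hv
    exact ⟨k, h1, h2⟩

theorem itemG10 (h1 : SRecPush) (h2 : SLim) : SPush := by
  intro X _ _ _ hX W hW hanti hesc hconn P hP
  obtain ⟨x0, -⟩ := hP 0 0
  obtain ⟨b, hb, hbase⟩ := itemG10_base X x0
  obtain ⟨f, C, F, p, hC, hCW, hf, hF0, hFs, hp, hpush⟩ :=
    h1 X hX W hW hanti hesc hconn P b hP hb
  obtain ⟨ι, hι, hι1, hι2, hcl, hid, hS, hrange, hK⟩ :=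
    h2 X hX W hW hanti hesc f C F hC hCW hf hF0 hFs
  refine ⟨ι, ⋃ n, C n, hι, ⟨p, (hι2 p).2 hp⟩, hcl, ?_, hid, hS, hrange, ?_, ?_⟩
  · exact iUnion_subset fun n => (hCW n).trans (hanti (Nat.zero_le n))
  · intro i z hz
    rw [mem_closure_iff]
    intro o ho hzo
    obtain ⟨k, hzk, hko⟩ := hbase z o ho hzo
    have hz' := (hι2 z).1 hz (max k i)
    obtain ⟨t, htP, ⟨y, hy, hyt⟩, htf⟩ := hpush (max k i) k i (le_max_left _ _)
      (le_max_right _ _) ⟨F (max k i) z, mem_image_of_mem _ hzk, hz'⟩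
    have hFm : ∀ j, F (max k i + 1 + j) y = t := by
      intro j
      induction j with
      | zero => exact hyt
      | succ j ih =>
        have h3 := hFs (max k i + 1 + j) y
        rw [ih, htf _ (by omega)] at h3
        exact h3
    obtain ⟨m, hm⟩ := hesc {t} isCompact_singleton
    have hm' : t ∉ W (max k i + 1 + m) := fun h4 =>
      Set.disjoint_left.1 hm (mem_singleton t) (hanti (by omega) h4)
    have h5 : ι t = y := by
      rw [hι1 _ t hm', Homeomorph.symm_apply_eq]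
      exact (hFm m).symm
    exact ⟨y, hko hy, t, htP, h5⟩
  · intro n
    obtain ⟨K, hK1, hK2⟩ := hK n
    exact ⟨(F n).symm, K, hK1, hK2, fun x hx => hι1 n x hx⟩

end Pool.Agent.Work.MP_ba58b9_gt

end

section

/-!
# Item G11: choice of reserved points
-/

set_option autoImplicit false

open Set Filter Topology Ordinal

namespace Pool.Agent.Work.MP_ba58b9_gt

namespace ItemG11

/-- The list of the points chosen before the stage `e`. -/
def lst {X : Type} (c : ℕ → List X → X) : ℕ → List X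
  | 0 => []
  | e + 1 => c e (lst c e) :: lst c e

lemma mem_lst {X : Type} (c : ℕ → List X → X) {e e' : ℕ} (h : e < e') :
    c e (lst c e) ∈ lst c e' := by
  induction e' with
  | zero => omega
  | succ e' ih =>
    rw [lst]
    rcases lt_or_eq_of_le (Nat.lt_succ_iff.1 h) with h1 | h1
    · exact List.mem_cons_of_mem _ (ih h1)
    · subst h1
      exact List.mem_cons_self

end ItemG11

theorem itemG11 : SPoints := by
  intro X T U hU hesc hne
  have key : ∀ (i n : ℕ) (l : List X), ∃ x ∈ T i ∩ U n, x ∉ l := by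
    intro i n l
    have h1 : ∀ l : List X, ∃ N, ∀ x ∈ l, x ∉ U N := by
      intro l
      induction l with
      | nil => exact ⟨0, fun x hx => by simp at hx⟩
      | cons a l ih =>
        obtain ⟨N, hN⟩ := ih
        obtain ⟨M, hM⟩ := hesc a
        refine ⟨max N M, fun x hx hxU => ?_⟩
        rcases List.mem_cons.1 hx with rfl | h2
        · exact hM (hU (le_max_right _ _) hxU)
        · exact hN x h2 (hU (le_max_left _ _) hxU)
    obtain ⟨N, hN⟩ := h1 l
    obtain ⟨x, hx1, hx2⟩ := hne i (max n N)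
    exact ⟨x, ⟨hx1, hU (le_max_left _ _) hx2⟩, fun hx => hN x hx (hU (le_max_right _ _) hx2)⟩
  choose c hc hc' using fun (e : ℕ) (l : List X) =>
    key (Nat.unpair (e / 2)).1 ((Nat.unpair (e / 2)).1 + (Nat.unpair (e / 2)).2) l
  have hinj : ∀ e e' : ℕ, e < e' →
      c e (ItemG11.lst c e) ≠ c e' (ItemG11.lst c e') := by
    intro e e' h h'
    exact hc' e' (ItemG11.lst c e') (h' ▸ ItemG11.mem_lst c h)
  have hinj' : ∀ e e' : ℕ, e ≠ e' →
      c e (ItemG11.lst c e) ≠ c e' (ItemG11.lst c e') := by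
    intro e e' h
    rcases lt_or_gt_of_ne h with h1 | h1
    · exact hinj e e' h1
    · exact (hinj e' e h1).symm
  refine ⟨fun i k => c (2 * Nat.pair i k) (ItemG11.lst c (2 * Nat.pair i k)),
    fun i k => c (2 * Nat.pair i k + 1) (ItemG11.lst c (2 * Nat.pair i k + 1)), ?_, ?_, ?_⟩
  · intro i k
    have h1 := hc (2 * Nat.pair i k) (ItemG11.lst c (2 * Nat.pair i k))
    rw [Nat.mul_div_cancel_left _ (by norm_num : 0 < 2), Nat.unpair_pair] at h1
    exact h1
  · intro i k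
    have h1 := hc (2 * Nat.pair i k + 1) (ItemG11.lst c (2 * Nat.pair i k + 1))
    rw [show (2 * Nat.pair i k + 1) / 2 = Nat.pair i k by omega, Nat.unpair_pair] at h1
    exact h1
  · intro i k j l
    exact hinj' _ _ (by omega)

end Pool.Agent.Work.MP_ba58b9_gt

end

section

/-!
# G12: the spine
-/

set_option autoImplicit false

open Set Filter Topology Ordinal

namespace Pool.Agent.Work.MP_ba58b9_gt

theorem G12_fin {X : Type} [TopologicalSpace X] (W Z : Set X) (w0 w1 : X)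
    (hJ : ∀ x ∈ W, ∀ y ∈ W, ∃ L : Set X, Thin L ∧ IsCompact L ∧ IsPreconnected L ∧
      L ⊆ W ∧ x ∈ L ∧ y ∈ L)
    (hU : ∀ A B : Set X, Thin A → Thin B → Thin (A ∪ B))
    (hw0 : w0 ∈ W) (hw1 : w1 ∈ W) (Nc : X → Set X) (F : Finset X)
    (hF : ∀ c ∈ F, c ∈ W ∧ IsCompact (Nc c) ∧ IsPreconnected (Nc c) ∧ c ∈ Nc c ∧ Nc c ⊆ Z) :
    ∃ N L : Set X, IsCompact N ∧ IsCompact L ∧ Thin L ∧ N ⊆ Z ∧ L ⊆ W ∧
      IsPreconnected (N ∪ L) ∧ w0 ∈ L ∧ w1 ∈ L ∧ ∀ c ∈ F, Nc c ⊆ N := by
  classical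
  induction F using Finset.induction_on with
  | empty =>
    obtain ⟨L, hL1, hL2, hL3, hL4, hL5, hL6⟩ := hJ w0 hw0 w1 hw1
    refine ⟨∅, L, isCompact_empty, hL2, hL1, empty_subset _, hL4, ?_, hL5, hL6, ?_⟩
    · rw [empty_union]; exact hL3
    · intro c hc
      exact absurd hc (Finset.notMem_empty c)
  | insert c F hc ih =>
    obtain ⟨N, L, hN1, hL1, hL2, hN2, hL3, hNL, hL4, hL5, hN3⟩ :=
      ih (fun c' hc' => hF c' (Finset.mem_insert_of_mem hc'))
    obtain ⟨hc1, hc2, hc3, hc4, hc5⟩ := hF c (Finset.mem_insert_self c F)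
    obtain ⟨L', hL1', hL2', hL3', hL4', hL5', hL6'⟩ := hJ w0 hw0 c hc1
    refine ⟨N ∪ Nc c, L ∪ L', hN1.union hc2, hL1.union hL2', hU _ _ hL2 hL1',
      union_subset hN2 hc5, union_subset hL3 hL4', ?_, Or.inl hL4, Or.inl hL5, ?_⟩
    · have h1 : IsPreconnected (Nc c ∪ L') := hc3.union c hc4 hL6' hL3'
      have h2 : IsPreconnected ((N ∪ L) ∪ (Nc c ∪ L')) :=
        hNL.union w0 (Or.inr hL4) (Or.inr hL5') h1
      have h3 : (N ∪ Nc c) ∪ (L ∪ L') = (N ∪ L) ∪ (Nc c ∪ L') := union_union_union_comm _ _ _ _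
      rw [h3]; exact h2
    · intro c' hc'
      rcases Finset.mem_insert.1 hc' with rfl | h
      · exact subset_union_right
      · exact (hN3 c' h).trans subset_union_left

theorem itemG12 (h1 : SChart) (h2 : SJoin) (h3 : SThinUnion) (_h4 : SThinSeg) (h5 : SLoc) :
    SSpine := by
  intro X _ _ _ hX V B Q P w hVo hVc hVa hVe hB hBV hQ hBQ hP hBP hw
  obtain ⟨-, -, -, hmet⟩ := h5 X hX
  obtain ⟨-, K, hKc, hKi, hKu⟩ := hmet inferInstance inferInstance
  have hKmono : Monotone K := monotone_nat_of_le_succ (fun n => (hKi n).trans interior_subset)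
  have habs : ∀ T : Set X, IsCompact T → ∃ n, T ⊆ interior (K n) := by
    intro T hT
    have hcov : T ⊆ ⋃ n, interior (K n) := by
      intro x _
      have hx : x ∈ ⋃ n, K n := by rw [hKu]; exact mem_univ x
      obtain ⟨n, hn⟩ := mem_iUnion.1 hx
      exact mem_iUnion.2 ⟨n + 1, hKi n hn⟩
    have hdir : Directed (· ⊆ ·) (fun n => interior (K n)) :=
      directed_of_isDirected_le (fun i j h => interior_mono (hKmono h))
    exact hT.elim_directed_cover _ (fun n => isOpen_interior) hcov hdir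
  choose a ha using fun j => habs _ (hBV j)
  let m : ℕ → ℕ := fun j => (∑ i ∈ Finset.range (j + 1), a i) + j
  have hm1 : ∀ j, a j ≤ m j := by
    intro j
    have : a j ≤ ∑ i ∈ Finset.range (j + 1), a i :=
      Finset.single_le_sum (f := a) (fun i _ => Nat.zero_le _) (Finset.self_mem_range_succ j)
    exact this.trans (Nat.le_add_right _ _)
  have hm2 : ∀ j, m j + 1 ≤ m (j + 1) := by
    intro j
    show (∑ i ∈ Finset.range (j + 1), a i) + j + 1 ≤
      (∑ i ∈ Finset.range (j + 1 + 1), a i) + (j + 1)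
    rw [Finset.sum_range_succ _ (j + 1)]
    omega
  have hmid : ∀ j, j ≤ m j := fun j => Nat.le_add_left _ _
  set C : ℕ → Set X := fun j => K (m j) with hC
  have hCc : ∀ j, IsCompact (C j) := fun j => hKc _
  have hCm : Monotone C := monotone_nat_of_le_succ
    (fun j => hKmono ((Nat.le_succ _).trans (hm2 j)))
  have hBC : ∀ j, B \ V j ⊆ interior (C j) := fun j =>
    (ha j).trans (interior_mono (hKmono (hm1 j)))
  have hCu : ∀ x, ∃ j, x ∈ C j := by
    intro x
    have hx : x ∈ ⋃ n, K n := by rw [hKu]; exact mem_univ x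
    obtain ⟨n, hn⟩ := mem_iUnion.1 hx
    exact ⟨n, hKmono (hmid n) hn⟩
  -- the pieces
  have hstep : ∀ j, ∃ N L : Set X, IsCompact N ∧ IsCompact L ∧ Thin L ∧ N ⊆ V j \ Q ∧
      L ⊆ V j \ P ∧ IsPreconnected (N ∪ L) ∧ w j ∈ L ∧ w (j + 1) ∈ L ∧
      B ∩ (C (j + 1) \ interior (C j)) ⊆ N := by
    intro j
    set β : Set X := B ∩ (C (j + 1) \ interior (C j)) with hβ
    have hβc : IsCompact β := by
      have h6 : β = C (j + 1) ∩ (B ∩ (interior (C j))ᶜ) := by
        ext x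
        simp only [hβ, mem_inter_iff, Set.mem_sdiff, mem_compl_iff]
        tauto
      rw [h6]
      exact (hCc (j + 1)).inter_right (hB.inter isOpen_interior.isClosed_compl)
    have hβV : β ⊆ V j := by
      intro x hx
      by_contra hxV
      exact hx.2.2 (hBC j ⟨hx.1, hxV⟩)
    have hNc : ∀ c, ∃ N : Set X, c ∈ β →
        (IsCompact N ∧ IsPreconnected N ∧ N ∈ 𝓝 c ∧ N ⊆ V j \ Q) := by
      intro c
      by_cases hc : c ∈ β
      · have hop : IsOpen (V j \ Q) := (hVo j).sdiff hQ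
        have hcm : c ∈ V j \ Q := ⟨hβV hc, fun h => disjoint_left.1 hBQ hc.1 h⟩
        obtain ⟨φ, hφ, hφ0, hφr⟩ := h1 X hX c (V j \ Q) hop hcm
        refine ⟨φ '' Metric.closedBall 0 1, fun _ => ⟨?_, ?_, ?_, ?_⟩⟩
        · exact (isCompact_closedBall 0 1).image hφ.continuous
        · exact (convex_closedBall (0 : E3) 1).isPreconnected.image _ hφ.continuous.continuousOn
        · rw [← hφ0]
          exact hφ.isOpenMap.image_mem_nhds (Metric.closedBall_mem_nhds 0 one_pos)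
        · exact (image_subset_range _ _).trans hφr
      · exact ⟨∅, fun h => absurd h hc⟩
    choose Nc hNc' using hNc
    obtain ⟨F, hF1, hF2⟩ := hβc.elim_nhds_subcover Nc (fun x hx => (hNc' x hx).2.2.1)
    have hWo : IsOpen (V j \ P) := (hVo j).sdiff hP.1
    have hWc : IsPreconnected (V j \ P) := hP.2.2 (V j) (hVo j) (hVc j)
    obtain ⟨N, L, hN1, hL1, hL2, hN2, hL3, hNL, hL4, hL5, hN3⟩ :=
      G12_fin (V j \ P) (V j \ Q) (w j) (w (j + 1)) (h2 X hX _ hWo hWc) (h3.1 X) (hw j)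
        ⟨hVa (Nat.le_succ j) (hw (j + 1)).1, (hw (j + 1)).2⟩ Nc F
        (fun c hc => ⟨⟨hβV (hF1 c hc), fun h => disjoint_left.1 hBP (hF1 c hc).1 h⟩,
          (hNc' c (hF1 c hc)).1, (hNc' c (hF1 c hc)).2.1,
          mem_of_mem_nhds (hNc' c (hF1 c hc)).2.2.1, (hNc' c (hF1 c hc)).2.2.2⟩)
    refine ⟨N, L, hN1, hL1, hL2, hN2, hL3, hNL, hL4, hL5, hF2.trans ?_⟩
    exact iUnion₂_subset hN3
  choose N L hNL using hstep
  refine ⟨N, L, ?_, ?_⟩
  · intro j
    obtain ⟨hN1, hL1, hL2, hN2, hL3, hNL', hL4, hL5, -⟩ := hNL j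
    exact ⟨hN1, hL1, hL2, hN2, hL3, hNL', hL4, ⟨w (j + 1), hL5, (hNL (j + 1)).2.2.2.2.2.2.1⟩⟩
  · intro n
    refine ⟨C n, hCc n, ?_⟩
    intro x hx
    by_cases hxn : x ∈ C n
    · exact Or.inl hxn
    · right
      classical
      have hex := hCu x
      have h6 := Nat.find_spec hex
      have h7 : ¬ Nat.find hex ≤ n := fun h => hxn (hCm h h6)
      obtain ⟨k, hk⟩ : ∃ k, Nat.find hex = k + 1 := ⟨Nat.find hex - 1, by omega⟩
      have h8 : x ∉ C k := Nat.find_min hex (by omega)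
      rw [hk] at h6
      refine mem_iUnion.2 ⟨k, mem_iUnion.2 ⟨by omega, ?_⟩⟩
      exact (hNL k).2.2.2.2.2.2.2.2 ⟨hx, h6, fun h => h8 (interior_subset h)⟩

end Pool.Agent.Work.MP_ba58b9_gt

end

section

/-!
# G13: a regular end around a spine
-/

set_option autoImplicit false

open Set Filter Topology Ordinal

namespace Pool.Agent.Work.MP_ba58b9_gt

theorem itemG13 (h1 : SLoc) : SFil := by
  intro X _ _ _ hX σ O hσc hσp hσi hO hOa hOe hσO
  obtain ⟨hlc, hlcon, -, hmet⟩ := h1 X hX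
  obtain ⟨hm, -⟩ := hmet inferInstance inferInstance
  have : LocallyCompactSpace X := hlc
  have : LocallyConnectedSpace X := hlcon
  have : TopologicalSpace.MetrizableSpace X := hm
  have : NormalSpace X := inferInstance
  set S : ℕ → Set X := fun n => ⋃ j, σ (n + j) with hS
  -- closedness
  have hSc : ∀ n, IsClosed (S n) := by
    intro n
    have hlf : LocallyFinite (fun j => σ (n + j)) := by
      intro x
      obtain ⟨C, hC, hxC⟩ := exists_compact_mem_nhds x
      obtain ⟨m, hm⟩ := hOe C hC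
      refine ⟨C, hxC, (Set.finite_Iio m).subset ?_⟩
      intro j hj
      by_contra hjm
      obtain ⟨y, hy1, hy2⟩ := hj
      have hjm' : m ≤ n + j := by
        have := not_lt.mp (fun h => hjm (Set.mem_Iio.mpr h))
        omega
      exact Set.disjoint_left.mp hm hy2 (hOa hjm' (hσO _ hy1))
    exact hlf.isClosed_iUnion fun j => (hσc _).isClosed
  have hSO : ∀ n, S n ⊆ O n := by
    intro n
    refine iUnion_subset fun j => (hσO _).trans (hOa ?_)
    omega
  have hSmono : ∀ n, S (n + 1) ⊆ S n := by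
    intro n
    refine iUnion_subset fun j => ?_
    have : n + 1 + j = n + (1 + j) := by omega
    rw [this]
    exact subset_iUnion (fun j => σ (n + j)) (1 + j)
  have hne : ∀ n, (σ n).Nonempty := fun n => (hσi n).mono inter_subset_left
  have hSp : ∀ n, IsConnected (S n) := by
    intro n
    refine IsConnected.iUnion_of_chain (fun j => ⟨hne _, hσp _⟩) (fun j => ?_)
    exact hσi (n + j)
  have key : ∀ (n : ℕ) (W : Set X), IsOpen W → S n ⊆ W →
      ∃ V : Set X, IsOpen V ∧ IsConnected V ∧ closure V ⊆ W ∧ S n ⊆ V := by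
    intro n W hW hSW
    obtain ⟨G, hGo, hSG, hGW⟩ := normal_exists_closure_subset (hSc n) hW hSW
    obtain ⟨x, hx⟩ := (hSp n).nonempty
    refine ⟨connectedComponentIn G x, hGo.connectedComponentIn,
      isConnected_connectedComponentIn_iff.mpr (hSG hx), ?_, ?_⟩
    · exact (closure_mono (connectedComponentIn_subset G x)).trans hGW
    · exact (hSp n).isPreconnected.subset_connectedComponentIn hx hSG
  choose! g hg1 hg2 hg3 hg4 using key
  set V : ℕ → Set X := fun n => Nat.rec (g 0 (O 0)) (fun n W => g (n + 1) (W ∩ O (n + 1))) n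
    with hV
  have hV0 : V 0 = g 0 (O 0) := rfl
  have hVs : ∀ n, V (n + 1) = g (n + 1) (V n ∩ O (n + 1)) := fun n => rfl
  have hP : ∀ n, IsOpen (V n) ∧ S n ⊆ V n ∧ IsConnected (V n) ∧ V n ⊆ O n := by
    intro n
    induction n with
    | zero =>
      rw [hV0]
      exact ⟨hg1 0 _ (hO 0) (hSO 0), hg4 0 _ (hO 0) (hSO 0), hg2 0 _ (hO 0) (hSO 0),
        subset_closure.trans (hg3 0 _ (hO 0) (hSO 0))⟩
    | succ n ih =>
      have ho : IsOpen (V n ∩ O (n + 1)) := ih.1.inter (hO _)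
      have hs : S (n + 1) ⊆ V n ∩ O (n + 1) :=
        subset_inter ((hSmono n).trans ih.2.1) (hSO _)
      rw [hVs]
      exact ⟨hg1 _ _ ho hs, hg4 _ _ ho hs, hg2 _ _ ho hs,
        (subset_closure.trans (hg3 _ _ ho hs)).trans inter_subset_right⟩
  refine ⟨V, fun n => ⟨(hP n).1, (hP n).2.2.1, ?_, (hP n).2.2.2, ?_⟩⟩
  · have ho : IsOpen (V n ∩ O (n + 1)) := (hP n).1.inter (hO _)
    have hs : S (n + 1) ⊆ V n ∩ O (n + 1) :=
      subset_inter ((hSmono n).trans (hP n).2.1) (hSO _)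
    rw [hVs]
    exact (hg3 _ _ ho hs).trans inter_subset_left
  · intro j hj
    refine Subset.trans ?_ (hP n).2.1
    have : j = n + (j - n) := by omega
    rw [this]
    exact subset_iUnion (fun j => σ (n + j)) (j - n)

end Pool.Agent.Work.MP_ba58b9_gt

end

section

/-!
# Item G14: one step on the first side
-/

set_option autoImplicit false

open Set Filter Topology Ordinal

namespace Pool.Agent.Work.MP_ba58b9_gt

section G14

variable {X : Type} [TopologicalSpace X]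

theorem G14_anti {U : ℕ → Set X} (h : ∀ n, closure (U (n + 1)) ⊆ U n) : Antitone U :=
  antitone_nat_of_succ_le fun n => subset_closure.trans (h n)

/-- A family of sets going to infinity is locally finite. -/
theorem G14_lf [LocallyCompactSpace X] {U : ℕ → Set X} (hU : Antitone U)
    (esc : ∀ C : Set X, IsCompact C → ∃ n, Disjoint C (U n)) {ι : Type} (A : ι → Set X)
    (rk : ι → ℕ) (hrk : ∀ n, {i | rk i < n}.Finite) (hA : ∀ i, A i ⊆ U (rk i)) :
    LocallyFinite A := by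
  intro x
  obtain ⟨K, hK, hx⟩ := exists_compact_mem_nhds x
  obtain ⟨n, hn⟩ := esc K hK
  refine ⟨K, hx, (hrk n).subset ?_⟩
  rintro i ⟨y, hy, hyK⟩
  by_contra h
  have h' : n ≤ rk i := by simpa using h
  exact Set.disjoint_left.1 hn hyK (hU h' (hA i hy))

theorem G14_fin (n : ℕ) : {p : ℕ × ℕ | p.1 + p.2 < n}.Finite := by
  apply ((Set.finite_Iio n).prod (Set.finite_Iio n)).subset
  rintro ⟨i, k⟩ h
  have h : i + k < n := h
  exact ⟨show i < n by omega, show k < n by omega⟩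

theorem G14_thinPts [T2Space X] [LocallyCompactSpace X] (h2 : SThinSeg) (h3 : SThinUnion)
    (hX : LocE X) {U : ℕ → Set X} (hU : Antitone U)
    (esc : ∀ C : Set X, IsCompact C → ∃ n, Disjoint C (U n)) (r : ℕ → ℕ → X)
    (hr : ∀ i k, r i k ∈ U (i + k)) : Thin (⋃ p : ℕ × ℕ, ({r p.1 p.2} : Set X)) := by
  apply h3.2 X hX (ℕ × ℕ) _ (fun p => h2.2 X hX _)
  apply G14_lf hU esc _ (fun p => p.1 + p.2) G14_fin
  rintro p x rfl
  exact hr _ _

theorem G14_thinFin [T2Space X] (h2 : SThinSeg) (h3 : SThinUnion)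
    (hX : LocE X) {F : Set X} (hF : F.Finite) : Thin F := by
  have h : Thin (⋃ x : F, ({x.1} : Set X)) := by
    apply h3.2 X hX F _ (fun p => h2.2 X hX _)
    have := hF.to_subtype
    exact locallyFinite_of_finite _
  have e : (⋃ x : F, ({x.1} : Set X)) = F := by
    ext y; simp
  rwa [e] at h

end G14

theorem itemG14 (h1 : SPoints) (h2 : SThinSeg) (h3 : SThinUnion) (h4 : SSpine) (h5 : SPush)
    (h6 : SFil) (h7 : SLoc) : SKStep := by
  classical
  intro X _ _ _ hX s hs T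
  have : LocallyCompactSpace X := (h7 X hX).1
  have antiU : Antitone s.U := G14_anti hs.endA.reg
  have antiV : Antitone s.V := G14_anti hs.endB.reg
  let T' : ℕ → Set X := fun i => Nat.casesOn i s.A
    (fun i => if ∀ n, (T i ∩ s.U n).Nonempty then T i else s.A)
  have hT' : ∀ i n, (T' i ∩ s.U n).Nonempty := by
    intro i n
    rcases i with _ | i
    · exact hs.endA.meet n
    · by_cases h : ∀ n, (T i ∩ s.U n).Nonempty
      · have : T' (i + 1) = T i := if_pos h
        rw [this]; exact h n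
      · have : T' (i + 1) = s.A := if_neg h
        rw [this]; exact hs.endA.meet n
  have hpt : ∀ x, ∃ n, x ∉ s.U n := by
    intro x
    obtain ⟨n, hn⟩ := hs.endA.esc {x} isCompact_singleton
    exact ⟨n, fun h => Set.disjoint_left.1 hn rfl h⟩
  obtain ⟨r, t, hr, ht, hrt⟩ := h1 X T' s.U antiU hpt hT'
  have thR : Thin (⋃ p : ℕ × ℕ, ({r p.1 p.2} : Set X)) :=
    G14_thinPts h2 h3 hX antiU hs.endA.esc r fun i k => (hr i k).2
  have thP : Thin (⋃ p : ℕ × ℕ, ({t p.1 p.2} : Set X)) :=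
    G14_thinPts h2 h3 hX antiU hs.endA.esc t fun i k => (ht i k).2
  set R : Set X := ⋃ p : ℕ × ℕ, ({r p.1 p.2} : Set X) with hR
  set Pt : Set X := ⋃ p : ℕ × ℕ, ({t p.1 p.2} : Set X) with hPt
  have rR : ∀ i k, r i k ∈ R := fun i k => Set.mem_iUnion.2 ⟨(i, k), rfl⟩
  have tP : ∀ i k, t i k ∈ Pt := fun i k => Set.mem_iUnion.2 ⟨(i, k), rfl⟩
  have hPtU : Pt ⊆ s.U 0 := by
    intro x hx
    obtain ⟨p, hp⟩ := Set.mem_iUnion.1 hx
    have hp : x = t p.1 p.2 := hp
    rw [hp]; exact antiU (Nat.zero_le _) (ht p.1 p.2).2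
  have hw : ∀ j, ∃ w, w ∈ (s.U j ∩ s.V j) \ Pt := by
    intro j
    by_contra h
    push Not at h
    have hsub : s.U j ∩ s.V j ⊆ Pt := by
      intro x hx
      by_contra hx'
      exact (h x) ⟨hx, hx'⟩
    have hop : IsOpen (s.U j ∩ s.V j) := (hs.endA.opn j).inter (hs.endB.opn j)
    have := interior_maximal hsub hop
    rw [thP.2.1] at this
    obtain ⟨x, hx⟩ := hs.join j
    exact this hx
  choose w hw using hw
  have dBQ : Disjoint s.B (closure (s.U 1)) :=
    hs.dBU.mono_right (hs.endA.reg 0)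
  obtain ⟨N, L, hNL, hcov⟩ := h4 X hX s.V s.B (closure (s.U 1)) Pt w hs.endB.opn
    (fun n => (hs.endB.conn n).isPreconnected) antiV hs.endB.esc hs.clB hs.endB.cpt
    isClosed_closure dBQ thP (hs.dBU.mono_right hPtU) (fun j => ⟨(hw j).1.2, (hw j).2⟩)
  have cN := fun j => (hNL j).1
  have cL := fun j => (hNL j).2.1
  have tL := fun j => (hNL j).2.2.1
  have sN := fun j => (hNL j).2.2.2.1
  have sL := fun j => (hNL j).2.2.2.2.1
  have pNL := fun j => (hNL j).2.2.2.2.2.1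
  have wL := fun j => (hNL j).2.2.2.2.2.2.1
  have nL := fun j => (hNL j).2.2.2.2.2.2.2
  have thL : Thin (⋃ j, L j) := by
    apply h3.2 X hX ℕ _ tL
    exact G14_lf antiV hs.endB.esc L id (fun n => Set.finite_Iio n) (fun j x hx => (sL j hx).1)
  have thΛ : Thin (R ∪ ⋃ j, L j) := h3.1 X _ _ thR thL
  set Λ : Set X := R ∪ ⋃ j, L j with hΛ
  let W : ℕ → Set X := fun n => s.U (n + 1) \ Λ
  have opW : ∀ n, IsOpen (W n) := fun n => (hs.endA.opn (n + 1)).sdiff thΛ.1
  have antiW : Antitone W := fun m n h => Set.sdiff_subset_sdiff_left (antiU (by omega))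
  have WU : ∀ n, W n ⊆ s.U n := fun n x hx => antiU (Nat.le_succ n) hx.1
  have escW : ∀ C : Set X, IsCompact C → ∃ n, Disjoint C (W n) := by
    intro C hC
    obtain ⟨n, hn⟩ := hs.endA.esc C hC
    exact ⟨n, hn.mono_right (WU n)⟩
  have preW : ∀ n, ∀ F : Set X, F.Finite → IsPreconnected (W n \ F) := by
    intro n F hF
    have hth : Thin (Λ ∪ F) := h3.1 X _ _ thΛ (G14_thinFin h2 h3 hX hF)
    have := hth.2.2 (s.U (n + 1)) (hs.endA.opn _) (hs.endA.conn _).isPreconnected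
    have e : W n \ F = s.U (n + 1) \ (Λ ∪ F) := by
      show (s.U (n + 1) \ Λ) \ F = _
      rw [Set.sdiff_sdiff]
    rwa [e]
  have tΛ : ∀ i k, t i k ∉ Λ := by
    rintro i k (h | h)
    · obtain ⟨p, hp⟩ := Set.mem_iUnion.1 h
      exact hrt p.1 p.2 i k (by have hp : t i k = r p.1 p.2 := hp; exact hp.symm)
    · obtain ⟨j, hj⟩ := Set.mem_iUnion.1 h
      exact (sL j hj).2 (tP i k)
  obtain ⟨ι, S, hι, hne, clS, hSW, hid, hSS, hZS, hdense, hG⟩ := h5 X hX W opW antiW escW preW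
    (fun i => Set.range (t i)) (fun i n => ⟨t i (n + 1), ⟨n + 1, rfl⟩,
      antiU (by omega) (ht i (n + 1)).2, tΛ i (n + 1)⟩)
  have inj : Function.Injective ι := hι.injective
  have SU : S ⊆ s.U 1 := fun x hx => (hSW hx).1
  have SΛ : ∀ x ∈ S, x ∉ Λ := fun x hx => (hSW hx).2
  have SB : ∀ x ∈ S, x ∉ s.B := fun x hx hB =>
    Set.disjoint_left.1 hs.dBU hB (antiU (Nat.zero_le 1) (SU hx))
  have hnS : ∀ x, ι x ∉ S → ι x = x := by
    intro x hx
    exact hid x (fun h => hx (hSS x h))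
  have hGn : ∀ n, ∃ (G : X ≃ₜ X) (C : Set X), IsCompact C ∧ (∀ x, G x ∉ C → G x = x) ∧
      (∀ x, x ∉ C → G x = x) ∧ ∀ x, x ∉ W n → ι x = G x := by
    intro n
    obtain ⟨G, C, hC, hGC, hGW⟩ := hG n
    refine ⟨G, C, hC, fun x hx => ?_, hGC, hGW⟩
    exact G.injective (hGC (G x) hx)
  -- the new filtration on the side of `B`
  obtain ⟨V', hV'⟩ := h6 X hX (fun j => N j ∪ L j) (fun n => s.V n \ S)
    (fun j => (cN j).union (cL j)) pNL
    (fun j => by
      obtain ⟨x, hx1, hx2⟩ := nL j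
      exact ⟨x, Or.inr hx1, Or.inr hx2⟩)
    (fun n => (hs.endB.opn n).sdiff clS)
    (fun m n h => Set.sdiff_subset_sdiff_left (antiV h))
    (fun C hC => by
      obtain ⟨n, hn⟩ := hs.endB.esc C hC
      exact ⟨n, hn.mono_right Set.sdiff_subset⟩)
    (by
      rintro j x (hx | hx)
      · exact ⟨(sN j hx).1, fun hS => (sN j hx).2 (subset_closure (SU hS))⟩
      · exact ⟨(sL j hx).1, fun hS => SΛ x hS (Or.inr (Set.mem_iUnion.2 ⟨j, hx⟩))⟩)
  have V'V : ∀ n, V' n ⊆ s.V n := fun n x hx => ((hV' n).2.2.2.1 hx).1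
  have V'S : ∀ n, ∀ x ∈ V' n, x ∉ S := fun n x hx => ((hV' n).2.2.2.1 hx).2
  have mem_of : ∀ x, x ∈ s.A → ∀ y, ι x = y → y ∉ S → y ∈ s.A := by
    rintro x hx y rfl hy
    rw [hnS x hy]; exact hx
  have clA' : IsClosed (ι '' s.A ∪ (range ι)ᶜ) := by
    rw [← isOpen_compl_iff]
    have e : (ι '' s.A ∪ (range ι)ᶜ)ᶜ = ι '' s.Aᶜ := by
      ext y
      constructor
      · intro hy
        have h1 : y ∉ ι '' s.A := fun h => hy (Or.inl h)
        have h2 : y ∈ range ι := by
          by_contra h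
          exact hy (Or.inr h)
        obtain ⟨x, rfl⟩ := h2
        exact ⟨x, fun hx => h1 ⟨x, hx, rfl⟩, rfl⟩
      · rintro ⟨x, hx, rfl⟩ (⟨x', hx', e⟩ | h)
        · rw [inj e] at hx'; exact hx hx'
        · exact h ⟨x, rfl⟩
    rw [e]
    exact hι.isOpenMap _ hs.clA.isOpen_compl
  refine ⟨⟨ι '' s.A ∪ (range ι)ᶜ, s.B, s.U, V'⟩, ι, ?_, ?_, hne, Set.subset_union_right, ?_⟩
  · refine ⟨clA', hs.clB, ?_, ?_, ?_, hs.dBU, ?_, ?_⟩
    · -- disjointness
      rw [Set.disjoint_left]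
      rintro y (⟨x, hx, hxy⟩ | hy) hB
      · have h1 := mem_of x hx y hxy (fun h => SB y h hB)
        exact Set.disjoint_left.1 hs.dAB h1 hB
      · exact SB y (hZS hy) hB
    · refine ⟨hs.endA.opn, hs.endA.conn, hs.endA.reg, hs.endA.esc, ?_, ?_⟩
      · intro n
        obtain ⟨G, C, hC, hG1, hG2, hG3⟩ := hGn n
        refine (hC.union (hs.endA.cpt n)).of_isClosed_subset
          (clA'.sdiff (hs.endA.opn n)) ?_
        rintro z ⟨hz, hzU⟩
        by_contra hcon
        have hzC : z ∉ C := fun h => hcon (Or.inl h)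
        have hzA : z ∉ s.A := fun h => hcon (Or.inr ⟨h, hzU⟩)
        have hzW : z ∉ W n := fun h => hzU (WU n h)
        have e1 : ι z = z := (hG3 z hzW).trans (hG2 z hzC)
        rcases hz with ⟨x, hx, hxz⟩ | hz
        · have : x = z := inj (hxz.trans e1.symm)
          exact hzA (this ▸ hx)
        · exact hz ⟨z, e1⟩
      · intro n
        have h1 := hr 0 n
        refine ⟨r 0 n, Or.inl ⟨r 0 n, h1.1, hid _ fun h => SΛ _ h (Or.inl (rR 0 n))⟩, ?_⟩
        have := h1.2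
        rwa [Nat.zero_add] at this
    · have cptB : ∀ n, IsCompact (s.B \ V' n) := by
        intro n
        obtain ⟨C, hC, hBC⟩ := hcov n
        refine hC.of_isClosed_subset (hs.clB.sdiff (hV' n).1) ?_
        rintro z ⟨hz, hzV⟩
        rcases hBC hz with h | h
        · exact h
        · obtain ⟨j, hj⟩ := Set.mem_iUnion.1 h
          obtain ⟨hnj, hj⟩ := Set.mem_iUnion.1 hj
          exact absurd ((hV' n).2.2.2.2 j hnj (Or.inl hj)) hzV
      refine ⟨fun n => (hV' n).1, fun n => (hV' n).2.1, fun n => (hV' n).2.2.1, ?_, cptB, ?_⟩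
      · intro C hC
        obtain ⟨n, hn⟩ := hs.endB.esc C hC
        exact ⟨n, hn.mono_right (V'V n)⟩
      · intro n
        by_contra h
        rw [Set.not_nonempty_iff_eq_empty] at h
        have e : s.B \ V' n = s.B := by
          ext z
          constructor
          · exact fun hz => hz.1
          · exact fun hz => ⟨hz, fun hz' => by
              have : z ∈ s.B ∩ V' n := ⟨hz, hz'⟩
              rw [h] at this; exact this⟩
        have hB : IsCompact s.B := e ▸ cptB n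
        obtain ⟨m, hm⟩ := hs.endB.esc _ hB
        obtain ⟨z, hz1, hz2⟩ := hs.endB.meet m
        exact Set.disjoint_left.1 hm hz1 hz2
    · rw [Set.disjoint_left]
      rintro y (⟨x, hx, hxy⟩ | hy) hV
      · have h1 := mem_of x hx y hxy (V'S 0 y hV)
        exact Set.disjoint_left.1 hs.dAV h1 (V'V 0 hV)
      · exact V'S 0 y hV (hZS hy)
    · intro n
      exact ⟨w n, (hw n).1.1, (hV' n).2.2.2.2 n le_rfl (Or.inr (wL n))⟩
  · refine ⟨hι, ?_, ?_, ?_, ?_, ?_, ?_, ?_, ?_⟩
    · intro x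
      by_cases hx : x ∈ range ι
      · exact subset_closure hx
      · exact closure_mono (Set.image_subset_range _ _) (hdense 0 hx)
    · ext x
      constructor
      · rintro (⟨x', hx', e⟩ | h)
        · exact inj e ▸ hx'
        · exact absurd ⟨x, rfl⟩ h
      · exact fun hx => Or.inl ⟨x, hx, rfl⟩
    · ext x
      constructor
      · intro hx
        have hx : ι x ∈ s.B := hx
        rwa [hnS x fun h => SB _ h hx] at hx
      · intro hx
        show ι x ∈ s.B
        rwa [hid x fun h => SB _ h hx]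
    · exact fun z hz => Or.inl (Or.inr hz)
    · intro n
      obtain ⟨G, C, hC, hG1, hG2, hG3⟩ := hGn n
      obtain ⟨m, hm⟩ := hs.endA.esc C hC
      refine ⟨max m n, ?_⟩
      intro x hx
      have hx : ι x ∈ s.U (max m n) := hx
      by_cases hxW : x ∈ W n
      · exact WU n hxW
      · have e1 := hG3 x hxW
        have h1 : ι x ∉ C := fun h => Set.disjoint_left.1 hm h (antiU (le_max_left m n) hx)
        rw [e1] at h1
        have e2 : ι x = x := e1.trans (hG1 x h1)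
        rw [e2] at hx
        exact antiU (le_max_right m n) hx
    · intro n
      refine ⟨n, ?_⟩
      intro x hx
      have hx : ι x ∈ V' n := hx
      have e := hnS x (V'S n _ hx)
      rw [e] at hx
      exact V'V n hx
    · rintro n z ⟨-, hz⟩
      obtain ⟨G, C, hC, hG1, hG2, hG3⟩ := hGn n
      have hop : IsOpen (G '' W n) := G.isOpenMap _ (opW n)
      have hsub : G '' W n ⊆ ι '' s.U n ∪ (range ι)ᶜ := by
        rintro _ ⟨y, hy, rfl⟩
        by_cases h : G y ∈ range ι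
        · obtain ⟨x, hx⟩ := h
          by_cases hxW : x ∈ W n
          · exact Or.inl ⟨x, WU n hxW, hx⟩
          · have e := hG3 x hxW
            have : x = y := G.injective (e.symm.trans hx)
            exact absurd (this ▸ hy) hxW
        · exact Or.inr h
      apply interior_maximal hsub hop
      refine ⟨G.symm z, ?_, G.apply_symm_apply z⟩
      by_contra h
      have e := hG3 _ h
      rw [G.apply_symm_apply] at e
      exact hz ⟨_, e⟩
    · rintro n z ⟨hzB, hz⟩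
      exact absurd hzB (SB z (hZS hz))
  · intro i hi
    have e : T' (i + 1) = T i := if_pos hi
    constructor
    · refine (hdense (i + 1)).trans (closure_mono (Set.image_mono ?_))
      rintro _ ⟨k, rfl⟩
      have := (ht (i + 1) k).1
      rwa [e] at this
    · intro n
      have h1 := hr (i + 1) n
      rw [e] at h1
      refine ⟨r (i + 1) n, ⟨r (i + 1) n, h1.1, hid _ fun h => SΛ _ h (Or.inl (rR _ _))⟩, ?_⟩
      exact antiU (by omega) h1.2

end Pool.Agent.Work.MP_ba58b9_gt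

end

section

/-!
# G15: a state from raw ends
-/

set_option autoImplicit false

open Set Filter Topology Ordinal

namespace Pool.Agent.Work.MP_ba58b9_gt

theorem g15_thin_empty (X : Type) [TopologicalSpace X] : Thin (∅ : Set X) := by
  refine ⟨isClosed_empty, interior_empty, ?_⟩
  intro V _ hV
  rwa [sdiff_empty]

theorem g15_side (h1 : SSpine) (h2 : SFil) (X : Type) [TopologicalSpace X] [T2Space X]
    [SecondCountableTopology X] (hX : LocE X) (A : Set X) (U : ℕ → Set X) (w : ℕ → X)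
    (hA : IsClosed A) (hnc : ¬ IsCompact A) (hU : ∀ n, IsOpen (U n))
    (hUc : ∀ n, IsPreconnected (U n)) (hUa : Antitone U)
    (hUe : ∀ C : Set X, IsCompact C → ∃ n, Disjoint C (U n))
    (hAU : ∀ n, IsCompact (A \ U n)) (hw : ∀ n, w n ∈ U n) :
    ∃ U' : ℕ → Set X, EndAt A U' ∧ (∀ n, U' n ⊆ U n) ∧ ∀ n, w n ∈ U' n := by
  obtain ⟨N, L, hNL, hcov⟩ := h1 X hX U A ∅ ∅ w hU hUc hUa hUe hA hAU isClosed_empty
    (disjoint_empty A) (g15_thin_empty X) (disjoint_empty A) (fun j => ⟨hw j, notMem_empty _⟩)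
  obtain ⟨U', hU'⟩ := h2 X hX (fun j => N j ∪ L j) U
    (fun j => (hNL j).1.union (hNL j).2.1) (fun j => (hNL j).2.2.2.2.2.1)
    (fun j => by
      obtain ⟨x, hx, hx'⟩ := (hNL j).2.2.2.2.2.2.2
      exact ⟨x, Or.inr hx, Or.inr hx'⟩)
    hU hUa hUe
    (fun j => by
      rintro x (hx | hx)
      · exact ((hNL j).2.2.2.1 hx).1
      · exact ((hNL j).2.2.2.2.1 hx).1)
  have hcpt : ∀ n, IsCompact (A \ U' n) := by
    intro n
    obtain ⟨C, hC, hAC⟩ := hcov n
    refine hC.of_isClosed_subset (hA.sdiff (hU' n).1) ?_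
    rintro x ⟨hxA, hxU⟩
    rcases hAC hxA with hx | hx
    · exact hx
    · exfalso
      obtain ⟨j, hj⟩ := mem_iUnion.mp hx
      obtain ⟨hnj, hj⟩ := mem_iUnion.mp hj
      exact hxU ((hU' n).2.2.2.2 j hnj (Or.inl hj))
  refine ⟨U', ⟨fun n => (hU' n).1, fun n => (hU' n).2.1, fun n => (hU' n).2.2.1, ?_, hcpt, ?_⟩,
    fun n => (hU' n).2.2.2.1, ?_⟩
  · intro C hC
    obtain ⟨n, hn⟩ := hUe C hC
    exact ⟨n, hn.mono_right (hU' n).2.2.2.1⟩
  · intro n
    by_contra hne
    rw [not_nonempty_iff_eq_empty] at hne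
    apply hnc
    have h := hcpt n
    have e : A \ U' n = A := by
      ext x
      refine ⟨fun hx => hx.1, fun hx => ⟨hx, fun hx' => ?_⟩⟩
      have hxx : x ∈ A ∩ U' n := ⟨hx, hx'⟩
      rw [hne] at hxx
      exact hxx
    rwa [e] at h
  · intro n
    exact (hU' n).2.2.2.2 n le_rfl (Or.inr (hNL n).2.2.2.2.2.2.1)

theorem itemG15 (h1 : SSpine) (h2 : SFil) : SReg := by
  intro X _ _ _ hX A B U V hA hB hAB hAnc hBnc hU hV hUc hVc hUa hVa hUe hVe hAU hBV hBU hAV hne
  choose w hw using hne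
  obtain ⟨U', hU', hUs, hwU⟩ := g15_side h1 h2 X hX A U w hA hAnc hU hUc hUa hUe hAU
    (fun n => (hw n).1)
  obtain ⟨V', hV', hVs, hwV⟩ := g15_side h1 h2 X hX B V w hB hBnc hV hVc hVa hVe hBV
    (fun n => (hw n).2)
  exact ⟨⟨A, B, U', V'⟩, ⟨hA, hB, hAB, hU', hV', hBU.mono_right (hUs 0), hAV.mono_right (hVs 0),
    fun n => ⟨w n, hwU n, hwV n⟩⟩, rfl, rfl, hUs, hVs⟩

end Pool.Agent.Work.MP_ba58b9_gt

end

section

/-!
# Item G16: transitions compose, and everything is symmetric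
-/

set_option autoImplicit false

open Set Filter Topology Ordinal

namespace Pool.Agent.Work.MP_ba58b9_gt

theorem itemG16_nb {X Y Z : Type} [TopologicalSpace X] [TopologicalSpace Y] [TopologicalSpace Z]
    {ι : X → Y} {κ : Y → Z} (hκ : IsOpenEmbedding κ) {tA : Set Y} {uA : Set Z}
    (heA : κ ⁻¹' uA = tA) {sU : Set X} {tU : Set Y} (href : ι ⁻¹' tU ⊆ sU)
    (h1 : tA \ range ι ⊆ interior (ι '' sU ∪ (range ι)ᶜ))
    (h2 : uA \ range κ ⊆ interior (κ '' tU ∪ (range κ)ᶜ)) :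
    uA \ range (κ ∘ ι) ⊆ interior ((κ ∘ ι) '' sU ∪ (range (κ ∘ ι))ᶜ) := by
  have hn : ∀ y, y ∉ range ι → κ y ∉ range (κ ∘ ι) := by
    rintro y hy ⟨x, hx⟩
    exact hy ⟨x, hκ.injective hx⟩
  rintro q ⟨hq, hq'⟩
  by_cases hqr : q ∈ range κ
  · obtain ⟨y, rfl⟩ := hqr
    have hy : y ∈ tA \ range ι := by
      refine ⟨?_, ?_⟩
      · rw [← heA]
        exact hq
      · rintro ⟨x, rfl⟩
        exact hq' ⟨x, rfl⟩
    rw [mem_interior]
    refine ⟨κ '' interior (ι '' sU ∪ (range ι)ᶜ), ?_, hκ.isOpenMap _ isOpen_interior,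
      mem_image_of_mem _ (h1 hy)⟩
    rintro _ ⟨z, hz, rfl⟩
    rcases interior_subset hz with ⟨x, hx, rfl⟩ | hz
    · exact Or.inl ⟨x, hx, rfl⟩
    · exact Or.inr (hn z hz)
  · refine interior_mono ?_ (h2 ⟨hq, hqr⟩)
    rintro z (⟨y, hy, rfl⟩ | hz)
    · by_cases hyr : y ∈ range ι
      · obtain ⟨x, rfl⟩ := hyr
        exact Or.inl ⟨x, href hy, rfl⟩
      · exact Or.inr (hn y hyr)
    · right
      rintro ⟨x, rfl⟩
      exact hz ⟨ι x, rfl⟩

theorem itemG16 : SATrans := by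
  refine ⟨?_, ?_, ?_⟩
  · intro X Y Z _ _ _ s t u ι κ h1 h2
    refine ⟨h2.emb.comp h1.emb, h2.dns.comp h1.dns h2.emb.continuous, ?_, ?_, ?_, ?_, ?_, ?_, ?_⟩
    · rw [preimage_comp, h2.eA, h1.eA]
    · rw [preimage_comp, h2.eB, h1.eB]
    · intro z hz
      by_cases hzr : z ∈ range κ
      · obtain ⟨y, rfl⟩ := hzr
        have hy : y ∈ (range ι)ᶜ := by
          rintro ⟨x, rfl⟩
          exact hz ⟨x, rfl⟩
        rcases h1.new hy with h | h
        · rw [← h2.eA] at h
          exact Or.inl h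
        · rw [← h2.eB] at h
          exact Or.inr h
      · exact h2.new hzr
    · intro n
      obtain ⟨m, hm⟩ := h1.refU n
      obtain ⟨k, hk⟩ := h2.refU m
      exact ⟨k, fun x hx => hm (hk hx)⟩
    · intro n
      obtain ⟨m, hm⟩ := h1.refV n
      obtain ⟨k, hk⟩ := h2.refV m
      exact ⟨k, fun x hx => hm (hk hx)⟩
    · intro n
      obtain ⟨m, hm⟩ := h1.refU n
      exact itemG16_nb h2.emb h2.eA hm (h1.nbA n) (h2.nbA m)
    · intro n
      obtain ⟨m, hm⟩ := h1.refV n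
      exact itemG16_nb h2.emb h2.eB hm (h1.nbB n) (h2.nbB m)
  · intro X Y _ _ s t ι h
    exact ⟨h.emb, h.dns, h.eB, h.eA, fun z hz => (h.new hz).symm, h.refV, h.refU, h.nbB, h.nbA⟩
  · intro X _ s h
    exact ⟨h.clB, h.clA, h.dAB.symm, h.endB, h.endA, h.dAV, h.dBU,
      fun n => by
        have := h.join n
        rw [inter_comm] at this
        exact this⟩

end Pool.Agent.Work.MP_ba58b9_gt

end

section

/-!
# Item G2: small open copies of `ℝ³`
-/

set_option autoImplicit false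

open Set Filter Topology Ordinal

namespace Pool.Agent.Work.MP_ba58b9_gt

theorem itemG2 : SChart := by
  intro X _ hX x V hV hxV
  obtain ⟨U, hU, hxU, ⟨h⟩⟩ := hX x
  let e : E3 → X := fun z => (h.symm z : X)
  have he : IsOpenEmbedding e := hU.isOpenEmbedding_subtypeVal.comp h.symm.isOpenEmbedding
  have hy : e (h ⟨x, hxU⟩) = x := by
    show ((h.symm (h ⟨x, hxU⟩) : U) : X) = x
    rw [h.symm_apply_apply]
  have hop : IsOpen (e ⁻¹' V) := hV.preimage he.continuous
  have hmem : h ⟨x, hxU⟩ ∈ e ⁻¹' V := by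
    show e (h ⟨x, hxU⟩) ∈ V
    rw [hy]; exact hxV
  obtain ⟨r, hr, hball⟩ := Metric.isOpen_iff.1 hop _ hmem
  let u := OpenPartialHomeomorph.univBall (h ⟨x, hxU⟩) r
  have hu : IsOpenEmbedding u :=
    u.isOpenEmbedding (OpenPartialHomeomorph.univBall_source _ _)
  refine ⟨e ∘ u, he.comp hu, ?_, ?_⟩
  · show e (u 0) = x
    rw [OpenPartialHomeomorph.univBall_apply_zero, hy]
  · rintro _ ⟨z, rfl⟩
    show u z ∈ e ⁻¹' V
    apply hball
    have : u z ∈ u.target := u.map_source (by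
      rw [OpenPartialHomeomorph.univBall_source]; trivial)
    rwa [OpenPartialHomeomorph.univBall_target _ hr] at this

end Pool.Agent.Work.MP_ba58b9_gt

end

section

/-!
# Hereditarily countably paracompact manifolds: item G3 (moving points)
-/

set_option autoImplicit false

open Set Filter Topology Ordinal

namespace Pool.Agent.Work.MP_ba58b9_gt

/-- conjugate a map of `E3` by an open embedding and extend by the identity -/
noncomputable def itemG3_ext {X : Type} (φ : E3 → X) (g : E3 → E3) : X → X :=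
  Function.extend φ (fun u => φ (g u)) id

theorem itemG3_ext_apply {X : Type} {φ : E3 → X} (hφ : Function.Injective φ) (g : E3 → E3)
    (u : E3) : itemG3_ext φ g (φ u) = φ (g u) := by
  simp only [itemG3_ext]
  exact hφ.extend_apply _ _ u

theorem itemG3_ext_of_not {X : Type} {φ : E3 → X} (hφ : Function.Injective φ) (g : E3 → E3)
    (hg : ∀ u, 1 ≤ ‖u‖ → g u = u) (y : X) (hy : y ∉ φ '' Metric.closedBall 0 1) :
    itemG3_ext φ g y = y := by
  by_cases h : ∃ u, φ u = y
  · obtain ⟨u, rfl⟩ := h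
    rw [itemG3_ext_apply hφ]
    rw [hg u]
    by_contra hcon
    apply hy
    refine mem_image_of_mem _ ?_
    rw [Metric.mem_closedBall, dist_zero_right]
    exact (not_le.1 hcon).le
  · simp only [itemG3_ext]
    rw [Function.extend_apply' _ _ _ h]
    rfl

theorem itemG3_ext_cont {X : Type} [TopologicalSpace X] [T2Space X] {φ : E3 → X}
    (hφ : IsOpenEmbedding φ) (g : E3 → E3) (hgc : Continuous g)
    (hg : ∀ u, 1 ≤ ‖u‖ → g u = u) : Continuous (itemG3_ext φ g) := by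
  rw [continuous_iff_continuousAt]
  intro y
  by_cases hy : y ∈ φ '' Metric.closedBall 0 1
  · obtain ⟨u, -, rfl⟩ := hy
    rw [← hφ.continuousAt_iff]
    have h1 : itemG3_ext φ g ∘ φ = fun u => φ (g u) := by
      funext u
      exact itemG3_ext_apply hφ.injective g u
    rw [h1]
    exact (hφ.continuous.comp hgc).continuousAt
  · have h1 : IsClosed (φ '' Metric.closedBall (0 : E3) 1) :=
      ((isCompact_closedBall (0 : E3) 1).image hφ.continuous).isClosed
    have h2 : itemG3_ext φ g =ᶠ[𝓝 y] id := by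
      filter_upwards [h1.isOpen_compl.mem_nhds hy] with z hz
      exact itemG3_ext_of_not hφ.injective g hg z hz
    exact continuousAt_id.congr h2.symm

theorem itemG3_ext_inv {X : Type} {φ : E3 → X} (hφ : Function.Injective φ) (g g' : E3 → E3)
    (hgg : ∀ u, g' (g u) = u) (y : X) : itemG3_ext φ g' (itemG3_ext φ g y) = y := by
  by_cases h : ∃ u, φ u = y
  · obtain ⟨u, rfl⟩ := h
    rw [itemG3_ext_apply hφ, itemG3_ext_apply hφ, hgg]
  · have h1 : ∀ k : E3 → E3, itemG3_ext φ k y = y := by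
      intro k
      simp only [itemG3_ext]
      rw [Function.extend_apply' _ _ _ h]
      rfl
    rw [h1, h1]

theorem itemG3 (h1 : SMoveE) (h2 : SChart) : SMove := by
  intro X _ _ hX V hV hVc x hx y hy
  refine IsPreconnected.induction₂ hVc
    (fun x y => ∃ (f : X ≃ₜ X) (C : Set X), IsCompact C ∧ C ⊆ V ∧
      (∀ z, z ∉ C → f z = z) ∧ f x = y) ?_ ?_ ?_ hx hy
  · intro x hx
    obtain ⟨φ, hφ, hφ0, hφV⟩ := h2 X hX x V hV hx
    have hopen : IsOpen (φ '' Metric.ball 0 1) := hφ.isOpenMap _ Metric.isOpen_ball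
    have hmem : x ∈ φ '' Metric.ball 0 1 := ⟨0, by simp, hφ0⟩
    apply mem_nhdsWithin_of_mem_nhds
    filter_upwards [hopen.mem_nhds hmem] with z hz
    obtain ⟨v, hv, rfl⟩ := hz
    obtain ⟨g, hg, hg0⟩ := h1 v (by simpa using hv)
    have hg' : ∀ u, 1 ≤ ‖u‖ → g.symm u = u := by
      intro u hu
      rw [Homeomorph.symm_apply_eq]
      exact (hg u hu).symm
    refine ⟨⟨⟨itemG3_ext φ g, itemG3_ext φ g.symm, ?_, ?_⟩, ?_, ?_⟩,
      φ '' Metric.closedBall 0 1, ?_, ?_, ?_, ?_⟩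
    · intro y
      exact itemG3_ext_inv hφ.injective g g.symm (fun u => g.symm_apply_apply u) y
    · intro y
      exact itemG3_ext_inv hφ.injective g.symm g (fun u => g.apply_symm_apply u) y
    · exact itemG3_ext_cont hφ g g.continuous hg
    · exact itemG3_ext_cont hφ g.symm g.symm.continuous hg'
    · exact (isCompact_closedBall (0 : E3) 1).image hφ.continuous
    · exact (image_subset_range _ _).trans hφV
    · intro z hz
      exact itemG3_ext_of_not hφ.injective g hg z hz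
    · change itemG3_ext φ g x = φ v
      rw [← hφ0, itemG3_ext_apply hφ.injective, hg0]
  · rintro x y z - - - ⟨f, C, hC, hCV, hf, hfx⟩ ⟨f', C', hC', hCV', hf', hfx'⟩
    refine ⟨f.trans f', C ∪ C', hC.union hC', union_subset hCV hCV', ?_, ?_⟩
    · intro w hw
      have h3 : w ∉ C := fun h => hw (Or.inl h)
      have h4 : w ∉ C' := fun h => hw (Or.inr h)
      rw [Homeomorph.trans_apply, hf w h3, hf' w h4]
    · rw [Homeomorph.trans_apply, hfx, hfx']
  · rintro x y - - ⟨f, C, hC, hCV, hf, hfx⟩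
    refine ⟨f.symm, C, hC, hCV, ?_, ?_⟩
    · intro w hw
      rw [Homeomorph.symm_apply_eq]
      exact (hf w hw).symm
    · rw [Homeomorph.symm_apply_eq]
      exact hfx.symm

end Pool.Agent.Work.MP_ba58b9_gt

end

section

/-!
# Item G4: thinness is a local property
-/

set_option autoImplicit false

open Set Filter Topology Ordinal

namespace Pool.Agent.Work.MP_ba58b9_gt

theorem itemG4 : SThinLoc := by
  intro X _ A hA hint hloc
  refine ⟨hA, hint, fun V hV hVc => ?_⟩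
  intro u v hu hv huv hun hvn
  by_contra hcon
  rw [Set.not_nonempty_iff_eq_empty] at hcon
  have hside : ∀ b : Set X, b ⊆ V → IsPreconnected (b \ A) → b \ A ⊆ u ∨ b \ A ⊆ v := by
    intro b hb hc
    have h1 : b \ A ⊆ u ∪ v := fun x hx => huv ⟨hb hx.1, hx.2⟩
    by_cases h2 : (b \ A ∩ v).Nonempty
    · by_cases h3 : (b \ A ∩ u).Nonempty
      · obtain ⟨x, hx, hx'⟩ := hc u v hu hv h1 h3 h2
        have : x ∈ V \ A ∩ (u ∩ v) := ⟨⟨hb hx.1, hx.2⟩, hx'⟩
        rw [hcon] at this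
        exact absurd this (notMem_empty x)
      · right
        intro x hx
        rcases h1 hx with h4 | h4
        · exact absurd ⟨x, hx, h4⟩ h3
        · exact h4
    · left
      intro x hx
      rcases h1 hx with h4 | h4
      · exact h4
      · exact absurd ⟨x, hx, h4⟩ h2
  set u' : Set X := ⋃₀ {b | IsOpen b ∧ b ⊆ V ∧ b \ A ⊆ u} with hu'
  set v' : Set X := ⋃₀ {b | IsOpen b ∧ b ⊆ V ∧ b \ A ⊆ v} with hv'
  have hou : IsOpen u' := isOpen_sUnion fun b hb => hb.1
  have hov : IsOpen v' := isOpen_sUnion fun b hb => hb.1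
  have hVA : IsOpen (V \ A) := hV.sdiff hA
  have hmu : V \ A ∩ u ⊆ u' := fun x hx =>
    ⟨V \ A ∩ u, ⟨hVA.inter hu, fun y hy => hy.1.1, fun y hy => hy.1.2⟩, hx⟩
  have hmv : V \ A ∩ v ⊆ v' := fun x hx =>
    ⟨V \ A ∩ v, ⟨hVA.inter hv, fun y hy => hy.1.1, fun y hy => hy.1.2⟩, hx⟩
  have hcov : V ⊆ u' ∪ v' := by
    intro p hp
    by_cases hpA : p ∈ A
    · obtain ⟨b, hb1, hb2, hb3, hb4⟩ := hloc p hpA V hV hp
      rcases hside b hb3 hb4 with h | h
      · exact Or.inl ⟨b, ⟨hb1, hb3, h⟩, hb2⟩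
      · exact Or.inr ⟨b, ⟨hb1, hb3, h⟩, hb2⟩
    · rcases huv ⟨hp, hpA⟩ with h | h
      · exact Or.inl (hmu ⟨⟨hp, hpA⟩, h⟩)
      · exact Or.inr (hmv ⟨⟨hp, hpA⟩, h⟩)
  obtain ⟨x, hx, hxu⟩ := hun
  obtain ⟨y, hy, hyv⟩ := hvn
  obtain ⟨p, -, ⟨b1, ⟨hb11, hb12, hb13⟩, hp1⟩, b2, ⟨hb21, -, hb23⟩, hp2⟩ :=
    hVc u' v' hou hov hcov ⟨x, hx.1, hmu ⟨hx, hxu⟩⟩ ⟨y, hy.1, hmv ⟨hy, hyv⟩⟩
  have h3 : ¬ b1 ∩ b2 ⊆ A := by
    intro h
    have h4 : b1 ∩ b2 ⊆ interior A := interior_maximal h (hb11.inter hb21)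
    rw [hint] at h4
    exact h4 ⟨hp1, hp2⟩
  rw [Set.not_subset] at h3
  obtain ⟨q, ⟨hq1, hq2⟩, hqA⟩ := h3
  have : q ∈ V \ A ∩ (u ∩ v) := ⟨⟨hb12 hq1, hqA⟩, hb13 ⟨hq1, hqA⟩, hb23 ⟨hq2, hqA⟩⟩
  rw [hcon] at this
  exact this

end Pool.Agent.Work.MP_ba58b9_gt

end

section

/-!
# G5: unions of thin sets
-/

set_option autoImplicit false

open Set Filter Topology Ordinal

namespace Pool.Agent.Work.MP_ba58b9_gt

namespace ItemG5

theorem thin_empty {X : Type} [TopologicalSpace X] : Thin (∅ : Set X) :=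
  ⟨isClosed_empty, interior_empty, fun V _ hV => by simpa using hV⟩

theorem thin_union {X : Type} [TopologicalSpace X] {A B : Set X} (hA : Thin A) (hB : Thin B) :
    Thin (A ∪ B) := by
  refine ⟨hA.1.union hB.1, ?_, ?_⟩
  · rw [interior_union_isClosed_of_interior_empty hA.1 hB.2.1, hA.2.1]
  · intro V hV hVc
    rw [← sdiff_sdiff]
    exact hB.2.2 _ (hV.sdiff hA.1) (hA.2.2 V hV hVc)

theorem thin_biUnion {X ι : Type} [TopologicalSpace X] {A : ι → Set X} (hA : ∀ j, Thin (A j))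
    {F : Set ι} (hF : F.Finite) : Thin (⋃ j ∈ F, A j) := by
  induction F, hF using Set.Finite.induction_on with
  | empty => simpa using thin_empty
  | insert _ _ ih =>
    rw [biUnion_insert]
    exact thin_union (hA _) ih

end ItemG5

open ItemG5 in
theorem itemG5 (h1 : SThinLoc) (h2 : SChart) (_h3 : SLoc) : SThinUnion := by
  refine ⟨fun X _ A B hA hB => thin_union hA hB, ?_⟩
  intro X _ hX ι A hA hlf
  -- locally the union is a finite union
  have key : ∀ p : X, ∃ (t : Set X) (F : Set ι), IsOpen t ∧ p ∈ t ∧ F.Finite ∧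
      ∀ b ⊆ t, b ∩ (⋃ j, A j) ⊆ ⋃ j ∈ F, A j := by
    intro p
    obtain ⟨t, ht, hfin⟩ := hlf p
    refine ⟨interior t, _, isOpen_interior, mem_interior_iff_mem_nhds.2 ht, hfin, ?_⟩
    rintro b hb x ⟨hxb, hx⟩
    obtain ⟨j, hj⟩ := mem_iUnion.1 hx
    exact mem_biUnion (show j ∈ {i | (A i ∩ t).Nonempty} from
      ⟨x, hj, interior_subset (hb hxb)⟩) hj
  refine h1 X _ (hlf.isClosed_iUnion fun j => (hA j).1) ?_ ?_
  · rw [eq_empty_iff_forall_notMem]
    intro x hx
    obtain ⟨t, F, ht, hxt, hF, hb⟩ := key x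
    have hthin := thin_biUnion hA hF
    have hsub : interior (⋃ j, A j) ∩ t ⊆ ⋃ j ∈ F, A j := by
      intro y hy
      exact hb (interior (⋃ j, A j) ∩ t) inter_subset_right ⟨hy, interior_subset hy.1⟩
    have hmem : x ∈ interior (⋃ j ∈ F, A j) :=
      interior_maximal hsub (isOpen_interior.inter ht) ⟨hx, hxt⟩
    rw [hthin.2.1] at hmem
    exact hmem
  · intro p _ V hV hpV
    obtain ⟨t, F, ht, hpt, hF, hb⟩ := key p
    have hthin := thin_biUnion hA hF
    obtain ⟨φ, hφ, hφ0, hr⟩ := h2 X hX p (V ∩ t) (hV.inter ht) ⟨hpV, hpt⟩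
    refine ⟨range φ, hφ.isOpen_range, ⟨0, hφ0⟩, hr.trans inter_subset_left, ?_⟩
    have hpre : IsPreconnected (range φ) := isPreconnected_range hφ.continuous
    have heq : range φ \ (⋃ j, A j) = range φ \ ⋃ j ∈ F, A j := by
      ext x
      constructor
      · rintro ⟨hx1, hx2⟩
        refine ⟨hx1, fun hx3 => hx2 ?_⟩
        obtain ⟨j, _, hj⟩ := mem_iUnion₂.1 hx3
        exact mem_iUnion.2 ⟨j, hj⟩
      · rintro ⟨hx1, hx2⟩
        exact ⟨hx1, fun hx3 => hx2 (hb (range φ) (hr.trans inter_subset_right) ⟨hx1, hx3⟩)⟩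
    rw [heq]
    exact hthin.2.2 _ hφ.isOpen_range hpre

end Pool.Agent.Work.MP_ba58b9_gt

end

section

/-!
# G6: segments in charts, and points, are thin
-/

set_option autoImplicit false

open Set Filter Topology Ordinal

namespace Pool.Agent.Work.MP_ba58b9_gt

/-- The plane through three points. -/
noncomputable def G6P (x a b : E3) : AffineSubspace ℝ E3 := affineSpan ℝ ({x, a, b} : Set E3)

theorem G6_span_ne_top (x a b : E3) : G6P x a b ≠ ⊤ := by
  intro h
  have h1 : Module.finrank ℝ (vectorSpan ℝ ({x, a, b} : Set E3)) ≤ 2 :=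
    (coplanar_triple ℝ x a b).finrank_le_two
  rw [← direction_affineSpan, show affineSpan ℝ ({x, a, b} : Set E3) = ⊤ from h,
    AffineSubspace.direction_top, finrank_top] at h1
  simp at h1

theorem G6_null (x a b : E3) : MeasureTheory.volume (G6P x a b : Set E3) = 0 :=
  MeasureTheory.Measure.addHaar_affineSubspace _ _ (G6_span_ne_top x a b)

theorem G6_mem1 (x a b : E3) : x ∈ G6P x a b := subset_affineSpan _ _ (by simp)
theorem G6_mem2 (x a b : E3) : a ∈ G6P x a b := subset_affineSpan _ _ (by simp)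
theorem G6_mem3 (x a b : E3) : b ∈ G6P x a b := subset_affineSpan _ _ (by simp)

theorem G6_seg_sub (x a b : E3) : segment ℝ a b ⊆ (G6P x a b : Set E3) :=
  (G6P x a b).convex.segment_subset (G6_mem2 x a b) (G6_mem3 x a b)

/-- The segment from a point of the plane to a point outside it meets the plane in one point. -/
theorem G6_seg (x a b z w : E3) (hz : z ∉ G6P x a b) (hw : w ∈ segment ℝ x z)
    (hw' : w ∈ segment ℝ a b) : w = x := by
  rw [segment_eq_image_lineMap] at hw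
  obtain ⟨t, -, rfl⟩ := hw
  by_cases ht : t = 0
  · simp [ht]
  · exfalso
    apply hz
    have h1 := AffineMap.lineMap_mem (Q := G6P x a b) t⁻¹ (G6_mem1 x a b) (G6_seg_sub x a b hw')
    rwa [AffineMap.lineMap_lineMap_right, inv_mul_cancel₀ ht, AffineMap.lineMap_apply_one] at h1

theorem G6_open_null (U : Set E3) (hU : IsOpen U) (hne : U.Nonempty) (x a b y c d : E3) :
    ∃ z ∈ U, z ∉ G6P x a b ∧ z ∉ G6P y c d := by
  by_contra h
  push Not at h
  have h1 : U ⊆ (G6P x a b : Set E3) ∪ (G6P y c d : Set E3) := by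
    intro z hz
    by_cases h2 : z ∈ G6P x a b
    · exact Or.inl h2
    · exact Or.inr (h z hz h2)
  have h2 := hU.measure_pos MeasureTheory.volume hne
  have h3 : MeasureTheory.volume U = 0 :=
    MeasureTheory.measure_mono_null h1
      (MeasureTheory.measure_union_null (G6_null x a b) (G6_null y c d))
  exact h2.ne' h3

theorem G6_ball (q : E3) (r : ℝ) (a b : E3) :
    IsPreconnected (Metric.ball q r \ segment ℝ a b) := by
  apply isPreconnected_of_forall_pair
  intro x hx y hy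
  obtain ⟨z, hz, hz1, hz2⟩ := G6_open_null (Metric.ball q r) Metric.isOpen_ball ⟨x, hx.1⟩ x a b y a b
  refine ⟨segment ℝ x z ∪ segment ℝ y z, ?_, Or.inl (left_mem_segment ℝ x z),
    Or.inr (left_mem_segment ℝ y z), ?_⟩
  · rintro w (hw | hw)
    · refine ⟨(convex_ball q r).segment_subset hx.1 hz hw, fun hw' => ?_⟩
      have := G6_seg x a b z w hz1 hw hw'
      exact hx.2 (this ▸ hw')
    · refine ⟨(convex_ball q r).segment_subset hy.1 hz hw, fun hw' => ?_⟩
      have := G6_seg y a b z w hz2 hw hw'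
      exact hy.2 (this ▸ hw')
  · exact IsPreconnected.union z (right_mem_segment ℝ x z) (right_mem_segment ℝ y z)
      (convex_segment x z).isPreconnected (convex_segment y z).isPreconnected

theorem G6_compact (a b : E3) : IsCompact (segment ℝ a b) := by
  rw [segment_eq_image_lineMap]
  exact isCompact_Icc.image AffineMap.lineMap_continuous

theorem G6_main (h1 : SThinLoc) (X : Type) [TopologicalSpace X] [T2Space X] (φ : E3 → X)
    (hφ : IsOpenEmbedding φ) (a b : E3) : Thin (φ '' segment ℝ a b) := by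
  apply h1
  · exact ((G6_compact a b).image hφ.continuous).isClosed
  · rw [← Set.not_nonempty_iff_eq_empty]
    rintro ⟨p, hp⟩
    obtain ⟨q, hq, rfl⟩ := interior_subset hp
    obtain ⟨z, hz, hz1, -⟩ := G6_open_null (φ ⁻¹' interior (φ '' segment ℝ a b))
      (isOpen_interior.preimage hφ.continuous) ⟨q, hp⟩ a a b a a b
    obtain ⟨w, hw, hwz⟩ := interior_subset hz
    rw [hφ.injective hwz] at hw
    exact hz1 (G6_seg_sub a a b hw)
  · rintro p ⟨q, hq, rfl⟩ V hV hpV
    obtain ⟨r, hr, hrV⟩ := Metric.isOpen_iff.1 (hV.preimage hφ.continuous) q hpV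
    refine ⟨φ '' Metric.ball q r, hφ.isOpenMap _ Metric.isOpen_ball,
      mem_image_of_mem _ (Metric.mem_ball_self hr), ?_, ?_⟩
    · rintro _ ⟨z, hz, rfl⟩
      exact hrV hz
    · rw [← image_sdiff hφ.injective]
      exact (G6_ball q r a b).image _ hφ.continuous.continuousOn

theorem itemG6 (h1 : SThinLoc) (h2 : SChart) : SThinSeg := by
  refine ⟨fun X _ _ φ hφ a b => G6_main h1 X φ hφ a b, fun X _ _ hX x => ?_⟩
  obtain ⟨φ, hφ, h0, -⟩ := h2 X hX x Set.univ isOpen_univ (mem_univ x)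
  have := G6_main h1 X φ hφ 0 0
  rwa [segment_same, image_singleton, h0] at this

end Pool.Agent.Work.MP_ba58b9_gt

end

section

/-!
# Item G7: thin compact connected sets join the points of a connected open set
-/

set_option autoImplicit false

open Set Filter Topology Ordinal

namespace Pool.Agent.Work.MP_ba58b9_gt

/-- Thin compact connected subsets of `V` join `x` and `y`. -/
def G7Joined {X : Type} [TopologicalSpace X] (V : Set X) (x y : X) : Prop :=
  ∃ L : Set X, Thin L ∧ IsCompact L ∧ IsPreconnected L ∧ L ⊆ V ∧ x ∈ L ∧ y ∈ L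

theorem g7_symm {X : Type} [TopologicalSpace X] {V : Set X} {x y : X}
    (h : G7Joined V x y) : G7Joined V y x := by
  obtain ⟨L, h1, h2, h3, h4, h5, h6⟩ := h
  exact ⟨L, h1, h2, h3, h4, h6, h5⟩

theorem g7_trans (h3 : SThinUnion) {X : Type} [TopologicalSpace X] {V : Set X} {x y z : X}
    (h : G7Joined V x y) (h' : G7Joined V y z) : G7Joined V x z := by
  obtain ⟨L, a1, a2, a3, a4, a5, a6⟩ := h
  obtain ⟨M, b1, b2, b3, b4, b5, b6⟩ := h'
  exact ⟨L ∪ M, h3.1 X L M a1 b1, a2.union b2, a3.union y a6 b5 b3,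
    union_subset a4 b4, Or.inl a5, Or.inr b6⟩

theorem itemG7 (h1 : SChart) (h2 : SThinSeg) (h3 : SThinUnion) : SJoin := by
  intro X _ _ hE V hV hpre x hx y hy
  -- every point of `V` has a neighbourhood in `V` all of whose points are joined to it
  have key : ∀ p ∈ V, ∃ O : Set X, IsOpen O ∧ p ∈ O ∧ O ⊆ V ∧ ∀ q ∈ O, G7Joined V p q := by
    intro p hp
    obtain ⟨φ, hφ, h0, hr⟩ := h1 X hE p V hV hp
    refine ⟨range φ, hφ.isOpen_range, ⟨0, h0⟩, hr, ?_⟩
    rintro q ⟨v, rfl⟩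
    refine ⟨φ '' segment ℝ 0 v, h2.1 X φ hφ 0 v, ?_, ?_, ?_, ?_, ?_⟩
    · have hc : IsCompact (segment ℝ (0 : E3) v) := by
        rw [segment_eq_image_lineMap]
        exact isCompact_Icc.image (by fun_prop)
      exact hc.image hφ.continuous
    · exact ((convex_segment (𝕜 := ℝ) (0 : E3) v).isPreconnected).image φ hφ.continuous.continuousOn
    · exact (image_subset_range φ _).trans hr
    · exact ⟨0, left_mem_segment ℝ 0 v, h0⟩
    · exact ⟨v, right_mem_segment ℝ 0 v, rfl⟩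
  let A : Set X := {q | q ∈ V ∧ G7Joined V x q}
  let B : Set X := {q | q ∈ V ∧ ¬ G7Joined V x q}
  have hA : IsOpen A := by
    rw [isOpen_iff_mem_nhds]
    rintro q ⟨hqV, hq⟩
    obtain ⟨O, hO, hqO, hOV, hj⟩ := key q hqV
    exact mem_of_superset (hO.mem_nhds hqO) fun r hr => ⟨hOV hr, g7_trans h3 hq (hj r hr)⟩
  have hB : IsOpen B := by
    rw [isOpen_iff_mem_nhds]
    rintro q ⟨hqV, hq⟩
    obtain ⟨O, hO, hqO, hOV, hj⟩ := key q hqV
    exact mem_of_superset (hO.mem_nhds hqO) fun r hr =>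
      ⟨hOV hr, fun hc => hq (g7_trans h3 hc (g7_symm (hj r hr)))⟩
  have hxx : G7Joined V x x :=
    ⟨{x}, h2.2 X hE x, isCompact_singleton, isPreconnected_singleton,
      singleton_subset_iff.2 hx, rfl, rfl⟩
  by_contra hno
  have hyB : y ∈ B := ⟨hy, hno⟩
  have hxA : x ∈ A := ⟨hx, hxx⟩
  obtain ⟨z, -, hzA, hzB⟩ := hpre A B hA hB
    (fun q hq => by
      by_cases hj : G7Joined V x q
      · exact Or.inl ⟨hq, hj⟩
      · exact Or.inr ⟨hq, hj⟩) ⟨x, hx, hxA⟩ ⟨y, hy, hyB⟩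
  exact hzB.2 hzA.2

end Pool.Agent.Work.MP_ba58b9_gt

end

section

/-!
# G8: limits of infinite compositions of homeomorphisms going to infinity
-/

set_option autoImplicit false

open Set Filter Topology Ordinal

namespace Pool.Agent.Work.MP_ba58b9_gt

theorem itemG8 (h1 : SLoc) : SLim := by
  intro X _ _ _ hL W hWo hWa hWe f C F hCc hCW hf hF0 hFs
  have : LocallyCompactSpace X := (h1 X hL).1
  have hx : ∀ x, ∃ n, x ∉ W n := fun x => by
    obtain ⟨n, hn⟩ := hWe {x} isCompact_singleton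
    exact ⟨n, disjoint_singleton_left.1 hn⟩
  -- points off the supports are not moved
  have hfix : ∀ n x, (∀ m < n, x ∉ C m) → F n x = x := by
    intro n
    induction n with
    | zero => intro x _; exact hF0 x
    | succ n ih =>
      intro x hxn
      rw [hFs, ih x fun m hm => hxn m (by omega), hf n x (hxn n (by omega))]
  have hsymm : ∀ n x, (∀ m < n, x ∉ C m) → (F n).symm x = x := fun n x hxn => by
    rw [Homeomorph.symm_apply_eq, hfix n x hxn]
  have hs : ∀ n m, n ≤ m → ∀ x, x ∉ W n → (F m).symm x = (F n).symm x := by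
    intro n m hnm
    induction m, hnm using Nat.le_induction with
    | base => intro x _; rfl
    | succ m hnm ih =>
      intro x hxn
      rw [← ih x hxn, Homeomorph.symm_apply_eq, hFs, Homeomorph.apply_symm_apply, hf m]
      exact fun hxC => hxn (hWa hnm (hCW m hxC))
  choose N hN using hx
  let ι : X → X := fun x => (F (N x)).symm x
  have hι : ∀ n x, x ∉ W n → ι x = (F n).symm x := by
    intro n x hxn
    show (F (N x)).symm x = _
    rw [← hs n (max n (N x)) (le_max_left _ _) x hxn,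
      ← hs (N x) (max n (N x)) (le_max_right _ _) x (hN x)]
  have hloc : ∀ y, ∃ n, ∀ᶠ x in 𝓝 y, x ∉ W n := by
    intro y
    obtain ⟨K, hK, hKy⟩ := exists_compact_mem_nhds y
    obtain ⟨n, hn⟩ := hWe K hK
    exact ⟨n, Filter.mem_of_superset hKy fun x hxK => disjoint_left.1 hn hxK⟩
  have hev : ∀ y, ∃ n, ι =ᶠ[𝓝 y] (F n).symm := by
    intro y
    obtain ⟨n, hn⟩ := hloc y
    exact ⟨n, hn.mono fun x hxn => hι n x hxn⟩
  have hfix' : ∀ x, x ∉ ⋃ n, C n → ι x = x := by
    intro x hxC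
    exact hsymm _ _ fun m _ hm => hxC (mem_iUnion.2 ⟨m, hm⟩)
  refine ⟨ι, ?_, hι, ?_, ?_, hfix', ?_, ?_, ?_⟩
  · apply IsOpenEmbedding.of_continuous_injective_isOpenMap
    · rw [continuous_iff_continuousAt]
      intro y
      obtain ⟨n, hn⟩ := hev y
      exact ((F n).symm.continuous.continuousAt).congr hn.symm
    · intro x y hxy
      have hx1 : x ∉ W (max (N x) (N y)) := fun h => hN x (hWa (le_max_left _ _) h)
      have hy1 : y ∉ W (max (N x) (N y)) := fun h => hN y (hWa (le_max_right _ _) h)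
      rw [hι _ x hx1, hι _ y hy1] at hxy
      exact (F _).symm.injective hxy
    · rw [isOpenMap_iff_nhds_le]
      intro y
      obtain ⟨n, hn⟩ := hev y
      rw [Filter.map_congr hn, hn.eq_of_nhds, (F n).symm.map_nhds_eq]
  · intro p
    constructor
    · intro hp n
      by_contra hn
      exact hp ⟨F n p, by rw [hι n _ hn, Homeomorph.symm_apply_apply]⟩
    · rintro hp ⟨y, rfl⟩
      apply hN y
      have := hp (N y)
      rwa [hι (N y) y (hN y), Homeomorph.apply_symm_apply] at this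
  · apply LocallyFinite.isClosed_iUnion _ fun n => (hCc n).isClosed
    intro y
    obtain ⟨n, hn⟩ := hloc y
    refine ⟨_, hn, (Set.finite_lt_nat n).subset ?_⟩
    rintro m ⟨x, hxC, hxW⟩
    by_contra hnm
    exact hxW (hWa (not_lt.1 hnm) (hCW m hxC))
  · intro x hxC
    by_contra hιx
    have h2 : F (N x) (ι x) = ι x := hfix _ _ fun m _ hm => hιx (mem_iUnion.2 ⟨m, hm⟩)
    have h3 : F (N x) (ι x) = x := (F (N x)).apply_symm_apply x
    rw [h3] at h2
    exact hιx (h2 ▸ hxC)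
  · intro p hp
    by_contra hpC
    exact hp ⟨p, hfix' p hpC⟩
  · intro n
    refine ⟨⋃ m ∈ Iio n, C m, (Set.finite_Iio n).isCompact_biUnion fun m _ => hCc m, ?_⟩
    intro x hxK
    apply hsymm
    intro m hm hxC
    exact hxK (mem_biUnion (show m ∈ Iio n from hm) hxC)

end Pool.Agent.Work.MP_ba58b9_gt

end

section

/-!
# G9: the recursion producing the pushes
-/

set_option autoImplicit false

open Set Filter Topology Ordinal

namespace Pool.Agent.Work.MP_ba58b9_gt

namespace ItemG9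

variable {X : Type} [TopologicalSpace X]

/-- `f` is supported in the compact set `C ⊆ V`. -/
structure Sup (V : Set X) (f : X ≃ₜ X) (C : Set X) : Prop where
  cpt : IsCompact C
  sub : C ⊆ V
  fix : ∀ x, x ∉ C → f x = x

lemma Sup.fix' {V : Set X} {f : X ≃ₜ X} {C : Set X} (h : Sup V f C) {x : X} (hx : x ∉ V) :
    f x = x := h.fix x (fun h' => hx (h.sub h'))

lemma Sup.mem {V : Set X} {f : X ≃ₜ X} {C : Set X} (h : Sup V f C) {x : X} (hx : x ∈ V) :
    f x ∈ V := by
  by_contra hn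
  have h1 := h.fix' hn
  have h2 := f.injective h1
  rw [h2] at hn
  exact hn hx

lemma Sup.mono {V V' : Set X} {f : X ≃ₜ X} {C : Set X} (h : Sup V f C) (hV : V ⊆ V') :
    Sup V' f C := ⟨h.cpt, h.sub.trans hV, h.fix⟩

lemma Sup.trans {V : Set X} {f g : X ≃ₜ X} {C D : Set X} (hg : Sup V g D) (hf : Sup V f C) :
    Sup V (g.trans f) (D ∪ C) := by
  refine ⟨hg.cpt.union hf.cpt, union_subset hg.sub hf.sub, ?_⟩
  intro x hx
  rw [mem_union, not_or] at hx
  show f (g x) = x
  rw [hg.fix x hx.1, hf.fix x hx.2]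

lemma image_trans (g h : X ≃ₜ X) (s : Set X) : (g.trans h) '' s = h '' (g '' s) := by
  rw [← image_comp]
  rfl

/-- Points of an open set which avoid a finite set. -/
lemma avoid (h2 : SLoc) (hX : LocE X) {V : Set X} (hV : IsOpen V) (hne : V.Nonempty) {Φ : Set X}
    (hΦ : Φ.Finite) : (V \ Φ).Nonempty := by
  have h := (h2 X hX).2.2.1 V hV hne
  exact (h.sdiff hΦ).nonempty

/-- Points of `P i` in `W n` which avoid a finite set. -/
lemma avoidP {W : ℕ → Set X} (hWa : Antitone W)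
    (hWe : ∀ C : Set X, IsCompact C → ∃ n, Disjoint C (W n)) {P : Set X}
    (hP : ∀ n, (P ∩ W n).Nonempty) (n : ℕ) {Φ : Set X} (hΦ : Φ.Finite) :
    ∃ t ∈ P, t ∈ W n \ Φ := by
  obtain ⟨m, hm⟩ := hWe Φ hΦ.isCompact
  obtain ⟨t, ht, ht'⟩ := hP (max m n)
  refine ⟨t, ht, hWa (le_max_right m n) ht', ?_⟩
  intro h
  exact Set.disjoint_left.mp hm h (hWa (le_max_left m n) ht')

lemma inner_step (h1 : SMove) (h2 : SLoc) [T2Space X] (hX : LocE X) {W : ℕ → Set X}
    (hWo : ∀ n, IsOpen (W n)) (hWa : Antitone W)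
    (hWe : ∀ C : Set X, IsCompact C → ∃ n, Disjoint C (W n))
    (hWc : ∀ n, ∀ F : Set X, F.Finite → IsPreconnected (W n \ F)) {P b : ℕ → Set X}
    (hP : ∀ i n, (P i ∩ W n).Nonempty) (hb : ∀ k, IsOpen (b k)) (n : ℕ) (g : X ≃ₜ X)
    (Φ : Set X) (hΦ : Φ.Finite) (q : X) (hq : q ∈ W n \ Φ) (l : List (ℕ × ℕ)) :
    ∃ (h : X ≃ₜ X) (C Φ' : Set X), Sup (W n \ Φ) h C ∧ h q = q ∧ Φ'.Finite ∧ Φ ⊆ Φ' ∧
      q ∉ Φ' ∧ ∀ e ∈ l, (g '' b e.1 ∩ W n).Nonempty →
        ∃ t ∈ P e.2, t ∈ (g.trans h) '' b e.1 ∧ t ∈ Φ' := by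
  induction l with
  | nil =>
    refine ⟨Homeomorph.refl X, ∅, Φ, ⟨isCompact_empty, empty_subset _, fun _ _ => rfl⟩, rfl, hΦ,
      Subset.rfl, hq.2, ?_⟩
    intro e he
    simp at he
  | cons e l ih =>
    obtain ⟨h, C, Φ', hs, hqq, hf, hsub, hq', hl⟩ := ih
    by_cases hne : (g '' b e.1 ∩ W n).Nonempty
    · -- the set is still non-empty after `h`
      have hne' : ((g.trans h) '' b e.1 ∩ W n).Nonempty := by
        obtain ⟨x, hx, hxW⟩ := hne
        refine ⟨h x, ?_, ?_⟩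
        · rw [image_trans]
          exact mem_image_of_mem h hx
        · exact (hs.mono sdiff_subset).mem hxW
      have hfin : (Φ' ∪ {q}).Finite := hf.union (finite_singleton q)
      have hopen : IsOpen ((g.trans h) '' b e.1 ∩ W n) :=
        ((g.trans h).isOpenMap _ (hb e.1)).inter (hWo n)
      obtain ⟨y, hy, hyΦ⟩ := avoid h2 hX hopen hne' hfin
      obtain ⟨t, htP, htW, htΦ⟩ := avoidP hWa hWe (hP e.2) n hfin
      have hVo : IsOpen (W n \ (Φ' ∪ {q})) := (hWo n).sdiff hfin.isClosed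
      obtain ⟨h', C', hC', hC'V, hfix', hmove⟩ := h1 X hX (W n \ (Φ' ∪ {q})) hVo
        (hWc n _ hfin) y ⟨hy.2, hyΦ⟩ t ⟨htW, htΦ⟩
      have hs' : Sup (W n \ (Φ' ∪ {q})) h' C' := ⟨hC', hC'V, hfix'⟩
      have hsub' : W n \ (Φ' ∪ {q}) ⊆ W n \ Φ :=
        sdiff_subset_sdiff_right (hsub.trans subset_union_left)
      refine ⟨h.trans h', C ∪ C', Φ' ∪ {t}, hs.trans (hs'.mono hsub'), ?_,
        hf.union (finite_singleton t), hsub.trans subset_union_left, ?_, ?_⟩
      · show h' (h q) = q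
        rw [hqq]
        exact hs'.fix' (fun hh => hh.2 (Or.inr rfl))
      · rintro (hh | hh)
        · exact hq' hh
        · exact htΦ (Or.inr (by rw [← hh]; rfl))
      · intro e' he' hne''
        rcases List.mem_cons.mp he' with rfl | he'
        · refine ⟨t, htP, ?_, Or.inr rfl⟩
          obtain ⟨z, hz, hzy⟩ := hy.1
          refine ⟨z, hz, ?_⟩
          show h' (h (g z)) = t
          have : h (g z) = y := hzy
          rw [this, hmove]
        · obtain ⟨t', ht'P, ⟨z, hz, hzt⟩, ht'Φ⟩ := hl e' he' hne''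
          refine ⟨t', ht'P, ⟨z, hz, ?_⟩, Or.inl ht'Φ⟩
          show h' (h (g z)) = t'
          have : h (g z) = t' := hzt
          rw [this]
          exact hs'.fix' (fun hh => hh.2 (Or.inl ht'Φ))
    · refine ⟨h, C, Φ', hs, hqq, hf, hsub, hq', ?_⟩
      intro e' he' hne''
      rcases List.mem_cons.mp he' with rfl | he'
      · exact absurd hne'' hne
      · exact hl e' he' hne''

lemma step (h1 : SMove) (h2 : SLoc) [T2Space X] (hX : LocE X) {W : ℕ → Set X}
    (hWo : ∀ n, IsOpen (W n)) (hWa : Antitone W)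
    (hWe : ∀ C : Set X, IsCompact C → ∃ n, Disjoint C (W n))
    (hWc : ∀ n, ∀ F : Set X, F.Finite → IsPreconnected (W n \ F)) {P b : ℕ → Set X}
    (hP : ∀ i n, (P i ∩ W n).Nonempty) (hb : ∀ k, IsOpen (b k)) (p : X) (n : ℕ) (g : X ≃ₜ X)
    (Φ : Set X) (hΦ : Φ.Finite) (hq : g p ∈ W n \ Φ) :
    ∃ (f : X ≃ₜ X) (C Φ' : Set X), Sup (W n \ Φ) f C ∧ Φ'.Finite ∧ Φ ⊆ Φ' ∧
      f (g p) ∈ W (n + 1) \ Φ' ∧ ∀ k i, k ≤ n → i ≤ n → (g '' b k ∩ W n).Nonempty →
        ∃ t ∈ P i, t ∈ (g.trans f) '' b k ∧ t ∈ Φ' := by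
  obtain ⟨h, C, Φ', hs, hqq, hf, hsub, hq', hl⟩ := inner_step h1 h2 hX hWo hWa hWe hWc hP hb n g Φ
    hΦ (g p) hq (List.product (List.range (n + 1)) (List.range (n + 1)))
  obtain ⟨t, -, htW, htΦ⟩ := avoidP hWa hWe (hP 0) (n + 1) hf
  obtain ⟨h', C', hC', hC'V, hfix', hmove⟩ := h1 X hX (W n \ Φ') ((hWo n).sdiff hf.isClosed)
    (hWc n _ hf) (g p) ⟨hq.1, hq'⟩ t ⟨hWa (Nat.le_succ n) htW, htΦ⟩
  have hs' : Sup (W n \ Φ') h' C' := ⟨hC', hC'V, hfix'⟩
  refine ⟨h.trans h', C ∪ C', Φ', hs.trans (hs'.mono (sdiff_subset_sdiff_right hsub)), hf, hsub, ?_,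
    ?_⟩
  · show h' (h (g p)) ∈ _
    rw [hqq, hmove]
    exact ⟨htW, htΦ⟩
  · intro k i hk hi hne
    obtain ⟨t', ht'P, ⟨z, hz, hzt⟩, ht'Φ⟩ := hl (k, i) (by
      rw [List.pair_mem_product, List.mem_range, List.mem_range]
      exact ⟨by omega, by omega⟩) hne
    refine ⟨t', ht'P, ⟨z, hz, ?_⟩, ht'Φ⟩
    show h' (h (g z)) = t'
    have : h (g z) = t' := hzt
    rw [this]
    exact hs'.fix' (fun hh => hh.2 ht'Φ)

end ItemG9

open ItemG9 in
theorem itemG9 (h1 : SMove) (h2 : SLoc) : SRecPush := by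
  intro X _ _ _ hX W hWo hWa hWe hWc P b hP hb
  obtain ⟨p, -, hp⟩ := hP 0 0
  -- the states
  have key : ∀ (n : ℕ) (s : {s : (X ≃ₜ X) × Set X // s.2.Finite ∧ s.1 p ∈ W n \ s.2}),
      ∃ (s' : {s : (X ≃ₜ X) × Set X // s.2.Finite ∧ s.1 p ∈ W (n + 1) \ s.2}) (f : X ≃ₜ X)
        (C : Set X), Sup (W n \ s.1.2) f C ∧ s.1.2 ⊆ s'.1.2 ∧ (∀ x, s'.1.1 x = f (s.1.1 x)) ∧
        ∀ k i, k ≤ n → i ≤ n → (s.1.1 '' b k ∩ W n).Nonempty →
          ∃ t ∈ P i, t ∈ s'.1.1 '' b k ∧ t ∈ s'.1.2 := by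
    rintro n ⟨⟨g, Φ⟩, hΦ, hq⟩
    obtain ⟨f, C, Φ', hs, hf, hsub, hq', hl⟩ :=
      step h1 h2 hX hWo hWa hWe hWc hP hb p n g Φ hΦ hq
    exact ⟨⟨(g.trans f, Φ'), hf, hq'⟩, f, C, hs, hsub, fun _ => rfl, hl⟩
  choose nx ff CC k1 k2 k3 k4 using key
  let seq : (n : ℕ) → {s : (X ≃ₜ X) × Set X // s.2.Finite ∧ s.1 p ∈ W n \ s.2} := fun n =>
    Nat.rec (motive := fun n => {s : (X ≃ₜ X) × Set X // s.2.Finite ∧ s.1 p ∈ W n \ s.2})
      ⟨(Homeomorph.refl X, ∅), finite_empty, hp, notMem_empty _⟩ (fun n s => nx n s) n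
  have hseq : ∀ n, seq (n + 1) = nx n (seq n) := fun n => rfl
  have hmono : Monotone fun n => (seq n).1.2 := by
    apply monotone_nat_of_le_succ
    intro n
    rw [hseq]
    exact k2 n (seq n)
  refine ⟨fun n => ff n (seq n), fun n => CC n (seq n), fun n => (seq n).1.1, p, ?_, ?_, ?_, ?_,
    ?_, ?_, ?_⟩
  · exact fun n => (k1 n (seq n)).cpt
  · exact fun n => (k1 n (seq n)).sub.trans sdiff_subset
  · exact fun n => (k1 n (seq n)).fix
  · exact fun x => rfl
  · intro n x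
    show (seq (n + 1)).1.1 x = _
    rw [hseq]
    exact k3 n (seq n) x
  · exact fun n => (seq n).2.2.1
  · intro n k i hk hi hne
    obtain ⟨t, ht1, ht2, ht3⟩ := k4 n (seq n) k i hk hi hne
    refine ⟨t, ht1, ?_, ?_⟩
    · show t ∈ (seq (n + 1)).1.1 '' b k
      rw [hseq]
      exact ht2
    · intro m hm
      apply (k1 m (seq m)).fix'
      intro h
      apply h.2
      apply hmono (Nat.succ_le_of_lt hm)
      show t ∈ (seq (n + 1)).1.2
      rw [hseq]
      exact ht3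

end Pool.Agent.Work.MP_ba58b9_gt

end

section

/-!
# H1: one step on both sides
-/

set_option autoImplicit false

open Set Filter Topology Ordinal

namespace Pool.Agent.Work.MP_ba58b9_gt

namespace H1

variable {X : Type} [TopologicalSpace X]

/-- a subset of `s.A` which is not relatively compact meets all the sets of the end -/
lemma meets_of_not_rc {s : St X} (hs : s.Valid) {T : Set X} (hT : T ⊆ s.A)
    (h : ¬ RC Set.univ T) (n : ℕ) : (T ∩ s.U n).Nonempty := by
  by_contra hn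
  apply h
  refine ⟨s.A \ s.U n, hs.endA.cpt n, Set.subset_univ _, ?_⟩
  intro x hx
  exact ⟨hT hx, fun hxU => hn ⟨x, hx, hxU⟩⟩

/-- a set meeting all the sets of the end is not relatively compact -/
lemma not_rc_of_meets {s : St X} (hs : s.Valid) {T : Set X}
    (h : ∀ n, (T ∩ s.U n).Nonempty) : ¬ RC Set.univ T := by
  rintro ⟨C, hC, -, hTC⟩
  obtain ⟨n, hn⟩ := hs.endA.esc C hC
  obtain ⟨x, hx, hxU⟩ := h n
  exact Set.disjoint_left.mp hn (hTC hx) hxU

/-- relative compactness is reflected by `ι` for subsets of `s.A`, if the new points belong to the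
other side -/
lemma rc_of_rc_image {Y : Type} [TopologicalSpace Y] {s : St X} {t : St Y} {ι : X → Y}
    (ht : t.Valid) (h : ATrans s t ι) (hn : (range ι)ᶜ ⊆ t.B) {T : Set X} (hT : T ⊆ s.A)
    (hr : RC Set.univ (ι '' T)) : RC Set.univ T := by
  obtain ⟨C, hC, -, hTC⟩ := hr
  have hC' : IsCompact (C ∩ t.A) := hC.inter_right ht.clA
  have hsub : C ∩ t.A ⊆ range ι := by
    intro y hy
    by_contra hy'
    exact Set.disjoint_left.mp ht.dAB hy.2 (hn hy')
  have hK : IsCompact (ι ⁻¹' (C ∩ t.A)) := (h.emb.isInducing.isCompact_preimage_iff hsub).mpr hC'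
  refine ⟨_, hK, Set.subset_univ _, ?_⟩
  intro x hx
  refine ⟨hTC ⟨x, hx, rfl⟩, ?_⟩
  have : x ∈ ι ⁻¹' t.A := by rw [h.eA]; exact hT hx
  exact this

end H1

open H1 in
theorem itemH1 (h1 : SKStep) (h2 : SATrans) : SStep := by
  intro X _ _ _ hX s hs 𝒯 h𝒯
  obtain ⟨f, hf⟩ := Set.countable_iff_exists_subset_range.mp h𝒯
  obtain ⟨s1, ι1, hv1, ha1, hne1, hnew1, hc1⟩ := h1 X hX s hs f
  obtain ⟨s2, ι2, hv2, ha2, hne2, hnew2, hc2⟩ := h1 X hX s1.swap (h2.2.2 X s1 hv1)
    (fun i => ι1 '' f i)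
  have ha2' : ATrans s1 s2.swap ι2 := h2.2.1 X X s1.swap s2 ι2 ha2
  have hvt : s2.swap.Valid := h2.2.2 X s2 hv2
  have ha : ATrans s s2.swap (ι2 ∘ ι1) := h2.1 X X X s s1 s2.swap ι1 ι2 ha1 ha2'
  have hrange : range (ι2 ∘ ι1) ⊆ range ι2 := range_comp_subset_range ι1 ι2
  have hinj2 : Function.Injective ι2 := ha2.emb.injective
  -- new points of the first side
  have hA : ∀ q ∈ s2.swap.A \ range (ι2 ∘ ι1), ∃ q', ι2 q' = q ∧ q' ∈ (range ι1)ᶜ := by
    rintro q ⟨hqA, hq⟩
    have hq2 : q ∈ range ι2 := by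
      by_contra hq2
      exact Set.disjoint_left.mp hvt.dAB hqA (hnew2 hq2)
    obtain ⟨q', rfl⟩ := hq2
    refine ⟨q', rfl, ?_⟩
    rintro ⟨x, rfl⟩
    exact hq ⟨x, rfl⟩
  have hB : ∀ q ∈ s2.swap.B \ range (ι2 ∘ ι1), q ∈ (range ι2)ᶜ := by
    rintro q ⟨hqB, hq⟩ ⟨q', rfl⟩
    have h3 : q' ∈ s1.B := by
      have : q' ∈ ι2 ⁻¹' s2.swap.B := hqB
      rwa [ha2'.eB] at this
    have h4 : q' ∈ (range ι1)ᶜ := by
      rintro ⟨x, rfl⟩
      exact hq ⟨x, rfl⟩
    exact Set.disjoint_left.mp hv1.dAB (hnew1 h4) h3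
  refine ⟨s2.swap, ι2 ∘ ι1, hvt, ha, ?_, ?_, ?_⟩
  · obtain ⟨z, hz⟩ := hne1
    refine ⟨ι2 z, ?_, ?_⟩
    · have : z ∈ ι2 ⁻¹' s2.swap.A := by rw [ha2'.eA]; exact hnew1 hz
      exact this
    · rintro ⟨x, hx⟩
      exact hz ⟨x, hinj2 hx⟩
  · obtain ⟨z, hz⟩ := hne2
    exact ⟨z, hnew2 hz, fun h => hz (hrange h)⟩
  intro T hT
  obtain ⟨i, rfl⟩ := hf hT
  refine ⟨?_, ?_, ?_, ?_⟩
  · by_cases hm : ∀ n, (f i ∩ s.U n).Nonempty
    · left
      intro q hq
      obtain ⟨q', rfl, hq'⟩ := hA q hq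
      have h3 := (hc1 i hm).1 hq'
      rw [image_comp]
      exact (image_closure_subset_closure_image ha2.emb.continuous) ⟨q', h3, rfl⟩
    · right
      push Not at hm
      obtain ⟨n, hn⟩ := hm
      obtain ⟨m, hm⟩ := ha.refU n
      refine ⟨m, ?_⟩
      rw [Set.disjoint_left]
      rintro _ ⟨x, hx, rfl⟩ hxU
      have h3 : x ∈ s.U n := hm hxU
      have h4 : x ∈ f i ∩ s.U n := ⟨hx, h3⟩
      rw [hn] at h4
      exact h4
  · by_cases hm : ∀ n, (ι1 '' f i ∩ s1.swap.U n).Nonempty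
    · left
      intro q hq
      have h3 := (hc2 i hm).1 (hB q hq)
      rw [image_comp]
      exact h3
    · right
      push Not at hm
      obtain ⟨n, hn⟩ := hm
      obtain ⟨m, hm⟩ := ha2'.refV n
      refine ⟨m, ?_⟩
      rw [Set.disjoint_left]
      rintro _ ⟨x, hx, rfl⟩ hxU
      have h3 : ι1 x ∈ s1.V n := hm hxU
      have h4 : ι1 x ∈ ι1 '' f i ∩ s1.swap.U n := ⟨⟨x, hx, rfl⟩, h3⟩
      rw [hn] at h4
      exact h4
  · intro hTA hnr hr
    have h3 := meets_of_not_rc hs hTA hnr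
    have h4 := (hc1 i h3).2
    have h5 : ι1 '' f i ⊆ s1.A := by
      rintro _ ⟨x, hx, rfl⟩
      have : x ∈ ι1 ⁻¹' s1.A := by rw [ha1.eA]; exact hTA hx
      exact this
    rw [image_comp] at hr
    exact not_rc_of_meets hv1 h4 (rc_of_rc_image hvt ha2' hnew2 h5 hr)
  · intro hTB hnr hr
    have h5 : ι1 '' f i ⊆ s1.swap.A := by
      rintro _ ⟨x, hx, rfl⟩
      have : x ∈ ι1 ⁻¹' s1.B := by rw [ha1.eB]; exact hTB hx
      exact this
    have h6 : ¬ RC Set.univ (ι1 '' f i) := by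
      intro hr1
      exact hnr (rc_of_rc_image (s := s.swap) (t := s1.swap) (h2.2.2 X s1 hv1)
        (h2.2.1 X X s s1 ι1 ha1) hnew1 hTB hr1)
    have h3 := meets_of_not_rc (h2.2.2 X s1 hv1) h5 h6
    have h4 := (hc2 i h3).2
    rw [image_comp] at hr
    exact not_rc_of_meets hv2 h4 hr

end Pool.Agent.Work.MP_ba58b9_gt

end
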