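import Pool.Agent.Work.MP_ba58b9_gt.Stmts

/-! Bundle of small proof modules (one section per former module). -/

section

/-!
# H10: existence of towers
-/

set_option autoImplicit false

open Set Filter Topology Ordinal

namespace Pool.Agent.Work.MP_ba58b9_gt

theorem h10_countable_Iio {α : Ordinal.{0}} (h : α < ω₁) : (Iio α).Countable := by
  rw [← Cardinal.le_aleph0_iff_set_countable, Cardinal.mk_Iio_ordinal, Cardinal.lift_le_aleph0,
    ← Order.lt_succ_iff, Cardinal.succ_aleph0, ← Cardinal.lt_ord, Cardinal.ord_aleph]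
  exact h

/-- The relation of the recursion. -/
def h10R (D : Ordinal.{0} → Set Ordinal.{0}) (α : Ordinal.{0}) (f : Ordinal.{0} → Stage)
    (t : Stage) : Prop :=
  ∃ P : Stage, P.Valid ∧ P.M = range (nhds : E3 → Om) ∪ ⋃ β, ⋃ (_ : β < α), (f β).M ∧
    (∀ β < α, Trans (f β) P) ∧ StepRel P t (cand D α f)

theorem h10_guess (D : Ordinal.{0} → Set Ordinal.{0}) (α : Ordinal.{0})
    (f g : Ordinal.{0} → Stage) (h : ∀ β < α, f β = g β) (ξ : Ordinal.{0}) (hξ : ξ ≤ α) :
    guess D ξ f = guess D ξ g := by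
  unfold guess
  apply iUnion_congr
  intro η
  apply iUnion_congr
  intro hη
  rw [h η (lt_of_lt_of_le hη hξ)]

theorem h10_cand_sub (D : Ordinal.{0} → Set Ordinal.{0}) (α : Ordinal.{0})
    (f g : Ordinal.{0} → Stage) (h : ∀ β < α, f β = g β) : cand D α f ⊆ cand D α g := by
  rintro T (⟨β, hβ, ξ, hξ, hT⟩ | ⟨ξ, hξ, hT⟩)
  · left
    refine ⟨β, hβ, ξ, hξ, ?_⟩
    rw [← h β hβ]
    exact hT
  · right
    refine ⟨ξ, hξ, ?_⟩
    rw [← h10_guess D α f g h ξ hξ]
    exact hT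

theorem h10_cand (D : Ordinal.{0} → Set Ordinal.{0}) (α : Ordinal.{0})
    (f g : Ordinal.{0} → Stage) (h : ∀ β < α, f β = g β) : cand D α f = cand D α g :=
  Subset.antisymm (h10_cand_sub D α f g h) (h10_cand_sub D α g f fun β hβ => (h β hβ).symm)

theorem h10R_congr (D : Ordinal.{0} → Set Ordinal.{0}) (α : Ordinal.{0})
    (f g : Ordinal.{0} → Stage) (h : ∀ β < α, f β = g β) (t : Stage) (hR : h10R D α f t) :
    h10R D α g t := by
  obtain ⟨P, h1, h2, h3, h4⟩ := hR
  refine ⟨P, h1, ?_, ?_, ?_⟩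
  · rw [h2]
    congr 1
    apply iUnion_congr
    intro β
    apply iUnion_congr
    intro hβ
    rw [h β hβ]
  · intro β hβ
    rw [← h β hβ]
    exact h3 β hβ
  · rw [← h10_cand D α f g h]
    exact h4

theorem h10_cand_countable (D : Ordinal.{0} → Set Ordinal.{0}) (α : Ordinal.{0}) (hα : α < ω₁)
    (f : Ordinal.{0} → Stage) : (cand D α f).Countable := by
  have hc := h10_countable_Iio hα
  have hc' : (Iic α).Countable := by
    have e : Iic α = insert α (Iio α) := by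
      ext x
      simp [le_iff_eq_or_lt]
    rw [e]
    exact hc.insert α
  have h1 : (⋃ β ∈ Iio α, ⋃ ξ ∈ Iio α,
      ({decode (f β).M (realOf D ξ) \ (f β).A, decode (f β).M (realOf D ξ) \ (f β).B} :
        Set (Set Om))).Countable := by
    apply hc.biUnion
    intro β _
    apply hc.biUnion
    intro ξ _
    exact (Set.countable_singleton _).insert _
  have h2 : ((fun ξ => guess D ξ f) '' Iic α).Countable := hc'.image _
  apply (h1.union h2).mono
  rintro T (⟨β, hβ, ξ, hξ, hT⟩ | ⟨ξ, hξ, hT⟩)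
  · left
    simp only [mem_iUnion]
    exact ⟨β, hβ, ξ, hξ, by simpa using hT⟩
  · right
    exact ⟨ξ, hξ, hT.symm⟩

/-- Existence of the preliminary stage. -/
theorem h10_exists (h1 : SStageStep) (h2 : SSup) (h3 : SInit) (h4 : STransComp)
    (D : Ordinal.{0} → Set Ordinal.{0}) (α : Ordinal.{0}) (hα : α < ω₁)
    (f : Ordinal.{0} → Stage) (hf : ∀ β < α, h10R D β f (f β)) : ∃ t, h10R D α f t := by
  obtain ⟨hrefl, hcomp, -, -, -⟩ := h4
  have hval : ∀ β < α, (f β).Valid := by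
    intro β hβ
    obtain ⟨P, _, _, _, hP⟩ := hf β hβ
    exact hP.valid
  have htr : ∀ β γ, β ≤ γ → γ < α → Trans (f β) (f γ) := by
    intro β γ hβγ hγ
    rcases hβγ.lt_or_eq with hlt | rfl
    · obtain ⟨P, hPv, _, hP1, hP2⟩ := hf γ hγ
      exact hcomp _ _ _ (hval β (hlt.trans hγ)) hPv (hval γ hγ) (hP1 β hlt) hP2.trans
    · exact hrefl _ (hval _ hγ)
  have key : ∃ P : Stage, P.Valid ∧
      P.M = range (nhds : E3 → Om) ∪ ⋃ β, ⋃ (_ : β < α), (f β).M ∧
      (∀ β < α, Trans (f β) P) := by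
    by_cases h0 : α = 0
    · obtain ⟨s, hs, hM⟩ := h3
      refine ⟨s, hs, ?_, ?_⟩
      · rw [hM]
        ext x
        simp [h0]
      · intro β hβ
        rw [h0] at hβ
        exact absurd hβ not_lt_zero
    · have hne : (Iio α).Nonempty := ⟨0, pos_iff_ne_zero.mpr h0⟩
      have : Nonempty (Iio α) := hne.to_subtype
      have : Countable (Iio α) := (h10_countable_Iio hα).to_subtype
      obtain ⟨e, he⟩ := exists_surjective_nat (Iio α)
      let b : ℕ → Iio α := fun k => partialSups e k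
      have hbm : Monotone b := (partialSups e).monotone
      have hbe : ∀ β : Iio α, ∃ k, β ≤ b k := by
        intro β
        obtain ⟨k, hk⟩ := he β
        exact ⟨k, hk ▸ le_partialSups e k⟩
      obtain ⟨t, ht, htM, htT⟩ := h2 (fun k => f (b k)) (fun k => hval _ (b k).2)
        (fun k => htr _ _ (hbm (Nat.le_succ k)) (b (k + 1)).2)
      refine ⟨t, ht, ?_, ?_⟩
      · rw [htM]
        apply Subset.antisymm
        · apply iUnion_subset
          intro k
          apply subset_union_of_subset_right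
          exact subset_iUnion₂ (s := fun β (_ : β < α) => (f β).M) (b k : Ordinal.{0}) (b k).2
        · apply union_subset
          · rintro _ ⟨x, rfl⟩
            exact mem_iUnion.mpr ⟨0, (hval _ (b 0).2).good.nh x⟩
          · apply iUnion₂_subset
            intro β hβ
            obtain ⟨k, hk⟩ := hbe ⟨β, hβ⟩
            exact (htr β (b k) hk (b k).2).sub.trans (subset_iUnion (fun k => (f (b k)).M) k)
      · intro β hβ
        obtain ⟨k, hk⟩ := hbe ⟨β, hβ⟩
        exact hcomp _ _ _ (hval β hβ) (hval _ (b k).2) ht (htr β (b k) hk (b k).2) (htT k)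
  obtain ⟨P, hP1, hP2, hP3⟩ := key
  obtain ⟨t, ht⟩ := h1 P hP1 (cand D α f) (h10_cand_countable D α hα f)
  exact ⟨t, P, hP1, hP2, hP3, ht⟩

theorem itemH10 (h1 : SStageStep) (h2 : SSup) (h3 : SInit) (h4 : STransComp) : SRec := by
  classical
  intro D
  let d : Stage := ⟨∅, ∅, ∅, fun _ => ∅, fun _ => ∅⟩
  let G : ∀ α : Ordinal.{0}, (∀ β, β < α → Stage) → Stage := fun α F =>
    if h : ∃ t, h10R D α (fun β => if hb : β < α then F β hb else d) t then h.choose else d
  let S : Ordinal.{0} → Stage := WellFounded.fix (wellFounded_lt) G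
  have hS : ∀ α, S α = G α (fun β _ => S β) := fun α => WellFounded.fix_eq wellFounded_lt G α
  refine ⟨S, ?_⟩
  intro α
  induction α using WellFoundedLT.induction with
  | ind α ih =>
    intro hα
    have hag : ∀ β < α, (fun β => if _ : β < α then S β else d) β = S β := by
      intro β hβ
      simp [hβ]
    have hex : ∃ t, h10R D α (fun β => if _ : β < α then S β else d) t := by
      obtain ⟨t, ht⟩ := h10_exists h1 h2 h3 h4 D α hα S (fun β hβ => ih β hβ (hβ.trans hα))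
      exact ⟨t, h10R_congr D α _ _ (fun β hβ => (hag β hβ).symm) t ht⟩
    have hSα : S α = hex.choose := by
      rw [hS α]
      exact dif_pos hex
    have h5 := h10R_congr D α _ _ hag _ hex.choose_spec
    rw [← hSα] at h5
    exact h5

end Pool.Agent.Work.MP_ba58b9_gt

end

section

/-!
# Item H2: basic facts on good sets
-/

set_option autoImplicit false

open Set Filter Topology Ordinal

namespace Pool.Agent.Work.MP_ba58b9_gt

/-- Every filter satisfying the openness condition and `NeBot` is in the closure of the range of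
`nhds`. -/
theorem h2_closure (m : Om) (hne : m.NeBot) (hop : ∀ s ∈ m, interior s ∈ m) :
    m ∈ closure (range (nhds : E3 → Om)) := by
  rw [Filter.mem_closure]
  intro t ht
  obtain ⟨x, hx⟩ := hne.nonempty_of_mem (hop t ht)
  exact ⟨𝓝 x, mem_range_self x, mem_interior_iff_mem_nhds.1 hx⟩

/-- The basic open sets are neighbourhoods. -/
theorem h2_nhds_iff (m : Om) (S : Set Om) (hS : IsOpen S) (hm : m ∈ S) :
    ∃ t ∈ m, ∀ ⦃l : Om⦄, t ∈ l → l ∈ S :=
  Filter.mem_nhds_iff'.1 (hS.mem_nhds hm)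

/-- A compact neighbourhood of a point of a locally Euclidean space. -/
theorem h2_cpt (X : Type) [TopologicalSpace X] (hX : LocE X) (x : X) :
    ∃ K : Set X, IsCompact K ∧ K ∈ 𝓝 x := by
  obtain ⟨U, hU, hxU, ⟨h⟩⟩ := hX x
  refine ⟨(fun y : E3 => ((h.symm y : U) : X)) '' Metric.closedBall (h ⟨x, hxU⟩) 1, ?_, ?_⟩
  · exact (isCompact_closedBall _ _).image (continuous_subtype_val.comp h.symm.continuous)
  · have he : IsOpenEmbedding (fun y : E3 => ((h.symm y : U) : X)) :=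
      hU.isOpenEmbedding_subtypeVal.comp h.symm.isOpenEmbedding
    have h1 := he.isOpenMap.image_mem_nhds
      (Metric.closedBall_mem_nhds (h ⟨x, hxU⟩) one_pos)
    simpa using h1

theorem h2_first (M : Set Om) (hnh : ∀ x : E3, (𝓝 x : Om) ∈ M) (hneb : ∀ m ∈ M, m.NeBot)
    (hopn : ∀ m ∈ M, ∀ s ∈ m, interior s ∈ m) :
    ConnectedSpace M ∧ TopologicalSpace.SeparableSpace M ∧
      M ⊆ closure (range (nhds : E3 → Om)) ∧
      (T2Space M ↔ ∀ m ∈ M, ∀ m' ∈ M, m ≠ m' →
        ∃ O O' : Set E3, IsOpen O ∧ IsOpen O' ∧ O ∈ m ∧ O' ∈ m' ∧ Disjoint O O') := by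
  have hcl : M ⊆ closure (range (nhds : E3 → Om)) := fun m hm =>
    h2_closure m (hneb m hm) (hopn m hm)
  have hjc : Continuous (fun x : E3 => (⟨𝓝 x, hnh x⟩ : M)) :=
    Filter.continuous_nhds.subtype_mk _
  have hjd : DenseRange (fun x : E3 => (⟨𝓝 x, hnh x⟩ : M)) := by
    intro m
    rw [closure_subtype]
    have h1 : (Subtype.val '' range (fun x : E3 => (⟨𝓝 x, hnh x⟩ : M)) : Set Om)
        = range (nhds : E3 → Om) := by
      rw [← range_comp]
      rfl
    rw [h1]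
    exact hcl m.2
  refine ⟨?_, hjd.separableSpace hjc, hcl, ?_⟩
  · have h1 : PreconnectedSpace M := hjd.preconnectedSpace hjc
    exact ⟨⟨⟨𝓝 0, hnh 0⟩⟩⟩
  constructor
  · intro hT m hm m' hm' hne
    have hne' : (⟨m, hm⟩ : M) ≠ ⟨m', hm'⟩ := fun h => hne (congrArg Subtype.val h)
    obtain ⟨u, v, hu, hv, hmu, hmv, huv⟩ := t2_separation hne'
    obtain ⟨G, hG, rfl⟩ := isOpen_induced_iff.1 hu
    obtain ⟨G', hG', rfl⟩ := isOpen_induced_iff.1 hv
    obtain ⟨t, ht, htG⟩ := h2_nhds_iff m G hG hmu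
    obtain ⟨t', ht', htG'⟩ := h2_nhds_iff m' G' hG' hmv
    refine ⟨interior t, interior t', isOpen_interior, isOpen_interior, hopn m hm t ht,
      hopn m' hm' t' ht', ?_⟩
    rw [Set.disjoint_left]
    intro x hx hx'
    have h1 : (⟨𝓝 x, hnh x⟩ : M) ∈ (Subtype.val ⁻¹' G : Set M) :=
      htG (mem_interior_iff_mem_nhds.1 hx)
    have h2 : (⟨𝓝 x, hnh x⟩ : M) ∈ (Subtype.val ⁻¹' G' : Set M) :=
      htG' (mem_interior_iff_mem_nhds.1 hx')
    exact Set.disjoint_left.1 huv h1 h2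
  · intro h
    refine ⟨fun m m' hne => ?_⟩
    obtain ⟨O, O', -, -, hm, hm', hd⟩ := h m m.2 m' m'.2 (fun h => hne (Subtype.ext h))
    refine ⟨Subtype.val ⁻¹' {l : Om | O ∈ l}, Subtype.val ⁻¹' {l : Om | O' ∈ l},
      Filter.isOpen_setOfPred_mem.preimage continuous_subtype_val,
      Filter.isOpen_setOfPred_mem.preimage continuous_subtype_val, hm, hm', ?_⟩
    rw [Set.disjoint_left]
    intro l hl hl'
    have h1 : O ∩ O' ∈ (l : Om) := inter_mem hl hl'
    rw [hd.inter_eq] at h1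
    have := hneb l l.2
    exact Filter.empty_notMem _ h1

theorem h2_second (M N : Set Om) (hM : Good M) (hneb : ∀ m ∈ N, m.NeBot)
    (hopn : ∀ m ∈ N, ∀ s ∈ m, interior s ∈ m) (hT : T2Space N) (hMN : M ⊆ N) :
    ∃ G : Set Om, IsOpen G ∧ M = G ∩ N := by
  have key : ∀ m ∈ M, ∃ G : Set Om, IsOpen G ∧ m ∈ G ∧ G ∩ N ⊆ M := by
    intro m hm
    obtain ⟨K, hK, hKn⟩ := h2_cpt M hM.loc ⟨m, hm⟩
    rw [nhds_subtype, mem_comap] at hKn
    obtain ⟨G0, hG0, hG0K⟩ := hKn
    obtain ⟨G, hGG0, hG, hmG⟩ := mem_nhds_iff.1 hG0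
    refine ⟨G, hG, hmG, ?_⟩
    rintro p ⟨hpG, hpN⟩
    have hKc : IsCompact ((fun q : M => (⟨q.1, hMN q.2⟩ : N)) '' K) :=
      hK.image (continuous_subtype_val.subtype_mk _)
    have hKcl : IsClosed ((fun q : M => (⟨q.1, hMN q.2⟩ : N)) '' K) := hKc.isClosed
    have hp : (⟨p, hpN⟩ : N) ∈ closure ((fun q : M => (⟨q.1, hMN q.2⟩ : N)) '' K) := by
      rw [mem_closure_iff]
      intro o ho hpo
      obtain ⟨O, hO, rfl⟩ := isOpen_induced_iff.1 ho
      have h1 : p ∈ closure (range (nhds : E3 → Om)) := h2_closure p (hneb p hpN) (hopn p hpN)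
      obtain ⟨q, ⟨hqO, hqG⟩, ⟨x, rfl⟩⟩ := mem_closure_iff.1 h1 (O ∩ G) (hO.inter hG)
        ⟨hpo, hpG⟩
      exact ⟨⟨𝓝 x, hMN (hM.nh x)⟩, hqO, ⟨⟨𝓝 x, hM.nh x⟩, hG0K (hGG0 hqG), rfl⟩⟩
    rw [hKcl.closure_eq] at hp
    obtain ⟨q, -, hq⟩ := hp
    have : q.1 = p := congrArg Subtype.val hq
    exact this ▸ q.2
  refine ⟨⋃₀ {G : Set Om | IsOpen G ∧ G ∩ N ⊆ M}, isOpen_sUnion fun G hG => hG.1, ?_⟩
  apply Subset.antisymm
  · intro m hm
    obtain ⟨G, hG, hmG, hGN⟩ := key m hm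
    exact ⟨mem_sUnion.2 ⟨G, ⟨hG, hGN⟩, hmG⟩, hMN hm⟩
  · rintro m ⟨⟨G, ⟨hG, hGN⟩, hmG⟩, hmN⟩
    exact hGN ⟨hmG, hmN⟩

theorem itemH2 : SGoodFacts :=
  ⟨fun M h1 h2 h3 => h2_first M h1 h2 h3,
    fun M N hM h1 h2 h3 h4 => h2_second M N hM h1 h2 h3 h4⟩

end Pool.Agent.Work.MP_ba58b9_gt

end

section

/-!
# H3: transport of a valid state to a good set
-/

set_option autoImplicit false

open Set Filter Topology Ordinal

namespace Pool.Agent.Work.MP_ba58b9_gt

namespace H3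

theorem endAt_image {X Y : Type} [TopologicalSpace X] [TopologicalSpace Y] (h : X ≃ₜ Y)
    {A : Set X} {U : ℕ → Set X} (hE : EndAt A U) : EndAt (h '' A) (fun n => h '' U n) where
  opn n := h.isOpen_image.2 (hE.opn n)
  conn n := (hE.conn n).image h h.continuous.continuousOn
  reg n := by
    show closure (h '' U (n + 1)) ⊆ h '' U n
    rw [← h.image_closure]
    exact image_mono (hE.reg n)
  esc C hC := by
    obtain ⟨n, hn⟩ := hE.esc (h ⁻¹' C) (h.isCompact_preimage.2 hC)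
    refine ⟨n, ?_⟩
    rw [Set.disjoint_left] at hn ⊢
    rintro _ hc ⟨x, hx, rfl⟩
    exact hn hc hx
  cpt n := by
    show IsCompact (h '' A \ h '' U n)
    rw [← image_sdiff h.injective]
    exact (hE.cpt n).image h.continuous
  meet n := by
    obtain ⟨x, hx1, hx2⟩ := hE.meet n
    exact ⟨h x, ⟨x, hx1, rfl⟩, ⟨x, hx2, rfl⟩⟩

/-- The state transported along a homeomorphism. -/
def img {X Y : Type} [TopologicalSpace X] [TopologicalSpace Y] (h : X ≃ₜ Y) (s : St X) : St Y :=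
  ⟨h '' s.A, h '' s.B, fun n => h '' s.U n, fun n => h '' s.V n⟩

theorem img_valid {X Y : Type} [TopologicalSpace X] [TopologicalSpace Y] (h : X ≃ₜ Y) {s : St X}
    (hs : s.Valid) : (img h s).Valid where
  clA := h.isClosed_image.2 hs.clA
  clB := h.isClosed_image.2 hs.clB
  dAB := (disjoint_image_iff h.injective).2 hs.dAB
  endA := endAt_image h hs.endA
  endB := endAt_image h hs.endB
  dBU := (disjoint_image_iff h.injective).2 hs.dBU
  dAV := (disjoint_image_iff h.injective).2 hs.dAV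
  join n := by
    obtain ⟨x, hx1, hx2⟩ := hs.join n
    exact ⟨h x, ⟨x, hx1, rfl⟩, ⟨x, hx2, rfl⟩⟩

theorem preimage_val {X : Type} [TopologicalSpace X] (N : Set Om) (h : X ≃ₜ N) (A : Set X) :
    (Subtype.val : N → Om) ⁻¹' ((fun x => (h x : Om)) '' A) = h '' A := by
  have h1 : (fun x => (h x : Om)) '' A = Subtype.val '' (h '' A) := by
    rw [image_image]
  rw [h1, preimage_image_eq _ Subtype.val_injective]

end H3

open H3 in
theorem itemH3 : STransport := by
  intro X _ s N h hs hN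
  have hsub : ∀ A : Set X, (fun x => (h x : Om)) '' A ⊆ N := by
    rintro A _ ⟨x, _, rfl⟩
    exact (h x).2
  refine ⟨hN, hsub _, hsub _, fun n => hsub _, fun n => hsub _, ?_⟩
  have h1 : (stageOf s N h).st = img h s := by
    show St.mk _ _ _ _ = St.mk _ _ _ _
    congr 1
    · exact preimage_val N h _
    · exact preimage_val N h _
    · funext n
      exact preimage_val N h _
    · funext n
      exact preimage_val N h _
  rw [h1]
  exact img_valid h hs

end Pool.Agent.Work.MP_ba58b9_gt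

end

section

/-!
# Item H4: `SEmbed`, an extension of a good set is represented by a good set.
-/

set_option autoImplicit false

open Set Filter Topology Ordinal

namespace Pool.Agent.Work.MP_ba58b9_gt

namespace ItemH4

/-- The trace of the neighbourhood filter map is an embedding of a regular space. -/
theorem isEmbedding_comap {X Y : Type} [TopologicalSpace X] [TopologicalSpace Y] [T3Space Y]
    (e : X → Y) (hd : DenseRange e) :
    IsEmbedding (fun p : Y => (comap e (𝓝 p) : Filter X)) := by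
  have hneb : ∀ p : Y, (comap e (𝓝 p)).NeBot := fun p => by
    rw [comap_neBot_iff]
    intro t ht
    obtain ⟨y, hy, ⟨x, rfl⟩⟩ := mem_closure_iff_nhds.1 (hd p) t ht
    exact ⟨x, hy⟩
  have hcont : Continuous (fun p : Y => (comap e (𝓝 p) : Filter X)) := by
    rw [continuous_iff_continuousAt]
    intro p
    refine Filter.tendsto_nhds.2 fun s hs => ?_
    obtain ⟨t, ht, hts⟩ := mem_comap.1 hs
    obtain ⟨t', ht't, hopen, hp⟩ := mem_nhds_iff.1 ht
    filter_upwards [hopen.mem_nhds hp] with q hq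
    exact mem_comap.2 ⟨t', hopen.mem_nhds hq, (preimage_mono ht't).trans hts⟩
  have hind : IsInducing (fun p : Y => (comap e (𝓝 p) : Filter X)) := by
    refine isInducing_iff_nhds.2 fun p => le_antisymm ((hcont.tendsto p).le_comap) ?_
    intro V hV
    obtain ⟨V', hV', hcl, hVV⟩ := exists_mem_nhds_isClosed_subset hV
    refine mem_comap.2 ⟨{l : Filter X | e ⁻¹' V' ∈ l}, ?_, ?_⟩
    · exact isOpen_setOfPred_mem.mem_nhds (preimage_mem_comap hV')
    · intro q hq
      have hq' : e ⁻¹' V' ∈ comap e (𝓝 q) := hq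
      refine hVV ?_
      by_contra hqV
      have h2 : e ⁻¹' V'ᶜ ∈ comap e (𝓝 q) := preimage_mem_comap (hcl.isOpen_compl.mem_nhds hqV)
      have := hneb q
      obtain ⟨x, hx1, hx2⟩ := (Filter.nonempty_of_mem (inter_mem hq' h2))
      exact hx2 hx1
  exact ⟨hind, hind.injective⟩

/-- `LocE` is invariant under homeomorphisms. -/
theorem locE_of_homeomorph {X Y : Type} [TopologicalSpace X] [TopologicalSpace Y] (h : X ≃ₜ Y)
    (hX : LocE X) : LocE Y := by
  intro y
  obtain ⟨U, hU, hx, ⟨φ⟩⟩ := hX (h.symm y)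
  refine ⟨h '' U, h.isOpenMap U hU, ⟨h.symm y, hx, h.apply_symm_apply y⟩, ⟨?_⟩⟩
  exact (h.image U).symm.trans φ

/-- The comap of the neighbourhood filter of a filter satisfying the openness condition. -/
theorem comap_nhds_nhds {X : Type} [TopologicalSpace X] (m : Filter X)
    (hm : ∀ s ∈ m, interior s ∈ m) : comap (𝓝 : X → Filter X) (𝓝 m) = m := by
  ext s
  rw [mem_comap]
  constructor
  · rintro ⟨t, ht, hts⟩
    obtain ⟨u, hu, hut⟩ := Filter.mem_nhds_iff'.1 ht
    refine mem_of_superset (hm u hu) fun x hx => hts ?_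
    exact hut (mem_interior_iff_mem_nhds.1 hx)
  · intro hs
    refine ⟨{l : Filter X | s ∈ l}, isOpen_setOfPred_mem.mem_nhds hs, ?_⟩
    intro x hx
    exact mem_of_mem_nhds hx

end ItemH4

open ItemH4 in
theorem itemH4 (h1 : SLoc) (h2 : SGoodFacts) : SEmbed := by
  intro M hM Y _ _ _ hY ι hι hd
  have : LocallyCompactSpace Y := (h1 Y hY).1
  set j : E3 → M := fun x => ⟨𝓝 x, hM.nh x⟩ with hj
  have hjv : (Subtype.val : M → Om) ∘ j = (nhds : E3 → Om) := rfl
  have hjind : IsInducing j := by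
    have := isInducing_nhds (X := E3)
    rw [← hjv] at this
    exact (IsInducing.of_comp_iff IsInducing.subtypeVal).1 this
  have hjd : DenseRange j := by
    intro m
    have hcl := (h2.1 M hM.nh hM.neb hM.opn).2.2.1 m.2
    rw [IsInducing.subtypeVal.closure_eq_preimage_closure_image, mem_preimage, ← range_comp, hjv]
    exact hcl
  set e : E3 → Y := ι ∘ j with he
  have heind : IsInducing e := hι.isInducing.comp hjind
  have hed : DenseRange e := hd.comp hjd hι.continuous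
  have hΦ := isEmbedding_comap e hed
  set Φ : Y → Om := fun p => comap e (𝓝 p) with hΦd
  have hΦι : ∀ m : M, Φ (ι m) = (m : Om) := by
    intro m
    show comap (ι ∘ j) (𝓝 (ι m)) = (m : Om)
    rw [← comap_comap, ← hι.isInducing.nhds_eq_comap, IsInducing.subtypeVal.nhds_eq_comap,
      comap_comap, hjv]
    exact comap_nhds_nhds _ (hM.opn m m.2)
  refine ⟨range Φ, hΦ.toHomeomorph, ?_, ?_, ?_⟩
  · refine ⟨?_, ?_, ?_, ?_, ?_, ?_⟩
    · intro x
      refine ⟨e x, ?_⟩
      exact (heind.nhds_eq_comap x).symm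
    · rintro _ ⟨p, rfl⟩
      show (comap e (𝓝 p)).NeBot
      rw [comap_neBot_iff]
      intro t ht
      obtain ⟨y, hy, ⟨x, rfl⟩⟩ := mem_closure_iff_nhds.1 (hed p) t ht
      exact ⟨x, hy⟩
    · rintro _ ⟨p, rfl⟩ s hs
      obtain ⟨t, ht, hts⟩ := mem_comap.1 hs
      obtain ⟨t', ht't, hopen, hp⟩ := mem_nhds_iff.1 ht
      refine mem_comap.2 ⟨t', hopen.mem_nhds hp, ?_⟩
      exact interior_maximal ((preimage_mono ht't).trans hts)
        (hopen.preimage heind.continuous)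
    · exact hΦ.toHomeomorph.symm.isEmbedding.t2Space
    · exact hΦ.toHomeomorph.symm.isEmbedding.secondCountableTopology
    · exact locE_of_homeomorph hΦ.toHomeomorph hY
  · intro m hm
    exact ⟨ι ⟨m, hm⟩, hΦι ⟨m, hm⟩⟩
  · intro m
    exact hΦι m

end Pool.Agent.Work.MP_ba58b9_gt

end

section

/-!
# Item H6: composition of transitions of stages
-/

set_option autoImplicit false

open Set Filter Topology Ordinal

namespace Pool.Agent.Work.MP_ba58b9_gt

theorem h6_refl (s : Stage) (hs : s.Valid) : Trans s s where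
  sub := subset_rfl
  eA := inter_eq_left.2 hs.subA
  eB := inter_eq_left.2 hs.subB
  new := by
    rintro p ⟨h1, h2⟩
    exact absurd h1 h2
  refU n := ⟨n, inter_subset_left⟩
  refV n := ⟨n, inter_subset_left⟩
  nbA := by
    rintro n p ⟨h1, h2⟩
    exact absurd (hs.subA h1) h2
  nbB := by
    rintro n p ⟨h1, h2⟩
    exact absurd (hs.subB h1) h2

theorem h6_comp (s t u : Stage) (h1 : Trans s t) (h2 : Trans t u) : Trans s u where
  sub := h1.sub.trans h2.sub
  eA := by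
    have e : u.A ∩ s.M = (u.A ∩ t.M) ∩ s.M := by
      rw [inter_assoc, inter_eq_right.2 h1.sub]
    rw [e, h2.eA, h1.eA]
  eB := by
    have e : u.B ∩ s.M = (u.B ∩ t.M) ∩ s.M := by
      rw [inter_assoc, inter_eq_right.2 h1.sub]
    rw [e, h2.eB, h1.eB]
  new := by
    rintro p ⟨hp, hps⟩
    by_cases hpt : p ∈ t.M
    · rcases h1.new ⟨hpt, hps⟩ with h | h
      · left
        rw [← h2.eA] at h
        exact h.1
      · right
        rw [← h2.eB] at h
        exact h.1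
    · exact h2.new ⟨hp, hpt⟩
  refU n := by
    obtain ⟨m, hm⟩ := h1.refU n
    obtain ⟨k, hk⟩ := h2.refU m
    exact ⟨k, fun p hp => hm ⟨hk ⟨hp.1, h1.sub hp.2⟩, hp.2⟩⟩
  refV n := by
    obtain ⟨m, hm⟩ := h1.refV n
    obtain ⟨k, hk⟩ := h2.refV m
    exact ⟨k, fun p hp => hm ⟨hk ⟨hp.1, h1.sub hp.2⟩, hp.2⟩⟩
  nbA := by
    rintro n p ⟨hp, hps⟩
    by_cases hpt : p ∈ t.M
    · exact h1.nbA n p ⟨by rw [← h2.eA]; exact ⟨hp, hpt⟩, hps⟩
    · obtain ⟨m, hm⟩ := h1.refU n
      obtain ⟨G, hG, hpG, hGt⟩ := h2.nbA m p ⟨hp, hpt⟩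
      exact ⟨G, hG, hpG, fun x hx => hm ⟨hGt ⟨hx.1, h1.sub hx.2⟩, hx.2⟩⟩
  nbB := by
    rintro n p ⟨hp, hps⟩
    by_cases hpt : p ∈ t.M
    · exact h1.nbB n p ⟨by rw [← h2.eB]; exact ⟨hp, hpt⟩, hps⟩
    · obtain ⟨m, hm⟩ := h1.refV n
      obtain ⟨G, hG, hpG, hGt⟩ := h2.nbB m p ⟨hp, hpt⟩
      exact ⟨G, hG, hpG, fun x hx => hm ⟨hGt ⟨hx.1, h1.sub hx.2⟩, hx.2⟩⟩

theorem h6_valid (s : Stage) (hs : s.Valid) : s.swap.Valid where
  good := hs.good
  subA := hs.subB
  subB := hs.subA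
  subU := hs.subV
  subV := hs.subU
  st :=
    { clA := hs.st.clB
      clB := hs.st.clA
      dAB := hs.st.dAB.symm
      endA := hs.st.endB
      endB := hs.st.endA
      dBU := hs.st.dAV
      dAV := hs.st.dBU
      join := fun n => by
        have h := hs.st.join n
        rw [inter_comm] at h
        exact h }

theorem h6_trans (s t : Stage) (h : Trans s t) : Trans s.swap t.swap where
  sub := h.sub
  eA := h.eB
  eB := h.eA
  new := fun p hp => (h.new hp).symm
  refU := h.refV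
  refV := h.refU
  nbA := h.nbB
  nbB := h.nbA

theorem h6_step (s t : Stage) (𝒯 : Set (Set Om)) (h : StepRel s t 𝒯) :
    StepRel s.swap t.swap 𝒯 where
  valid := h6_valid t h.valid
  trans := h6_trans s t h.trans
  newA := h.newB
  newB := h.newA
  clA := h.clB
  clB := h.clA
  rcA := h.rcB
  rcB := h.rcA

theorem itemH6 : STransComp :=
  ⟨h6_refl, fun s t u _ _ _ h1 h2 => h6_comp s t u h1 h2, h6_valid, h6_trans, h6_step⟩

end Pool.Agent.Work.MP_ba58b9_gt

end

section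

/-!
# Item H7: increasing unions of good sets
-/

set_option autoImplicit false

open Set Filter Topology Ordinal

namespace Pool.Agent.Work.MP_ba58b9_gt

theorem itemH7 (h1 : SGoodFacts) : SSupGood := by
  intro M hG hmono
  have hnh : ∀ x : E3, (𝓝 x : Om) ∈ ⋃ k, M k := fun x => mem_iUnion.2 ⟨0, (hG 0).nh x⟩
  have hneb : ∀ m ∈ ⋃ k, M k, m.NeBot := by
    intro m hm
    obtain ⟨k, hk⟩ := mem_iUnion.1 hm
    exact (hG k).neb m hk
  have hopn : ∀ m ∈ ⋃ k, M k, ∀ s ∈ m, interior s ∈ m := by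
    intro m hm
    obtain ⟨k, hk⟩ := mem_iUnion.1 hm
    exact (hG k).opn m hk
  have ht2 : T2Space (⋃ k, M k : Set Om) := by
    rw [(h1.1 _ hnh hneb hopn).2.2.2]
    intro m hm m' hm' hne
    obtain ⟨k, hk⟩ := mem_iUnion.1 hm
    obtain ⟨l, hl⟩ := mem_iUnion.1 hm'
    have hK := hG (max k l)
    have := (h1.1 (M (max k l)) hK.nh hK.neb hK.opn).2.2.2.1 hK.t2
    exact this m (hmono (le_max_left k l) hk) m' (hmono (le_max_right k l) hl) hne
  have hsub : ∀ k, M k ⊆ ⋃ k, M k := fun k => subset_iUnion M k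
  have hrel : ∀ k, ∃ G : Set Om, IsOpen G ∧ M k = G ∩ ⋃ k, M k := fun k =>
    h1.2 (M k) (⋃ k, M k) (hG k) hneb hopn ht2 (hsub k)
  have hopen : ∀ k, IsOpen ((Subtype.val : (⋃ k, M k : Set Om) → Om) ⁻¹' M k) := by
    intro k
    obtain ⟨G, hGo, hGe⟩ := hrel k
    have : (Subtype.val : (⋃ k, M k : Set Om) → Om) ⁻¹' M k = Subtype.val ⁻¹' G := by
      ext ⟨p, hp⟩
      simp only [mem_preimage]
      rw [hGe]
      exact ⟨fun h => h.1, fun h => ⟨h, hp⟩⟩
    rw [this]
    exact hGo.preimage continuous_subtype_val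
  have hemb : ∀ k, IsOpenEmbedding (inclusion (hsub k)) := by
    intro k
    refine ⟨IsEmbedding.inclusion (hsub k), ?_⟩
    have : range (inclusion (hsub k)) = (Subtype.val : (⋃ k, M k : Set Om) → Om) ⁻¹' M k := by
      ext ⟨p, hp⟩
      constructor
      · rintro ⟨⟨q, hq⟩, hqp⟩
        have : q = p := congrArg Subtype.val hqp
        subst this
        exact hq
      · intro h
        exact ⟨⟨p, h⟩, rfl⟩
    rw [this]
    exact hopen k
  refine ⟨hnh, hneb, hopn, ht2, ?_, ?_⟩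
  · -- second countability
    have hsc : ∀ k, SecondCountableTopology
        ((Subtype.val : (⋃ k, M k : Set Om) → Om) ⁻¹' M k : Set (⋃ k, M k : Set Om)) := by
      intro k
      haveI := (hG k).sc
      let f : ((Subtype.val : (⋃ k, M k : Set Om) → Om) ⁻¹' M k : Set (⋃ k, M k : Set Om)) → M k :=
        fun u => ⟨u.1.1, u.2⟩
      have hf : IsInducing f := by
        have h2 : IsInducing ((Subtype.val : M k → Om) ∘ f) :=
          (IsInducing.subtypeVal.comp IsInducing.subtypeVal :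
            IsInducing ((Subtype.val : (⋃ k, M k : Set Om) → Om) ∘ Subtype.val))
        exact (IsInducing.of_comp_iff IsInducing.subtypeVal).1 h2
      exact hf.secondCountableTopology
    exact TopologicalSpace.secondCountableTopology_of_countable_cover hopen (by
      ext ⟨p, hp⟩
      simpa using hp)
  · -- local homeomorphism with `ℝ³`
    rintro ⟨p, hp⟩
    obtain ⟨k, hk⟩ := mem_iUnion.1 hp
    obtain ⟨U, hU, hpU, ⟨e⟩⟩ := (hG k).loc ⟨p, hk⟩
    exact ⟨inclusion (hsub k) '' U, (hemb k).isOpenMap U hU, ⟨⟨p, hk⟩, hpU, rfl⟩,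
      ⟨((hemb k).isEmbedding.homeomorphImage U).symm.trans e⟩⟩

end Pool.Agent.Work.MP_ba58b9_gt

end

section

set_option autoImplicit false

open Set Filter Topology Ordinal

namespace Pool.Agent.Work.MP_ba58b9_gt

namespace ItemH8

/-! ### the abstract limit -/

section Abs

variable {X : Type} [TopologicalSpace X]

/-- an increasing sequence of dense open sets with two sequences of closed sets -/
structure Common (Xk A B : ℕ → Set X) : Prop where
  opn : ∀ k, IsOpen (Xk k)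
  mono : Monotone Xk
  cover : ∀ p, ∃ k, p ∈ Xk k
  dense : ∀ k, Dense (Xk k)
  eA : ∀ k, (⋃ j, A j) ∩ Xk k = A k
  eB : ∀ k, (⋃ j, B j) ∩ Xk k = B k
  clA : IsClosed (⋃ j, A j)
  clB : IsClosed (⋃ j, B j)
  disj : Disjoint (⋃ j, A j) (⋃ j, B j)

/-- the ends on one side -/
structure Half (Xk A B : ℕ → Set X) (U : ℕ → ℕ → Set X) : Prop where
  opn : ∀ k n, IsOpen (U k n)
  sub : ∀ k n, U k n ⊆ Xk k
  conn : ∀ k n, IsPreconnected (U k n)
  anti : ∀ k, Antitone (U k)
  esc : ∀ k, ∀ C, IsCompact C → C ⊆ Xk k → ∃ n, Disjoint C (U k n)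
  cpt : ∀ k n, IsCompact (A k \ U k n)
  meet : ∀ k n, (A k ∩ U k n).Nonempty
  dBU : ∀ k, Disjoint (B k) (U k 0)
  ref : ∀ i j, i ≤ j → ∀ n, ∃ m, U j m ∩ Xk i ⊆ U i n
  nb : ∀ i j, i ≤ j → ∀ n, ∀ p ∈ A j \ Xk i, ∃ G, IsOpen G ∧ p ∈ G ∧ G ∩ Xk i ⊆ U i n

/-- the requirements on the sequence of indices -/
structure Idx (Xk : ℕ → Set X) (U : ℕ → ℕ → Set X) (n : ℕ → ℕ) : Prop where
  r1 : ∀ i j, i ≤ j → U j (n j) ∩ Xk i ⊆ U i j
  r2 : ∀ j, U (j + 1) (n (j + 1)) ∩ Xk j ⊆ U j (n j)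

/-- the raw ends -/
def raw (Xk B : ℕ → Set X) (U : ℕ → ℕ → Set X) (n : ℕ → ℕ) (j : ℕ) : Set X :=
  interior (U j (n j) ∪ (Xk j)ᶜ) \ ⋃ i, B i

theorem exists_idx {Xk A B : ℕ → Set X} {U V : ℕ → ℕ → Set X} (hU : Half Xk A B U)
    (hV : Half Xk B A V) : ∃ n : ℕ → ℕ, Idx Xk U n ∧ Idx Xk V n := by
  choose a ha using hU.ref
  choose b hb using hV.ref
  -- one step
  have step : ∀ j nj : ℕ, ∃ nj' : ℕ,
      (∀ i, i ≤ j + 1 → U (j + 1) nj' ∩ Xk i ⊆ U i (j + 1) ∧ V (j + 1) nj' ∩ Xk i ⊆ V i (j + 1)) ∧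
      U (j + 1) nj' ∩ Xk j ⊆ U j nj ∧ V (j + 1) nj' ∩ Xk j ⊆ V j nj := by
    intro j nj
    let c : ℕ → ℕ := fun i => if h : i ≤ j + 1 then max (a i (j + 1) h (j + 1)) (b i (j + 1) h (j + 1))
      else 0
    let N : ℕ := max ((Finset.range (j + 2)).sup c)
      (max (a j (j + 1) (Nat.le_succ j) nj) (b j (j + 1) (Nat.le_succ j) nj))
    have hN : ∀ i (h : i ≤ j + 1), max (a i (j + 1) h (j + 1)) (b i (j + 1) h (j + 1)) ≤ N := by
      intro i h
      have h1 : c i ≤ (Finset.range (j + 2)).sup c :=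
        Finset.le_sup (f := c) (Finset.mem_range.2 (by omega))
      have h2 : c i = max (a i (j + 1) h (j + 1)) (b i (j + 1) h (j + 1)) := dif_pos h
      rw [← h2]
      exact h1.trans (le_max_left _ _)
    refine ⟨N, fun i hi => ⟨?_, ?_⟩, ?_, ?_⟩
    · exact (Set.inter_subset_inter_left _ (hU.anti _ ((le_max_left _ _).trans (hN i hi)))).trans
        (ha i (j + 1) hi (j + 1))
    · exact (Set.inter_subset_inter_left _ (hV.anti _ ((le_max_right _ _).trans (hN i hi)))).trans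
        (hb i (j + 1) hi (j + 1))
    · exact (Set.inter_subset_inter_left _ (hU.anti _
        ((le_max_left _ _).trans (le_max_right _ _)))).trans (ha j (j + 1) (Nat.le_succ j) nj)
    · exact (Set.inter_subset_inter_left _ (hV.anti _
        ((le_max_right _ _).trans (le_max_right _ _)))).trans (hb j (j + 1) (Nat.le_succ j) nj)
  choose f hf using step
  let n : ℕ → ℕ := fun j => Nat.rec 0 (fun j nj => f j nj) j
  have hn : ∀ j, n (j + 1) = f j (n j) := fun _ => rfl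
  refine ⟨n, ⟨?_, ?_⟩, ⟨?_, ?_⟩⟩
  · intro i j hij
    cases j with
    | zero =>
      obtain rfl : i = 0 := Nat.le_zero.1 hij
      exact Set.inter_subset_left.trans (hU.anti _ (Nat.zero_le _))
    | succ j =>
      rw [hn]
      exact ((hf j (n j)).1 i hij).1
  · intro j
    rw [hn]
    exact (hf j (n j)).2.1
  · intro i j hij
    cases j with
    | zero =>
      obtain rfl : i = 0 := Nat.le_zero.1 hij
      exact Set.inter_subset_left.trans (hV.anti _ (Nat.zero_le _))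
    | succ j =>
      rw [hn]
      exact ((hf j (n j)).1 i hij).2
  · intro j
    rw [hn]
    exact (hf j (n j)).2.2

/-- all the properties of the raw ends -/
structure RawOk (Xk A B : ℕ → Set X) (U : ℕ → ℕ → Set X) (n : ℕ → ℕ) : Prop where
  opn : ∀ j, IsOpen (raw Xk B U n j)
  tr : ∀ j, raw Xk B U n j ∩ Xk j = U j (n j)
  conn : ∀ j, IsPreconnected (raw Xk B U n j)
  anti : Antitone (raw Xk B U n)
  esc : ∀ C : Set X, IsCompact C → ∃ j, Disjoint C (raw Xk B U n j)
  ncpt : ¬ IsCompact (⋃ j, A j)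
  cpt : ∀ j, IsCompact ((⋃ i, A i) \ raw Xk B U n j)
  dBU : Disjoint (⋃ i, B i) (raw Xk B U n 0)
  ref : ∀ i j, i ≤ j → raw Xk B U n j ∩ Xk i ⊆ U i j

theorem rawOk {Xk A B : ℕ → Set X} {U : ℕ → ℕ → Set X} {n : ℕ → ℕ} (hc : Common Xk A B)
    (hU : Half Xk A B U) (hn : Idx Xk U n) : RawOk Xk A B U n := by
  have tr : ∀ j, raw Xk B U n j ∩ Xk j = U j (n j) := by
    intro j
    ext p
    constructor
    · rintro ⟨⟨h1, -⟩, h2⟩
      rcases interior_subset h1 with h | h
      · exact h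
      · exact absurd h2 h
    · intro hp
      have hpX := hU.sub j _ hp
      refine ⟨⟨?_, ?_⟩, hpX⟩
      · exact interior_mono Set.subset_union_left ((hU.opn j (n j)).interior_eq.symm ▸ hp)
      · intro hB
        have : p ∈ B j := by
          rw [← hc.eB j]
          exact ⟨hB, hpX⟩
        exact Set.disjoint_left.1 (hU.dBU j) this (hU.anti j (Nat.zero_le _) hp)
  have opn : ∀ j, IsOpen (raw Xk B U n j) := fun j => isOpen_interior.sdiff hc.clB
  have sub : ∀ j, U j (n j) ⊆ raw Xk B U n j := fun j => by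
    rw [← tr j]
    exact Set.inter_subset_left
  have anti : Antitone (raw Xk B U n) := by
    refine antitone_nat_of_succ_le fun j => ?_
    refine Set.sdiff_subset_sdiff_left (interior_maximal ?_ isOpen_interior)
    intro p hp
    by_cases hpX : p ∈ Xk j
    · left
      refine hn.r2 j ⟨?_, hpX⟩
      rcases interior_subset hp with h | h
      · exact h
      · exact absurd (hc.mono (Nat.le_succ j) hpX) h
    · exact Or.inr hpX
  have ref : ∀ i j, i ≤ j → raw Xk B U n j ∩ Xk i ⊆ U i j := by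
    rintro i j hij p ⟨h1, h2⟩
    refine hn.r1 i j hij ⟨?_, h2⟩
    rw [← tr j]
    exact ⟨h1, hc.mono hij h2⟩
  have esc : ∀ C : Set X, IsCompact C → ∃ j, Disjoint C (raw Xk B U n j) := by
    intro C hC
    obtain ⟨k, hk⟩ := hC.elim_directed_cover Xk hc.opn (fun p _ => Set.mem_iUnion.2 (hc.cover p))
      (hc.mono.directed_le)
    obtain ⟨m, hm⟩ := hU.esc k C hC hk
    refine ⟨max k m, ?_⟩
    rw [Set.disjoint_left] at hm ⊢
    intro p hp hpr
    exact hm hp (hU.anti k (le_max_right k m) (ref k _ (le_max_left k m) ⟨hpr, hk hp⟩))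
  refine ⟨opn, tr, ?_, anti, esc, ?_, ?_, ?_, ref⟩
  · intro j
    refine (hU.conn j (n j)).subset_closure (sub j) ?_
    have := (hc.dense j).open_subset_closure_inter (opn j)
    rwa [tr j] at this
  · intro hcpt
    obtain ⟨j, hj⟩ := esc _ hcpt
    obtain ⟨p, hpA, hpU⟩ := hU.meet j (n j)
    exact Set.disjoint_left.1 hj (Set.mem_iUnion.2 ⟨j, hpA⟩) (sub j hpU)
  · intro j
    refine (hU.cpt j (n j)).of_isClosed_subset (hc.clA.sdiff (opn j)) ?_
    rintro p ⟨hpA, hpr⟩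
    by_cases hpX : p ∈ Xk j
    · refine ⟨?_, fun h => hpr (sub j h)⟩
      rw [← hc.eA j]
      exact ⟨hpA, hpX⟩
    · exfalso
      obtain ⟨i, hi⟩ := Set.mem_iUnion.1 hpA
      have hij : j ≤ i := by
        by_contra hlt
        have : p ∈ Xk i := by
          have := hi
          rw [← hc.eA i] at this
          exact this.2
        exact hpX (hc.mono (not_le.1 hlt).le this)
      obtain ⟨G, hG, hpG, hGU⟩ := hU.nb j i hij (n j) p ⟨hi, hpX⟩
      refine hpr ⟨mem_interior.2 ⟨G, ?_, hG, hpG⟩, Set.disjoint_left.1 hc.disj hpA⟩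
      intro q hq
      by_cases hqX : q ∈ Xk j
      · exact Or.inl (hGU ⟨hq, hqX⟩)
      · exact Or.inr hqX
  · rw [Set.disjoint_left]
    rintro p hp ⟨-, h⟩
    exact h hp

theorem Common.symm {Xk A B : ℕ → Set X} (h : Common Xk A B) : Common Xk B A :=
  ⟨h.opn, h.mono, h.cover, h.dense, h.eB, h.eA, h.clB, h.clA, h.disj.symm⟩

/-- The abstract limit of states. -/
theorem limit (h1 : SReg) [T2Space X] [SecondCountableTopology X] (hX : LocE X)
    {Xk A B : ℕ → Set X} {U V : ℕ → ℕ → Set X} (hc : Common Xk A B) (hU : Half Xk A B U)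
    (hV : Half Xk B A V) (hj : ∀ k n, (U k n ∩ V k n).Nonempty) :
    ∃ s : St X, s.Valid ∧ s.A = (⋃ j, A j) ∧ s.B = (⋃ j, B j) ∧
      (∀ k n, ∃ m, s.U m ∩ Xk k ⊆ U k n) ∧ ∀ k n, ∃ m, s.V m ∩ Xk k ⊆ V k n := by
  obtain ⟨n, hnU, hnV⟩ := exists_idx hU hV
  have rU := rawOk hc hU hnU
  have rV := rawOk hc.symm hV hnV
  obtain ⟨s, hs, hsA, hsB, hsU, hsV⟩ := h1 X hX (⋃ j, A j) (⋃ j, B j) (raw Xk B U n)
    (raw Xk A V n) hc.clA hc.clB hc.disj rU.ncpt rV.ncpt rU.opn rV.opn rU.conn rV.conn rU.anti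
    rV.anti rU.esc rV.esc rU.cpt rV.cpt rU.dBU rV.dBU (by
      intro j
      obtain ⟨p, hp1, hp2⟩ := hj j (n j)
      rw [← rU.tr j] at hp1
      rw [← rV.tr j] at hp2
      exact ⟨p, hp1.1, hp2.1⟩)
  refine ⟨s, hs, hsA, hsB, ?_, ?_⟩
  · intro k m
    refine ⟨max k m, ?_⟩
    refine (Set.inter_subset_inter_left _ (hsU _)).trans ((rU.ref k _ (le_max_left _ _)).trans ?_)
    exact hU.anti k (le_max_right _ _)
  · intro k m
    refine ⟨max k m, ?_⟩
    refine (Set.inter_subset_inter_left _ (hsV _)).trans ((rV.ref k _ (le_max_left _ _)).trans ?_)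
    exact hV.anti k (le_max_right _ _)

end Abs

/-! ### from stages to the abstract setting -/

/-- the inclusion of a stage in the limit -/
theorem image_incl {N M : Set Om} (h : N ⊆ M) {W : Set Om} (hW : W ⊆ N) :
    Set.inclusion h '' (Subtype.val ⁻¹' W : Set N) = (Subtype.val ⁻¹' W : Set M) := by
  ext p
  constructor
  · rintro ⟨q, hq, rfl⟩
    exact hq
  · intro hp
    exact ⟨⟨p.1, hW hp⟩, hp, rfl⟩

/-- one side of a sequence of stages -/
theorem half {M : Set Om} (s : ℕ → Stage) (hM : M = ⋃ k, (s k).M) (hv : ∀ k, (s k).Valid)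
    (ht : ∀ i j, i ≤ j → Trans (s i) (s j))
    (he : ∀ k (h : (s k).M ⊆ M), IsOpenEmbedding (Set.inclusion h)) :
    Half (X := M) (fun k => Subtype.val ⁻¹' (s k).M) (fun k => Subtype.val ⁻¹' (s k).A)
      (fun k => Subtype.val ⁻¹' (s k).B) (fun k n => Subtype.val ⁻¹' (s k).U n) := by
  have hsub : ∀ k, (s k).M ⊆ M := fun k => hM ▸ Set.subset_iUnion (fun k => (s k).M) k
  have eU : ∀ k n, Set.inclusion (hsub k) '' ((s k).st.U n) =
      (Subtype.val ⁻¹' (s k).U n : Set M) := fun k n => image_incl _ ((hv k).subU n)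
  have eA : ∀ k, Set.inclusion (hsub k) '' ((s k).st.A) =
      (Subtype.val ⁻¹' (s k).A : Set M) := fun k => image_incl _ ((hv k).subA)
  have hanti : ∀ k, Antitone (s k).st.U := fun k =>
    antitone_nat_of_succ_le fun n => subset_closure.trans ((hv k).st.endA.reg n)
  refine ⟨?_, ?_, ?_, ?_, ?_, ?_, ?_, ?_, ?_, ?_⟩
  · intro k n
    rw [← eU k n]
    exact (he k (hsub k)).isOpenMap _ ((hv k).st.endA.opn n)
  · intro k n p hp
    exact (hv k).subU n hp
  · intro k n
    rw [← eU k n]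
    exact ((hv k).st.endA.conn n).isPreconnected.image _ (continuous_inclusion _).continuousOn
  · intro k m n hmn
    show (Subtype.val ⁻¹' (s k).U n : Set M) ⊆ Subtype.val ⁻¹' (s k).U m
    rw [← eU k n, ← eU k m]
    exact Set.image_mono (hanti k hmn)
  · intro k C hC hCk
    have hC' : IsCompact (Set.inclusion (hsub k) ⁻¹' C) := by
      refine ((he k (hsub k)).isInducing.isCompact_preimage_iff ?_).2 hC
      intro p hp
      exact ⟨⟨p.1, hCk hp⟩, rfl⟩
    obtain ⟨n, hn⟩ := (hv k).st.endA.esc _ hC'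
    refine ⟨n, ?_⟩
    rw [Set.disjoint_left] at hn ⊢
    intro p hp hpU
    exact hn (a := ⟨p.1, hCk hp⟩) hp hpU
  · intro k n
    have : (Subtype.val ⁻¹' (s k).A : Set M) \ Subtype.val ⁻¹' (s k).U n =
        Set.inclusion (hsub k) '' ((s k).st.A \ (s k).st.U n) := by
      rw [Set.image_sdiff (Set.inclusion_injective _), eU, eA]
    rw [this]
    exact ((hv k).st.endA.cpt n).image (continuous_inclusion _)
  · intro k n
    obtain ⟨p, hp1, hp2⟩ := (hv k).st.endA.meet n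
    exact ⟨⟨p.1, hsub k p.2⟩, hp1, hp2⟩
  · intro k
    rw [Set.disjoint_left]
    intro p hpB hpU
    have hd := Set.disjoint_left.1 (hv k).st.dBU
    exact hd (a := ⟨p.1, (hv k).subB hpB⟩) hpB hpU
  · intro i j hij n
    obtain ⟨m, hm⟩ := (ht i j hij).refU n
    exact ⟨m, fun p hp => hm hp⟩
  · rintro i j hij n p ⟨hp1, hp2⟩
    obtain ⟨G, hG, hpG, hGU⟩ := (ht i j hij).nbA n p.1 ⟨hp1, hp2⟩
    exact ⟨Subtype.val ⁻¹' G, hG.preimage continuous_subtype_val, hpG, fun q hq => hGU hq⟩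

end ItemH8

open ItemH8 in
/-- H8 -/
theorem itemH8 (h1 : SReg) (h2 : SSupGood) (h3 : STransComp) (h4 : SGoodFacts) : SSup := by
  intro s hv hstep
  obtain ⟨hrefl, hcomp, hsw, hswt, -⟩ := h3
  have ht : ∀ i j, i ≤ j → Trans (s i) (s j) := by
    intro i j hij
    induction j, hij using Nat.le_induction with
    | base => exact hrefl _ (hv i)
    | succ j _ ih => exact hcomp _ _ _ (hv i) (hv j) (hv (j + 1)) ih (hstep j)
  have hmono : Monotone fun k => (s k).M := fun i j hij => (ht i j hij).sub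
  have hgood : Good (⋃ k, (s k).M) := h2 _ (fun k => (hv k).good) hmono
  obtain ⟨M, hM⟩ : ∃ M, M = ⋃ k, (s k).M := ⟨_, rfl⟩
  rw [← hM] at hgood
  have hsub : ∀ k, (s k).M ⊆ M := fun k => hM ▸ Set.subset_iUnion (fun k => (s k).M) k
  have hmemM : ∀ p, p ∈ M ↔ ∃ k, p ∈ (s k).M := fun p => by rw [hM, Set.mem_iUnion]
  have hrel : ∀ k, ∃ G : Set Om, IsOpen G ∧ (s k).M = G ∩ M := fun k =>
    h4.2 _ _ (hv k).good hgood.neb hgood.opn hgood.t2 (hsub k)
  have hopen : ∀ k, IsOpen (Subtype.val ⁻¹' (s k).M : Set M) := by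
    intro k
    obtain ⟨G, hG, hGM⟩ := hrel k
    have : (Subtype.val ⁻¹' (s k).M : Set M) = Subtype.val ⁻¹' G := by
      ext p
      rw [Set.mem_preimage, hGM]
      exact ⟨fun h => h.1, fun h => ⟨h, p.2⟩⟩
    rw [this]
    exact hG.preimage continuous_subtype_val
  have he : ∀ k (h : (s k).M ⊆ M), IsOpenEmbedding (Set.inclusion h) := by
    intro k h
    refine ⟨IsEmbedding.inclusion h, ?_⟩
    rw [Set.range_inclusion]
    exact hopen k
  have hunA : ∀ k, (⋃ j, (s j).A) ∩ (s k).M = (s k).A := by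
    intro k
    ext p
    constructor
    · rintro ⟨hp, hpk⟩
      obtain ⟨j, hj⟩ := Set.mem_iUnion.1 hp
      rcases le_total j k with h | h
      · rw [← (ht j k h).eA] at hj
        exact hj.1
      · rw [← (ht k j h).eA]
        exact ⟨hj, hpk⟩
    · intro hp
      exact ⟨Set.mem_iUnion.2 ⟨k, hp⟩, (hv k).subA hp⟩
  have hunB : ∀ k, (⋃ j, (s j).B) ∩ (s k).M = (s k).B := by
    intro k
    ext p
    constructor
    · rintro ⟨hp, hpk⟩
      obtain ⟨j, hj⟩ := Set.mem_iUnion.1 hp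
      rcases le_total j k with h | h
      · rw [← (ht j k h).eB] at hj
        exact hj.1
      · rw [← (ht k j h).eB]
        exact ⟨hj, hpk⟩
    · intro hp
      exact ⟨Set.mem_iUnion.2 ⟨k, hp⟩, (hv k).subB hp⟩
  have hcl : ∀ (A : Set Om) (Ak : ℕ → Set Om), (∀ k, A ∩ (s k).M = Ak k) →
      (∀ k, IsClosed (Subtype.val ⁻¹' Ak k : Set (s k).M)) →
      IsClosed (Subtype.val ⁻¹' A : Set M) := by
    intro A Ak hA hAk
    rw [← isOpen_compl_iff, isOpen_iff_mem_nhds]
    intro p hp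
    obtain ⟨k, hk⟩ := (hmemM p.1).1 p.2
    have hO : IsOpen (Set.inclusion (hsub k) '' (Subtype.val ⁻¹' Ak k : Set (s k).M)ᶜ) :=
      (he k (hsub k)).isOpenMap _ (hAk k).isOpen_compl
    refine mem_of_superset (hO.mem_nhds ⟨⟨p.1, hk⟩, ?_, rfl⟩) ?_
    · intro h
      have h' : p.1 ∈ Ak k := h
      rw [← hA k] at h'
      exact hp h'.1
    · rintro _ ⟨q, hq, rfl⟩ hqA
      refine hq ?_
      show q.1 ∈ Ak k
      rw [← hA k]
      exact ⟨hqA, q.2⟩
  have eUn : ∀ W : ℕ → Set Om, (⋃ j, (Subtype.val ⁻¹' W j : Set M)) = Subtype.val ⁻¹' (⋃ j, W j) :=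
    fun W => (Set.preimage_iUnion).symm
  have hclA : IsClosed (Subtype.val ⁻¹' (⋃ j, (s j).A) : Set M) :=
    hcl _ _ hunA fun k => (hv k).st.clA
  have hclB : IsClosed (Subtype.val ⁻¹' (⋃ j, (s j).B) : Set M) :=
    hcl _ _ hunB fun k => (hv k).st.clB
  have hc : Common (X := M) (fun k => Subtype.val ⁻¹' (s k).M) (fun k => Subtype.val ⁻¹' (s k).A)
      (fun k => Subtype.val ⁻¹' (s k).B) := by
    refine ⟨hopen, ?_, ?_, ?_, ?_, ?_, ?_, ?_, ?_⟩
    · intro i j hij p hp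
      exact hmono hij hp
    · intro p
      exact (hmemM p.1).1 p.2
    · intro k
      have hd := (h4.1 M hgood.nh hgood.neb hgood.opn).2.2.1
      intro p
      rw [closure_subtype]
      refine closure_mono ?_ (hd p.2)
      rintro _ ⟨x, rfl⟩
      exact ⟨⟨𝓝 x, hgood.nh x⟩, (hv k).good.nh x, rfl⟩
    · intro k
      rw [eUn, ← Set.preimage_inter, hunA]
    · intro k
      rw [eUn, ← Set.preimage_inter, hunB]
    · rw [eUn]
      exact hclA
    · rw [eUn]
      exact hclB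
    · rw [eUn, eUn, Set.disjoint_left]
      intro p hpA hpB
      obtain ⟨k, hk⟩ := (hmemM p.1).1 p.2
      have hA : p.1 ∈ (s k).A := by
        rw [← hunA k]
        exact ⟨hpA, hk⟩
      have hB : p.1 ∈ (s k).B := by
        rw [← hunB k]
        exact ⟨hpB, hk⟩
      have hd := Set.disjoint_left.1 (hv k).st.dAB
      exact hd (a := ⟨p.1, hk⟩) hA hB
  have hU := half s hM hv ht he
  have hV := half (fun k => (s k).swap) hM (fun k => hsw _ (hv k))
    (fun i j hij => hswt _ _ (ht i j hij)) he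
  have hT2 := hgood.t2
  have hSC := hgood.sc
  obtain ⟨s', hs', hsA, hsB, hsU, hsV⟩ := limit h1 hgood.loc hc hU hV (by
    intro k n
    obtain ⟨p, hp1, hp2⟩ := (hv k).st.join n
    exact ⟨⟨p.1, hsub k p.2⟩, hp1, hp2⟩)
  rw [eUn] at hsA hsB
  have hpre : ∀ W : Set M, Subtype.val ⁻¹' (Subtype.val '' W : Set Om) = W :=
    fun W => Set.preimage_image_eq _ Subtype.val_injective
  let t : Stage := ⟨M, Subtype.val '' s'.A, Subtype.val '' s'.B, fun n => Subtype.val '' s'.U n,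
    fun n => Subtype.val '' s'.V n⟩
  have htst : t.st = s' := by
    show (⟨_, _, _, _⟩ : St M) = s'
    simp only [t, hpre]
  have hisub : ∀ W : Set M, (Subtype.val '' W : Set Om) ⊆ M := by
    rintro W _ ⟨p, -, rfl⟩
    exact p.2
  have htA : t.A = ⋃ j, (s j).A := by
    show Subtype.val '' s'.A = _
    rw [hsA, Subtype.image_preimage_coe]
    refine Set.inter_eq_right.2 ?_
    exact Set.iUnion_subset fun j => (hv j).subA.trans (hsub j)
  have htB : t.B = ⋃ j, (s j).B := by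
    show Subtype.val '' s'.B = _
    rw [hsB, Subtype.image_preimage_coe]
    refine Set.inter_eq_right.2 ?_
    exact Set.iUnion_subset fun j => (hv j).subB.trans (hsub j)
  refine ⟨t, ⟨hgood, hisub _, hisub _, fun n => hisub _, fun n => hisub _, ?_⟩, hM, ?_⟩
  · rw [htst]
    exact hs'
  · intro k
    have hlt : ∀ j p, p ∈ (s j).M → p ∉ (s k).M → k ≤ j := by
      intro j p hp hpn
      by_contra hc'
      exact hpn (hmono (not_le.1 hc').le hp)
    refine ⟨hsub k, ?_, ?_, ?_, ?_, ?_, ?_, ?_⟩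
    · rw [htA, hunA]
    · rw [htB, hunB]
    · rintro p ⟨hp, hpn⟩
      obtain ⟨j, hj⟩ := (hmemM p).1 hp
      rw [htA, htB]
      rcases (ht k j (hlt j p hj hpn)).new ⟨hj, hpn⟩ with h | h
      · exact Or.inl (Set.mem_iUnion.2 ⟨j, h⟩)
      · exact Or.inr (Set.mem_iUnion.2 ⟨j, h⟩)
    · intro n
      obtain ⟨m, hm⟩ := hsU k n
      refine ⟨m, ?_⟩
      rintro _ ⟨⟨p, hp, rfl⟩, hpk⟩
      exact hm ⟨hp, hpk⟩
    · intro n
      obtain ⟨m, hm⟩ := hsV k n
      refine ⟨m, ?_⟩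
      rintro _ ⟨⟨p, hp, rfl⟩, hpk⟩
      exact hm ⟨hp, hpk⟩
    · rintro n p ⟨hp, hpn⟩
      rw [htA] at hp
      obtain ⟨j, hj⟩ := Set.mem_iUnion.1 hp
      exact (ht k j (hlt j p ((hv j).subA hj) hpn)).nbA n p ⟨hj, hpn⟩
    · rintro n p ⟨hp, hpn⟩
      rw [htB] at hp
      obtain ⟨j, hj⟩ := Set.mem_iUnion.1 hp
      exact (ht k j (hlt j p ((hv j).subB hj) hpn)).nbB n p ⟨hj, hpn⟩

end Pool.Agent.Work.MP_ba58b9_gt

end

section

/-!
# H9: the initial stage
-/

set_option autoImplicit false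

open Set Filter Topology Ordinal

namespace Pool.Agent.Work.MP_ba58b9_gt

theorem H9_locE3 : LocE E3 := fun _ =>
  ⟨Set.univ, isOpen_univ, trivial, ⟨Homeomorph.Set.univ E3⟩⟩

/-- The homeomorphism of `ℝ³` onto its copy in the space of filters. -/
noncomputable def H9_homeo : E3 ≃ₜ range (nhds : E3 → Om) :=
  (show IsEmbedding (nhds : E3 → Om) from ⟨isInducing_nhds, nhds_injective⟩).toHomeomorph

theorem H9_good : Good (range (nhds : E3 → Om)) where
  nh x := mem_range_self x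
  neb := by
    rintro _ ⟨x, rfl⟩
    exact nhds_neBot
  opn := by
    rintro _ ⟨x, rfl⟩ s hs
    exact interior_mem_nhds.2 hs
  t2 := H9_homeo.t2Space
  sc := H9_homeo.symm.secondCountableTopology
  loc := fun _ => ⟨Set.univ, isOpen_univ, trivial,
    ⟨(Homeomorph.Set.univ _).trans H9_homeo.symm⟩⟩

/-- The points `c (k+1) e₀`. -/
noncomputable def H9_pt (i : Fin 3) (c : ℝ) (k : ℕ) : E3 :=
  EuclideanSpace.single i (c * ((k : ℝ) + 1))

theorem H9_pt_norm (i : Fin 3) {c : ℝ} (hc : |c| = 1) (k : ℕ) : ‖H9_pt i c k‖ = (k : ℝ) + 1 := by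
  rw [H9_pt, PiLp.norm_single, Real.norm_eq_abs, abs_mul, hc, one_mul,
    abs_of_nonneg (by positivity)]

theorem H9_pt_self (i : Fin 3) (c : ℝ) (k : ℕ) : H9_pt i c k i = c * ((k : ℝ) + 1) := by
  simp [H9_pt]

theorem H9_pt_ne {i j : Fin 3} (h : j ≠ i) (c : ℝ) (k : ℕ) : H9_pt i c k j = 0 := by
  simp [H9_pt, h]

/-- One of the two closed sets. -/
noncomputable def H9_A (c : ℝ) : Set E3 := ⋃ k : ℕ, {H9_pt 0 c k}

theorem H9_mem_A {c : ℝ} {x : E3} : x ∈ H9_A c ↔ ∃ k, x = H9_pt 0 c k := by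
  simp [H9_A, eq_comm]

theorem H9_lf {c : ℝ} (hc : |c| = 1) :
    LocallyFinite (fun k : ℕ => ({H9_pt 0 c k} : Set E3)) := by
  intro x
  refine ⟨Metric.ball x 1, Metric.ball_mem_nhds x one_pos, ?_⟩
  obtain ⟨N, hN⟩ := exists_nat_gt (‖x‖)
  apply (Set.finite_lt_nat N).subset
  rintro k ⟨y, hy, hyx⟩
  rw [mem_singleton_iff] at hy
  subst hy
  have h1 := H9_pt_norm 0 hc k
  have h2 : ‖H9_pt 0 c k - x‖ < 1 := by simpa [dist_eq_norm] using hyx
  have h3 : ‖H9_pt 0 c k‖ ≤ ‖H9_pt 0 c k - x‖ + ‖x‖ := by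
    have := norm_add_le (H9_pt 0 c k - x) x
    simpa using this
  have h4 : (k : ℝ) < N := by linarith
  exact_mod_cast h4

theorem H9_closed {c : ℝ} (hc : |c| = 1) : IsClosed (H9_A c) :=
  (H9_lf hc).isClosed_iUnion fun _ => isClosed_singleton

theorem H9_norm_eq {c : ℝ} (hc : |c| = 1) {x : E3} (hx : x ∈ H9_A c) : ∃ k : ℕ, ‖x‖ = (k : ℝ) + 1 := by
  obtain ⟨k, rfl⟩ := H9_mem_A.1 hx
  exact ⟨k, H9_pt_norm 0 hc k⟩

theorem H9_not_compact {c : ℝ} (hc : |c| = 1) : ¬ IsCompact (H9_A c) := by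
  intro h
  obtain ⟨R, hR⟩ := h.isBounded.exists_norm_le
  obtain ⟨N, hN⟩ := exists_nat_gt R
  have h1 := hR (H9_pt 0 c N) (H9_mem_A.2 ⟨N, rfl⟩)
  rw [H9_pt_norm 0 hc] at h1
  linarith

theorem H9_disj : Disjoint (H9_A 1) (H9_A (-1)) := by
  rw [Set.disjoint_left]
  intro x h1 h2
  obtain ⟨j, rfl⟩ := H9_mem_A.1 h1
  obtain ⟨k, hk⟩ := H9_mem_A.1 h2
  have h3 : H9_pt 0 1 j 0 = H9_pt 0 (-1) k 0 := by rw [hk]
  rw [H9_pt_self, H9_pt_self] at h3
  have : (0 : ℝ) ≤ j := Nat.cast_nonneg j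
  have : (0 : ℝ) ≤ k := Nat.cast_nonneg k
  linarith

/-- The complement of a ball. -/
def H9_W (n : ℕ) : Set E3 := {x | (n : ℝ) < ‖x‖}

theorem H9_W_open (n : ℕ) : IsOpen (H9_W n) := isOpen_lt continuous_const continuous_norm

theorem H9_rank : 1 < Module.rank ℝ E3 := by
  have h : Module.finrank ℝ E3 = 3 := by simp
  have h2 : (Module.finrank ℝ E3 : Cardinal) = Module.rank ℝ E3 := Module.finrank_eq_rank _ _
  rw [← h2, h]
  norm_num

theorem H9_W_conn (n : ℕ) : IsPreconnected (H9_W n) := by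
  have h1 : IsPreconnected (Metric.sphere (0 : E3) 1) := isPreconnected_sphere H9_rank 0 1
  have h2 : IsPreconnected (Metric.sphere (0 : E3) 1 ×ˢ Ioi (n : ℝ)) := h1.prod isPreconnected_Ioi
  have h3 := h2.image (fun z : E3 × ℝ => z.2 • z.1) (by fun_prop)
  convert h3 using 1
  ext x
  simp only [H9_W, mem_ofPred_eq, mem_image, mem_prod, mem_sphere_zero_iff_norm, mem_Ioi,
    Prod.exists]
  constructor
  · intro hx
    have hpos : 0 < ‖x‖ := lt_of_le_of_lt (Nat.cast_nonneg n) hx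
    refine ⟨‖x‖⁻¹ • x, ‖x‖, ⟨?_, hx⟩, ?_⟩
    · rw [norm_smul, norm_inv, norm_norm, inv_mul_cancel₀ hpos.ne']
    · rw [smul_smul, mul_inv_cancel₀ hpos.ne', one_smul]
  · rintro ⟨y, t, ⟨hy, ht⟩, rfl⟩
    have htpos : 0 < t := lt_of_le_of_lt (Nat.cast_nonneg n) ht
    rw [norm_smul, hy, mul_one, Real.norm_eq_abs, abs_of_pos htpos]
    exact ht

theorem H9_W_esc (C : Set E3) (hC : IsCompact C) : ∃ n, Disjoint C (H9_W n) := by
  obtain ⟨R, hR⟩ := hC.isBounded.exists_norm_le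
  obtain ⟨N, hN⟩ := exists_nat_gt R
  refine ⟨N, Set.disjoint_left.2 fun x hx hxW => ?_⟩
  have h1 := hR x hx
  have h2 : (N : ℝ) < ‖x‖ := hxW
  linarith

theorem H9_W_anti : Antitone H9_W := by
  intro m n hmn x hx
  have h1 : (n : ℝ) < ‖x‖ := hx
  have h2 : (m : ℝ) ≤ n := by exact_mod_cast hmn
  exact lt_of_le_of_lt h2 h1

theorem H9_cpt {c d : ℝ} (hc : |c| = 1) (hd : |d| = 1) (hdis : Disjoint (H9_A c) (H9_A d))
    (n : ℕ) : IsCompact (H9_A c \ (H9_W n \ H9_A d)) := by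
  have h1 : IsClosed (H9_A c \ (H9_W n \ H9_A d)) :=
    (H9_closed hc).sdiff ((H9_W_open n).sdiff (H9_closed hd))
  apply (isCompact_closedBall (0 : E3) n).of_isClosed_subset h1
  rintro x ⟨hx, hx2⟩
  rw [mem_closedBall_zero_iff]
  by_contra hlt
  push Not at hlt
  exact hx2 ⟨hlt, Set.disjoint_left.1 hdis hx⟩

theorem itemH9 (h1 : SReg) (h2 : STransport) (h3 : SThinSeg) (h4 : SThinUnion) : SInit := by
  have hc1 : |(1 : ℝ)| = 1 := abs_one
  have hc2 : |(-1 : ℝ)| = 1 := by rw [abs_neg, abs_one]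
  have thin : ∀ {c : ℝ}, |c| = 1 → Thin (H9_A c) := fun {c} hc =>
    h4.2 E3 H9_locE3 ℕ (fun k => {H9_pt 0 c k}) (fun k => h3.2 E3 H9_locE3 _) (H9_lf hc)
  obtain ⟨s, hs, -⟩ := h1 E3 H9_locE3 (H9_A 1) (H9_A (-1)) (fun n => H9_W n \ H9_A (-1))
    (fun n => H9_W n \ H9_A 1) (H9_closed hc1) (H9_closed hc2) H9_disj (H9_not_compact hc1)
    (H9_not_compact hc2) (fun n => (H9_W_open n).sdiff (H9_closed hc2))
    (fun n => (H9_W_open n).sdiff (H9_closed hc1))
    (fun n => (thin hc2).2.2 _ (H9_W_open n) (H9_W_conn n))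
    (fun n => (thin hc1).2.2 _ (H9_W_open n) (H9_W_conn n))
    (fun m n hmn => sdiff_subset_sdiff_left (H9_W_anti hmn))
    (fun m n hmn => sdiff_subset_sdiff_left (H9_W_anti hmn))
    (fun C hC => by
      obtain ⟨n, hn⟩ := H9_W_esc C hC
      exact ⟨n, hn.mono_right sdiff_subset⟩)
    (fun C hC => by
      obtain ⟨n, hn⟩ := H9_W_esc C hC
      exact ⟨n, hn.mono_right sdiff_subset⟩)
    (H9_cpt hc1 hc2 H9_disj) (H9_cpt hc2 hc1 H9_disj.symm)
    disjoint_sdiff_right disjoint_sdiff_right (by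
      intro n
      refine ⟨H9_pt 1 1 n, ⟨?_, ?_⟩, ⟨?_, ?_⟩⟩
      · show (n : ℝ) < ‖H9_pt 1 1 n‖
        rw [H9_pt_norm 1 hc1]; linarith
      · intro hmem
        obtain ⟨k, hk⟩ := H9_mem_A.1 hmem
        have h5 : H9_pt 1 1 n 0 = H9_pt 0 (-1) k 0 := by rw [hk]
        rw [H9_pt_ne (by decide), H9_pt_self] at h5
        have : (0 : ℝ) ≤ k := Nat.cast_nonneg k
        linarith
      · show (n : ℝ) < ‖H9_pt 1 1 n‖
        rw [H9_pt_norm 1 hc1]; linarith
      · intro hmem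
        obtain ⟨k, hk⟩ := H9_mem_A.1 hmem
        have h5 : H9_pt 1 1 n 0 = H9_pt 0 1 k 0 := by rw [hk]
        rw [H9_pt_ne (by decide), H9_pt_self] at h5
        have : (0 : ℝ) ≤ k := Nat.cast_nonneg k
        linarith)
  exact ⟨stageOf s _ H9_homeo, h2 E3 s _ H9_homeo hs H9_good, rfl⟩

end Pool.Agent.Work.MP_ba58b9_gt

end
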