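import Pool.Agent.Work.MP_ba58b9_gt.Defs

/-! Bundle of small proof modules (one section per former module). -/

section

/-!
# Hereditarily countably paracompact quasi-developable manifolds are metrizable: statements
-/

set_option autoImplicit false

open Set Filter Topology Ordinal

namespace Pool.Agent.Work.MP_ba58b9_gt

/-! ## Definitions -/

/-- `X` is locally homeomorphic to `ℝⁿ`. -/
def LocN (n : ℕ) (X : Type) [TopologicalSpace X] : Prop :=
  ∀ x : X, ∃ U : Set X, IsOpen U ∧ x ∈ U ∧ Nonempty (U ≃ₜ EuclideanSpace ℝ (Fin n))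

/-- `G` is a quasi-development of `X`. -/
def IsQDev {X : Type} [TopologicalSpace X] (G : ℕ → Set (Set X)) : Prop :=
  (∀ n, ∀ g ∈ G n, IsOpen g) ∧ ∀ (x : X) (O : Set X), IsOpen O → x ∈ O →
    ∃ n, (∃ g ∈ G n, x ∈ g) ∧ ∀ g ∈ G n, x ∈ g → g ⊆ O

/-- The boundary of the open set `U`. -/
def bd {X : Type} [TopologicalSpace X] (U : Set X) : Set X := closure U \ U

/-- `e` is an isolated point of `A`. -/
def Iso {X : Type} [TopologicalSpace X] (A : Set X) (e : X) : Prop :=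
  e ∈ A ∧ ∃ G : Set X, IsOpen G ∧ e ∈ G ∧ G ∩ A ⊆ {e}

/-- `α` is a countable limit ordinal. -/
def Lim (α : Ordinal.{0}) : Prop := α < ω₁ ∧ α ≠ 0 ∧ ∀ β < α, β + 1 < α

/-- Stationary subsets of `ω₁`. -/
def Stat (S : Set Ordinal.{0}) : Prop := ∀ C, Club C → ∃ α ∈ S, α ∈ C

/-- A continuous increasing chain of separable open subsets. -/
structure IsChain {X : Type} [TopologicalSpace X] (U N : Ordinal.{0} → Set X) : Prop where
  opnU : ∀ α < ω₁, IsOpen (U α)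
  opnN : ∀ α < ω₁, IsOpen (N α)
  sep : ∀ α < ω₁, ∃ Q : Set X, Q.Countable ∧ U α ⊆ closure Q
  cof : ∀ α < ω₁, ∃ O : ℕ → Set X, (∀ i, IsOpen (O i) ∧ closure (O i) ⊆ U α) ∧
    ∀ K : Set X, IsCompact K → K ⊆ U α → ∃ i, K ⊆ O i
  mono : ∀ β α, β < α → α < ω₁ → U β ∪ N β ⊆ U α
  lim : ∀ α, Lim α → U α ⊆ ⋃ β, ⋃ (_ : β < α), U β
  bdN : ∀ α < ω₁, (bd (U α) ∩ N α).Nonempty
  iso : ∀ α < ω₁, (∃ e, Iso (bd (U α)) e) → ∃ e ∈ N α, Iso (bd (U α)) e

/-! ## Items -/

/-- Z1: stationary sets. -/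
def ZFodor : Prop :=
  (∀ S, Stat S → ∀ f : Ordinal.{0} → Ordinal.{0}, (∀ α ∈ S, f α < α) →
    ∃ γ, Stat {α | α ∈ S ∧ f α = γ}) ∧
  (∀ S, Stat S → ∀ f : Ordinal.{0} → ℕ, ∃ k, Stat {α | α ∈ S ∧ f α = k}) ∧
  Stat {α | Lim α} ∧ (∀ S, Stat S → (∀ α ∈ S, α < ω₁) → ¬ S.Countable) ∧
  ∀ S T, Stat (S ∪ T) → Stat S ∨ Stat T

/-- Z2: local structure. -/
def ZLoc : Prop :=
  ∀ (n : ℕ) (X : Type) [TopologicalSpace X] [T2Space X], LocN n X →
    LocallyCompactSpace X ∧ LocallyConnectedSpace X ∧ FirstCountableTopology X ∧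
    (SecondCountableTopology X → TopologicalSpace.MetrizableSpace X) ∧
    ∀ (x : X) (V : Set X), IsOpen V → x ∈ V → ∃ G Z : Set X, IsOpen G ∧ x ∈ G ∧ IsCompact Z ∧
      IsCompact (G ∪ Z) ∧ G ∪ Z ⊆ V ∧ Disjoint G Z ∧
      (2 ≤ n → IsPreconnected ((G ∪ Z) \ {x}) ∧ Z.Nonempty)

/-- Z3: disjoint open sets meeting the members of the chain. -/
def ZPress : Prop :=
  ∀ (X : Type) [TopologicalSpace X] (U N : Ordinal.{0} → Set X), IsChain U N →
    ∀ S : Set Ordinal.{0}, Stat S → (∀ α ∈ S, Lim α) → ∀ C : Ordinal.{0} → Set X,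
    (∀ α ∈ S, IsOpen (C α)) → (∀ α ∈ S, (C α ∩ closure (U α)).Nonempty) →
    ∃ α ∈ S, ∃ β ∈ S, α < β ∧ (C α ∩ C β).Nonempty

/-- Z4: boundaries of most members of the chain have no isolated points. -/
def ZIso : Prop :=
  ∀ (n : ℕ), 2 ≤ n → ∀ (X : Type) [TopologicalSpace X] [T2Space X], LocN n X →
    ∀ U N : Ordinal.{0} → Set X, IsChain U N →
      Stat {α | Lim α ∧ ∀ e, ¬ Iso (bd (U α)) e}

/-- Z5: convergent sequences in the boundary on which the quasi-development is uniform. -/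
def ZBaire : Prop :=
  ∀ (X : Type) [TopologicalSpace X] [T2Space X] [LocallyCompactSpace X]
    [FirstCountableTopology X] (G : ℕ → Set (Set X)), IsQDev G → ∀ U N : Set X, IsOpen U →
    IsOpen N → (bd U ∩ N).Nonempty → (∀ e, ¬ Iso (bd U) e) →
    ∃ (k : ℕ) (d : X) (u : ℕ → X), (∀ j, u j ≠ d) ∧ Tendsto u atTop (𝓝 d) ∧
      ∀ x, (x = d ∨ ∃ j, x = u j) → x ∈ bd U ∩ N ∧ (∃ g ∈ G k, x ∈ g) ∧
        ∀ g ∈ G k, x ∈ g → g ⊆ N

/-- Z6: Ishikawa's characterisation. -/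
def ZCP : Prop :=
  ∀ (Y : Type) [TopologicalSpace Y], CPara Y → ∀ F : ℕ → Set Y, (∀ m, IsClosed (F m)) →
    Antitone F → (⋂ m, F m) = ∅ → ∃ W : ℕ → Set Y, (∀ m, IsOpen (W m)) ∧ Antitone W ∧
      (∀ m, F m ⊆ W m) ∧ (⋂ m, closure (W m)) = ∅

/-- Z7: no chains in hereditarily countably paracompact quasi-developable manifolds. -/
def ZMain : Prop :=
  ∀ (n : ℕ), 2 ≤ n → ∀ (X : Type) [TopologicalSpace X] [T2Space X], LocN n X →
    (∀ S : Set X, CPara S) → ∀ G : ℕ → Set (Set X), IsQDev G →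
    ∀ U N : Ordinal.{0} → Set X, ¬ IsChain U N

/-- Z8: existence of chains. -/
def ZChain : Prop :=
  ∀ (n : ℕ) (X : Type) [TopologicalSpace X] [T2Space X], LocN n X → ConnectedSpace X →
    ¬ SecondCountableTopology X → ∃ U N : Ordinal.{0} → Set X, IsChain U N

end Pool.Agent.Work.MP_ba58b9_gt

end

section

/-!
# Z1: stationary subsets of `ω₁`
-/

set_option autoImplicit false

open Set Filter Topology Ordinal

namespace Pool.Agent.Work.MP_ba58b9_gt

theorem Z1_countable {γ : Ordinal.{0}} (h : γ < ω₁) : (Iio γ).Countable := by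
  rw [Cardinal.lt_omega_iff_card_lt, Cardinal.lt_aleph_one_iff] at h
  rw [← Cardinal.le_aleph0_iff_set_countable, Cardinal.mk_Iio_ordinal]
  simpa using Cardinal.lift_le.{1, 0}.2 h

theorem Z1_succ {γ : Ordinal.{0}} (h : γ < ω₁) : γ + 1 < ω₁ := by
  have h2 : Order.IsSuccLimit (ω₁ : Ordinal.{0}) := by
    exact Cardinal.isSuccLimit_omega 1
  exact h2.succ_lt h

/-- bounded suprema over countable initial segments -/
theorem Z1_sup {γ : Ordinal.{0}} (h : γ < ω₁) (f : Ordinal.{0} → Ordinal.{0})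
    (hf : ∀ η < γ, f η < ω₁) : ∃ δ < ω₁, ∀ η < γ, f η ≤ δ := by
  have hc : Countable (Iio γ) := (Z1_countable h).to_subtype
  rcases isEmpty_or_nonempty (Iio γ) with he | hne
  · exact ⟨γ, h, fun η hη => (he.false ⟨η, hη⟩).elim⟩
  · obtain ⟨e, he⟩ := exists_surjective_nat (Iio γ)
    refine ⟨⨆ n, f (e n), Ordinal.iSup_lt_omega_one (fun n => hf _ (e n).2), fun η hη => ?_⟩
    obtain ⟨n, hn⟩ := he ⟨η, hη⟩
    have := Ordinal.le_iSup (fun n => f (e n)) n
    rw [hn] at this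
    exact this

/-- the diagonal intersection -/
theorem Z1_diag (C : Ordinal.{0} → Set Ordinal.{0}) (hC : ∀ γ < ω₁, Club (C γ)) :
    Club {δ | Lim δ ∧ ∀ γ < δ, δ ∈ C γ} := by
  refine ⟨fun δ h => h.1.1, ?_, ?_⟩
  · intro β hβ
    have step : ∀ γ : Ordinal.{0}, ∃ δ : Ordinal.{0}, γ < ω₁ → δ < ω₁ ∧ γ + 1 < δ ∧
        ∀ η ≤ γ, ∃ c ∈ C η, γ < c ∧ c < δ := by
      intro γ
      by_cases h : γ < ω₁
      · have h1 : ∀ η : Ordinal.{0}, ∃ c : Ordinal.{0}, η < ω₁ → c ∈ C η ∧ γ < c := by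
          intro η
          by_cases h2 : η < ω₁
          · obtain ⟨c, hc⟩ := (hC η h2).2.1 γ h
            exact ⟨c, fun _ => hc⟩
          · exact ⟨0, fun h' => absurd h' h2⟩
        choose cc hcc using h1
        obtain ⟨δ, hδ, hle⟩ := Z1_sup (Z1_succ h) cc (fun η hη =>
          (hC η (hη.trans (Z1_succ h))).1 _ (hcc η (hη.trans (Z1_succ h))).1)
        refine ⟨max (γ + 1) δ + 1, fun _ => ⟨Z1_succ (max_lt (Z1_succ h) hδ), ?_, ?_⟩⟩
        · exact (le_max_left _ _).trans_lt (lt_add_one _)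
        · intro η hη
          have hη' : η < γ + 1 := hη.trans_lt (lt_add_one _)
          refine ⟨cc η, (hcc η (hη'.trans (Z1_succ h))).1, (hcc η (hη'.trans (Z1_succ h))).2, ?_⟩
          exact ((hle η hη').trans (le_max_right _ _)).trans_lt (lt_add_one _)
      · exact ⟨0, fun h' => absurd h' h⟩
    choose nx hnx using step
    let sq : ℕ → Ordinal.{0} := fun n => Nat.rec (nx β) (fun _ x => nx x) n
    have sqs : ∀ n, sq (n + 1) = nx (sq n) := fun n => rfl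
    have hs1 : ∀ n, sq n < ω₁ := by
      intro n
      induction n with
      | zero => exact (hnx β hβ).1
      | succ n ih => rw [sqs]; exact (hnx _ ih).1
    have hlt : ∀ n, sq n + 1 < sq (n + 1) ∧ ∀ η ≤ sq n, ∃ c ∈ C η, sq n < c ∧ c < sq (n + 1) :=
      fun n => by rw [sqs]; exact (hnx _ (hs1 n)).2
    have hsup : (⨆ n, sq n) < ω₁ := Ordinal.iSup_lt_omega_one hs1
    have hle : ∀ n, sq n ≤ ⨆ n, sq n := fun n => Ordinal.le_iSup sq n
    have hlt' : ∀ n, sq n < ⨆ n, sq n := fun n =>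
      ((lt_add_one _).trans (hlt n).1).trans_le (hle (n + 1))
    have hβs : β < ⨆ n, sq n := ((lt_add_one _).trans (hnx β hβ).2.1).trans_le (hle 0)
    have hne : (⨆ n, sq n) ≠ 0 := by
      intro h
      rw [h] at hβs
      exact absurd hβs (by simp)
    have hmono : ∀ m n, m ≤ n → sq m ≤ sq n := by
      intro m n hmn
      induction hmn with
      | refl => exact le_rfl
      | step _ ih => exact ih.trans ((lt_add_one _).trans (hlt _).1).le
    refine ⟨⨆ n, sq n, ⟨⟨hsup, hne, ?_⟩, ?_⟩, hβs⟩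
    · intro b hb
      obtain ⟨n, hn⟩ := (Ordinal.lt_iSup_iff (f := sq)).1 hb
      have : b + 1 ≤ sq n := by
        rw [← Order.succ_eq_add_one]
        exact Order.succ_le_of_lt hn
      exact this.trans_lt (hlt' n)
    · intro γ hγ
      obtain ⟨m, hm⟩ := (Ordinal.lt_iSup_iff (f := sq)).1 hγ
      refine (hC γ (hγ.trans hsup)).2.2 _ hsup hne fun b hb => ?_
      obtain ⟨n, hn⟩ := (Ordinal.lt_iSup_iff (f := sq)).1 hb
      have h1 : γ ≤ sq (max m n) := hm.le.trans (hmono _ _ (le_max_left _ _))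
      obtain ⟨c, hc, h2, h3⟩ := (hlt (max m n)).2 γ h1
      exact ⟨c, hc, (hn.trans_le (hmono _ _ (le_max_right _ _))).trans h2,
        h3.trans (hlt' (max m n + 1))⟩
  · intro δ hδ h0 hlim
    refine ⟨⟨hδ, h0, fun b hb => ?_⟩, ?_⟩
    · obtain ⟨γ, h1, h2, h3⟩ := hlim b hb
      exact (h1.1.2.2 b h2).trans h3
    · intro γ hγ
      refine (hC γ (hγ.trans hδ)).2.2 δ hδ h0 fun b hb => ?_
      obtain ⟨c, h1, h2, h3⟩ := hlim (max b γ) (max_lt hb hγ)
      exact ⟨c, h1.2 γ ((le_max_right _ _).trans_lt h2), (le_max_left _ _).trans_lt h2, h3⟩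

theorem Z1_inter {C D : Set Ordinal.{0}} (hC : Club C) (hD : Club D) :
    ∃ E, Club E ∧ E ⊆ C ∩ D := by
  refine ⟨_, Z1_diag (fun γ => if γ = 0 then C else D) (fun γ _ => ?_), ?_⟩
  · by_cases h : γ = 0
    · simpa [h] using hC
    · simpa [h] using hD
  · rintro δ ⟨⟨_, h1, h2⟩, h3⟩
    have hpos : 0 < δ := pos_iff_ne_zero.2 h1
    have h4 := h3 0 hpos
    have h5 := h3 (0 + 1) (h2 0 hpos)
    simp only [if_true] at h4
    rw [if_neg (by simp)] at h5
    exact ⟨h4, h5⟩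

/-- final segments are clubs -/
theorem Z1_Ioi {β : Ordinal.{0}} (hβ : β < ω₁) : Club {α : Ordinal.{0} | β < α ∧ α < ω₁} := by
  refine ⟨fun α h => h.2, ?_, ?_⟩
  · intro γ hγ
    exact ⟨max β γ + 1, ⟨(le_max_left _ _).trans_lt (lt_add_one _), Z1_succ (max_lt hβ hγ)⟩,
      (le_max_right _ _).trans_lt (lt_add_one _)⟩
  · intro δ hδ h0 hlim
    obtain ⟨γ, h1, _, h3⟩ := hlim 0 (pos_iff_ne_zero.2 h0)
    exact ⟨h1.1.trans h3, hδ⟩

theorem Z1_fodor (S : Set Ordinal.{0}) (hS : Stat S) (f : Ordinal.{0} → Ordinal.{0})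
    (hf : ∀ α ∈ S, f α < α) : ∃ γ, Stat {α | α ∈ S ∧ f α = γ} := by
  by_contra hcon
  push Not at hcon
  have h1 : ∀ γ, ∃ C, Club C ∧ ∀ α ∈ S, f α = γ → α ∉ C := by
    intro γ
    have := hcon γ
    unfold Stat at this
    push Not at this
    obtain ⟨C, hC, h2⟩ := this
    exact ⟨C, hC, fun α hα h => h2 α ⟨hα, h⟩⟩
  choose C hC hC2 using h1
  obtain ⟨α, hα, hα2⟩ := hS _ (Z1_diag C fun γ _ => hC γ)
  exact hC2 (f α) α hα rfl (hα2.2 _ (hf α hα))

theorem Z1_stat_inter {S C : Set Ordinal.{0}} (hS : Stat S) (hC : Club C) : Stat (S ∩ C) := by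
  intro D hD
  obtain ⟨E, hE, hE2⟩ := Z1_inter hC hD
  obtain ⟨α, hα, hα2⟩ := hS E hE
  exact ⟨α, ⟨hα, (hE2 hα2).1⟩, (hE2 hα2).2⟩

theorem Z1_stat_mono {S T : Set Ordinal.{0}} (hS : Stat S) (h : S ⊆ T) : Stat T := by
  intro D hD
  obtain ⟨α, hα, hα2⟩ := hS D hD
  exact ⟨α, h hα, hα2⟩

theorem Z1_omega_lt : (ω : Ordinal.{0}) < ω₁ := by
  exact Ordinal.omega0_lt_omega_one

theorem Z1_nat (S : Set Ordinal.{0}) (hS : Stat S) (f : Ordinal.{0} → ℕ) :
    ∃ k, Stat {α | α ∈ S ∧ f α = k} := by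
  have hS' := Z1_stat_inter hS (Z1_Ioi Z1_omega_lt)
  obtain ⟨γ, hγ⟩ := Z1_fodor _ hS' (fun α => (f α : Ordinal.{0})) (fun α hα =>
    (natCast_lt_omega0 _).trans hα.2.1)
  obtain ⟨α, hα, -⟩ := hγ _ (Z1_Ioi Z1_omega_lt)
  refine ⟨f α, Z1_stat_mono hγ ?_⟩
  rintro β ⟨h1, h2⟩
  refine ⟨h1.1, ?_⟩
  have h3 : (f β : Ordinal.{0}) = f α := h2.trans hα.2.symm
  exact_mod_cast h3

theorem itemZ1 : ZFodor := by
  refine ⟨Z1_fodor, Z1_nat, ?_, ?_, ?_⟩
  · intro C hC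
    have h1 := Z1_diag (fun _ => C) (fun _ _ => hC)
    obtain ⟨δ, hδ, h2⟩ := h1.2.1 0 (Ordinal.omega_pos 1)
    exact ⟨δ, hδ.1, hδ.2 0 h2⟩
  · intro S hS hlt hc
    have h1 : ∃ β < ω₁, ∀ α ∈ S, α ≤ β := by
      rcases S.eq_empty_or_nonempty with he | hne
      · exact ⟨0, Ordinal.omega_pos 1, by simp [he]⟩
      · obtain ⟨e, he⟩ := hc.exists_eq_range hne
        refine ⟨⨆ n, e n, Ordinal.iSup_lt_omega_one (fun n => hlt _ (by rw [he]; exact ⟨n, rfl⟩)),
          fun α hα => ?_⟩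
        rw [he] at hα
        obtain ⟨n, rfl⟩ := hα
        exact Ordinal.le_iSup e n
    obtain ⟨β, hβ, h2⟩ := h1
    obtain ⟨α, hα, h3⟩ := hS _ (Z1_Ioi hβ)
    exact absurd h3.1 (not_lt.2 (h2 α hα))
  · intro S T hST
    classical
    obtain ⟨k, hk⟩ := Z1_nat _ hST (fun α => if α ∈ S then 0 else 1)
    by_cases h : k = 0
    · left
      refine Z1_stat_mono hk ?_
      rintro α ⟨_, h2⟩
      by_contra h3
      simp only [h3, if_false] at h2
      omega
    · right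
      refine Z1_stat_mono hk ?_
      rintro α ⟨h1, h2⟩
      by_cases h3 : α ∈ S
      · simp only [h3, if_true] at h2
        exact absurd h2.symm h
      · exact h1.resolve_left h3

end Pool.Agent.Work.MP_ba58b9_gt

end

section

/-!
# [ba58b9 Z2] local structure of spaces locally homeomorphic to `ℝⁿ`
-/

set_option autoImplicit false

open Set Filter Topology Ordinal

namespace Pool.Agent.Work.MP_ba58b9_gt

theorem itemZ2_chart {n : ℕ} {X : Type} [TopologicalSpace X] (h : LocN n X) (x : X) :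
    ∃ (φ : EuclideanSpace ℝ (Fin n) → X) (y : EuclideanSpace ℝ (Fin n)),
      IsOpenEmbedding φ ∧ φ y = x := by
  obtain ⟨U, hU, hx, ⟨e⟩⟩ := h x
  refine ⟨fun y => (e.symm y : X), e ⟨x, hx⟩,
    hU.isOpenEmbedding_subtypeVal.comp e.symm.isOpenEmbedding, ?_⟩
  simp

/-- the punctured closed ball is preconnected in dimension at least two -/
theorem itemZ2_punct {n : ℕ} (hn : 2 ≤ n) (y : EuclideanSpace ℝ (Fin n)) {ε : ℝ} (hε : 0 < ε) :
    IsPreconnected (Metric.closedBall y ε \ {y}) := by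
  have hr : 1 < Module.rank ℝ (EuclideanSpace ℝ (Fin n)) := by
    rw [← Module.finrank_eq_rank, finrank_euclideanSpace_fin]
    exact_mod_cast hn
  have h1 : IsPreconnected (Metric.sphere y ε) := isPreconnected_sphere hr y ε
  have h2 : IsPreconnected (Metric.sphere y ε ×ˢ Ioc (0 : ℝ) 1) := h1.prod isPreconnected_Ioc
  have h3 : Metric.closedBall y ε \ {y} =
      (fun p : EuclideanSpace ℝ (Fin n) × ℝ => y + p.2 • (p.1 - y)) ''
        (Metric.sphere y ε ×ˢ Ioc (0 : ℝ) 1) := by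
    ext z
    constructor
    · rintro ⟨hz, hzy⟩
      have hzy' : z ≠ y := hzy
      have hd : 0 < ‖z - y‖ := norm_pos_iff.2 (sub_ne_zero.2 hzy')
      have hle : ‖z - y‖ ≤ ε := by
        rw [Metric.mem_closedBall, dist_eq_norm] at hz; exact hz
      refine ⟨(y + (ε / ‖z - y‖) • (z - y), ‖z - y‖ / ε), ⟨?_, div_pos hd hε, ?_⟩, ?_⟩
      · simp only [Metric.mem_sphere, dist_eq_norm, add_sub_cancel_left, norm_smul]
        rw [Real.norm_eq_abs, abs_of_pos (div_pos hε hd)]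
        field_simp
      · exact (div_le_one hε).2 hle
      · simp only [add_sub_cancel_left, smul_smul]
        have : ‖z - y‖ / ε * (ε / ‖z - y‖) = 1 := by field_simp
        rw [this, one_smul]
        abel
    · rintro ⟨⟨u, t⟩, ⟨hu, ht0, ht1⟩, rfl⟩
      simp only [Metric.mem_sphere, dist_eq_norm] at hu
      constructor
      · simp only [Metric.mem_closedBall, dist_eq_norm, add_sub_cancel_left, norm_smul]
        rw [hu, Real.norm_eq_abs, abs_of_pos ht0]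
        have ht1' : t ≤ 1 := ht1
        nlinarith
      · intro h
        have h4 : y + t • (u - y) = y := h
        have h5 : t • (u - y) = 0 := by
          have := congrArg (fun w => w - y) h4
          simpa using this
        have h6 : ‖t • (u - y)‖ = 0 := by rw [h5, norm_zero]
        rw [norm_smul, hu, Real.norm_eq_abs, abs_of_pos ht0] at h6
        have : 0 < t * ε := mul_pos ht0 hε
        linarith
  rw [h3]
  refine h2.image _ (Continuous.continuousOn ?_)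
  fun_prop

theorem itemZ2 : ZLoc := by
  intro n X _ _ hX
  have hlc : LocallyCompactSpace X := by
    refine ⟨fun x m hm => ?_⟩
    obtain ⟨φ, y, hφ, rfl⟩ := itemZ2_chart hX x
    have h1 : φ ⁻¹' m ∈ 𝓝 y := hφ.continuous.continuousAt.preimage_mem_nhds hm
    obtain ⟨s, hs, hsn, hsc⟩ := LocallyCompactSpace.local_compact_nhds y _ h1
    exact ⟨φ '' s, hφ.image_mem_nhds.2 hs, image_subset_iff.2 hsn, hsc.image hφ.continuous⟩
  have hlconn : LocallyConnectedSpace X := by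
    rw [locallyConnectedSpace_iff_subsets_isOpen_isConnected]
    intro x m hm
    obtain ⟨φ, y, hφ, rfl⟩ := itemZ2_chart hX x
    have h1 : φ ⁻¹' m ∈ 𝓝 y := hφ.continuous.continuousAt.preimage_mem_nhds hm
    obtain ⟨V, hVn, hVo, hyV, hVc⟩ :=
      locallyConnectedSpace_iff_subsets_isOpen_isConnected.1 (inferInstance :
        LocallyConnectedSpace (EuclideanSpace ℝ (Fin n))) y _ h1
    exact ⟨φ '' V, image_subset_iff.2 hVn, hφ.isOpenMap _ hVo, mem_image_of_mem _ hyV,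
      hVc.image _ hφ.continuous.continuousOn⟩
  have hfc : FirstCountableTopology X := by
    refine ⟨fun x => ?_⟩
    obtain ⟨φ, y, hφ, rfl⟩ := itemZ2_chart hX x
    rw [← hφ.map_nhds_eq]
    infer_instance
  refine ⟨hlc, hlconn, hfc, fun _ => TopologicalSpace.metrizableSpace_of_t3_secondCountable X, ?_⟩
  intro x V hV hx
  obtain ⟨φ, y, hφ, rfl⟩ := itemZ2_chart hX x
  have h1 : φ ⁻¹' V ∈ 𝓝 y := hφ.continuous.continuousAt.preimage_mem_nhds (hV.mem_nhds hx)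
  obtain ⟨ε, hε, hεV⟩ := Metric.nhds_basis_closedBall.mem_iff.1 h1
  have hun : φ '' Metric.ball y ε ∪ φ '' Metric.sphere y ε = φ '' Metric.closedBall y ε := by
    rw [← image_union, Metric.ball_union_sphere]
  refine ⟨φ '' Metric.ball y ε, φ '' Metric.sphere y ε, hφ.isOpenMap _ Metric.isOpen_ball,
    mem_image_of_mem _ (Metric.mem_ball_self hε), (isCompact_sphere y ε).image hφ.continuous,
    ?_, ?_, ?_, fun hn => ⟨?_, ?_⟩⟩
  · rw [hun]
    exact (isCompact_closedBall y ε).image hφ.continuous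
  · rw [hun]
    exact image_subset_iff.2 hεV
  · exact (disjoint_image_iff hφ.injective).2 Metric.sphere_disjoint_ball.symm
  · rw [hun, ← image_singleton, ← image_sdiff hφ.injective]
    exact (itemZ2_punct hn y hε).image _ hφ.continuous.continuousOn
  · have : Nontrivial (EuclideanSpace ℝ (Fin n)) := by
      have : Nonempty (Fin n) := ⟨⟨0, by omega⟩⟩
      infer_instance
    exact (NormedSpace.sphere_nonempty.2 hε.le).image _

end Pool.Agent.Work.MP_ba58b9_gt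

end

section

/-!
# Z3: disjoint open sets meeting the members of the chain
-/

set_option autoImplicit false

open Set Filter Topology Ordinal

namespace Pool.Agent.Work.MP_ba58b9_gt

theorem itemZ3 (h1 : ZFodor) : ZPress := by
  classical
  intro X _ U N hch S hS hlim C hC hne
  by_contra hcon
  push Not at hcon
  have h2 : ∀ α ∈ S, ∃ β < α, (C α ∩ U β).Nonempty := by
    intro α hα
    obtain ⟨x, hx1, hx2⟩ := hne α hα
    obtain ⟨y, hy1, hy2⟩ := mem_closure_iff.1 hx2 (C α) (hC α hα) hx1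
    have h3 := hch.lim α (hlim α hα) hy2
    obtain ⟨β, h4⟩ := mem_iUnion.1 h3
    obtain ⟨hβ, h5⟩ := mem_iUnion.1 h4
    exact ⟨β, hβ, y, hy1, h5⟩
  choose! f hf hfne using h2
  obtain ⟨γ, hγ⟩ := h1.1 S hS f hf
  have hunc : ¬ ({α | α ∈ S ∧ f α = γ}).Countable :=
    h1.2.2.2.1 _ hγ (fun α hα => (hlim α hα.1).1)
  have hne' : ({α | α ∈ S ∧ f α = γ}).Nonempty := by
    by_contra h
    rw [Set.not_nonempty_iff_eq_empty] at h
    rw [h] at hunc
    exact hunc Set.countable_empty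
  have hγ1 : γ < ω₁ := by
    obtain ⟨α, hα1, hα2⟩ := hne'
    rw [← hα2]
    exact (hf α hα1).trans (hlim α hα1).1
  obtain ⟨Q, hQc, hQ⟩ := hch.sep γ hγ1
  have h3 : ∀ α, α ∈ {α | α ∈ S ∧ f α = γ} → ∃ x ∈ Q, x ∈ C α := by
    rintro α ⟨hα, hfα⟩
    obtain ⟨x, hx1, hx2⟩ := hfne α hα
    rw [hfα] at hx2
    obtain ⟨y, hy1, hy2⟩ := mem_closure_iff.1 (hQ hx2) (C α) (hC α hα) hx1
    exact ⟨y, hy2, hy1⟩
  have hX : Nonempty X := by
    obtain ⟨α, hα⟩ := hne'
    obtain ⟨x, _⟩ := h3 α hα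
    exact ⟨x⟩
  choose! q hqQ hqC using h3
  apply hunc
  have hinj : Set.InjOn q {α | α ∈ S ∧ f α = γ} := by
    have key : ∀ α ∈ {α | α ∈ S ∧ f α = γ}, ∀ β ∈ {α | α ∈ S ∧ f α = γ}, α < β →
        q α ≠ q β := by
      intro α hα β hβ hαβ he
      have h4 : q α ∈ C α ∩ C β := ⟨hqC α hα, he ▸ hqC β hβ⟩
      rw [hcon α hα.1 β hβ.1 hαβ] at h4
      exact h4
    intro α hα β hβ he
    rcases lt_trichotomy α β with h | h | h
    · exact absurd he (key α hα β hβ h)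
    · exact h
    · exact absurd he.symm (key β hβ α hα h)
  exact Set.MapsTo.countable_of_injOn (fun α hα => hqQ α hα) hinj hQc

end Pool.Agent.Work.MP_ba58b9_gt

end

section

/-!
# Item Z4: boundaries of most members of the chain have no isolated points
-/

set_option autoImplicit false

open Set Filter Topology Ordinal

namespace Pool.Agent.Work.MP_ba58b9_gt

theorem itemZ4_ne {S : Set Ordinal.{0}} (hS : Stat S) : S.Nonempty := by
  have hC : Club (Iio (ω₁ : Ordinal.{0})) := by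
    refine ⟨fun α h => h, ?_, ?_⟩
    · intro β hβ
      refine ⟨β + 1, ?_, ?_⟩
      · exact (Cardinal.isSuccLimit_omega 1).succ_lt hβ
      · rw [← Order.succ_eq_add_one]
        exact Order.lt_succ β
    · intro δ hδ _ _
      exact hδ
  obtain ⟨α, hα, _⟩ := hS _ hC
  exact ⟨α, hα⟩

/-- One point of the boundary. -/
theorem itemZ4_pt (h2 : ZLoc) {n : ℕ} (hn : 2 ≤ n) {X : Type} [TopologicalSpace X] [T2Space X]
    (hX : LocN n X) {U N : Ordinal.{0} → Set X} (hU : IsChain U N) {α : Ordinal.{0}}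
    (hα : Lim α) (he : ∃ e, Iso (bd (U α)) e) :
    ∃ (e : X) (G Z : Set X) (β : Ordinal.{0}), e ∈ closure (U α) ∧ e ∉ U α ∧ e ∈ G ∧
      IsOpen G ∧ IsCompact Z ∧ IsCompact (G ∪ Z) ∧ Disjoint G Z ∧ G ⊆ N α ∧ β < α ∧
      Z ⊆ U β := by
  obtain ⟨e, heN, heI⟩ := hU.iso α hα.1 he
  obtain ⟨⟨hecl, heU⟩, G', hG'o, heG', hG'⟩ := heI
  obtain ⟨_, _, _, _, hloc⟩ := h2 n X hX
  obtain ⟨G, Z, hGo, heG, hZc, hGZ, hsub, hdis, hpre⟩ :=
    hloc e (N α ∩ G') ((hU.opnN α hα.1).inter hG'o) ⟨heN, heG'⟩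
  obtain ⟨hpre, hZne⟩ := hpre hn
  have heZ : e ∉ Z := fun h => Set.disjoint_left.1 hdis heG h
  have h1 : (G ∪ Z) \ {e} ⊆ U α := by
    refine IsPreconnected.subset_left_of_subset_union (hU.opnU α hα.1)
      (isClosed_closure (s := U α)).isOpen_compl ?_ ?_ ?_ hpre
    · exact Set.disjoint_left.2 fun x hx hx' => hx' (subset_closure hx)
    · rintro x ⟨hx, hxe⟩
      by_cases hxU : x ∈ U α
      · exact Or.inl hxU
      · right
        intro hxc
        exact hxe (hG' ⟨(hsub hx).2, hxc, hxU⟩)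
    · obtain ⟨y, hyG, hyU⟩ := mem_closure_iff.1 hecl G hGo heG
      refine ⟨y, ⟨Or.inl hyG, ?_⟩, hyU⟩
      rintro rfl
      exact heU hyU
  have h3 : Z ⊆ U α := fun x hx => h1 ⟨Or.inr hx, fun h => heZ (h ▸ hx)⟩
  have hne : Nonempty (Iio α) := ⟨⟨0, pos_iff_ne_zero.2 hα.2.1⟩⟩
  obtain ⟨β, hβ⟩ := hZc.elim_directed_cover (fun β : Iio α => U β)
    (fun β => hU.opnU β (β.2.trans hα.1)) (by
      intro x hx
      obtain ⟨β, hβ⟩ := mem_iUnion.1 (hU.lim α hα (h3 hx))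
      obtain ⟨hβα, hβ⟩ := mem_iUnion.1 hβ
      exact mem_iUnion.2 ⟨⟨β, hβα⟩, hβ⟩) (by
      intro β γ
      have hmono : ∀ β γ : Iio α, β ≤ γ → U β ⊆ U γ := by
        intro β γ h
        rcases eq_or_lt_of_le h with h | h
        · rw [h]
        · exact fun x hx => hU.mono β γ h (γ.2.trans hα.1) (Or.inl hx)
      rcases le_total β γ with h | h
      · exact ⟨γ, hmono β γ h, Subset.rfl⟩
      · exact ⟨β, Subset.rfl, hmono γ β h⟩)
  exact ⟨e, G, Z, β, hecl, heU, heG, hGo, hZc, hGZ, hdis, fun x hx => (hsub (Or.inl hx)).1,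
    β.2, hβ⟩

theorem itemZ4 (h1 : ZFodor) (h2 : ZLoc) (h3 : ZPress) : ZIso := by
  classical
  intro n hn X _ _ hX U N hU
  obtain ⟨hF, hFn, hLim, _, hun⟩ := h1
  have hsplit : {α : Ordinal.{0} | Lim α} = {α | Lim α ∧ ∀ e, ¬ Iso (bd (U α)) e} ∪
      {α | Lim α ∧ ∃ e, Iso (bd (U α)) e} := by
    ext α
    constructor
    · intro h
      by_cases he : ∃ e, Iso (bd (U α)) e
      · exact Or.inr ⟨h, he⟩
      · exact Or.inl ⟨h, not_exists.1 he⟩
    · rintro (h | h)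
      · exact h.1
      · exact h.1
  rw [hsplit] at hLim
  rcases hun _ _ hLim with h | hT
  · exact h
  exfalso
  obtain ⟨hlc, hlcon, _, _, _⟩ := h2 n X hX
  have hne : Nonempty X := by
    obtain ⟨α, hα⟩ := itemZ4_ne hT
    obtain ⟨e, _⟩ := hα.2
    exact ⟨e⟩
  have hex : ∀ α : Ordinal.{0}, ∃ (e : X) (G Z : Set X) (β : Ordinal.{0}),
      (Lim α ∧ ∃ e, Iso (bd (U α)) e) → e ∈ closure (U α) ∧ e ∉ U α ∧ e ∈ G ∧
      IsOpen G ∧ IsCompact Z ∧ IsCompact (G ∪ Z) ∧ Disjoint G Z ∧ G ⊆ N α ∧ β < α ∧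
      Z ⊆ U β := by
    intro α
    by_cases h : Lim α ∧ ∃ e, Iso (bd (U α)) e
    · obtain ⟨e, G, Z, β, hh⟩ := itemZ4_pt h2 hn hX hU h.1 h.2
      exact ⟨e, G, Z, β, fun _ => hh⟩
    · exact ⟨Classical.arbitrary X, ∅, ∅, 0, fun h' => absurd h' h⟩
  choose e G Z f hh using hex
  obtain ⟨γ, hγ⟩ := hF _ hT f (fun α hα => (hh α hα).2.2.2.2.2.2.2.2.1)
  obtain ⟨α0, hα0, hα0γ⟩ := itemZ4_ne hγ
  have hγ1 : γ < ω₁ := by
    rw [← hα0γ]
    exact ((hh α0 hα0).2.2.2.2.2.2.2.2.1).trans hα0.1.1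
  obtain ⟨O, hO, hOK⟩ := hU.cof γ hγ1
  have hidx : ∀ α : Ordinal.{0}, ∃ i : ℕ, (α ∈ {α | α ∈ {α | Lim α ∧ ∃ e, Iso (bd (U α)) e} ∧
      f α = γ}) → Z α ⊆ O i := by
    intro α
    by_cases h : α ∈ {α | α ∈ {α | Lim α ∧ ∃ e, Iso (bd (U α)) e} ∧ f α = γ}
    · have hk := hh α h.1
      obtain ⟨i, hi⟩ := hOK (Z α) hk.2.2.2.2.1 (by
        have := hk.2.2.2.2.2.2.2.2.2
        rw [h.2] at this
        exact this)
      exact ⟨i, fun _ => hi⟩
    · exact ⟨0, fun h' => absurd h' h⟩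
  choose ix hix using hidx
  obtain ⟨k, hk⟩ := hFn _ hγ ix
  have hUγ : ∀ α, Lim α → f α = γ → f α < α → closure (O k) ⊆ U α := by
    intro α hα hfα hlt x hx
    rw [hfα] at hlt
    exact hU.mono γ α hlt hα.1 (Or.inl ((hO k).2 hx))
  have hC : ∀ α ∈ {α | α ∈ {α | α ∈ {α | Lim α ∧ ∃ e, Iso (bd (U α)) e} ∧ f α = γ} ∧ ix α = k},
      e α ∈ (closure (O k))ᶜ ∧ e α ∈ connectedComponentIn (closure (O k))ᶜ (e α) ∧
      connectedComponentIn (closure (O k))ᶜ (e α) ⊆ N α := by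
    rintro α ⟨⟨hα, hfα⟩, hiα⟩
    obtain ⟨k1, k2, k3, k4, k5, k6, k7, k8, k9, k10⟩ := hh α hα
    have hmem : e α ∈ (closure (O k))ᶜ := fun hx => k2 (hUγ α hα.1 hfα k9 hx)
    have hmem2 := mem_connectedComponentIn hmem
    refine ⟨hmem, hmem2, ?_⟩
    have hZ : Z α ⊆ closure (O k) := by
      have := hix α ⟨hα, hfα⟩
      rw [hiα] at this
      exact this.trans subset_closure
    have hsub : connectedComponentIn (closure (O k))ᶜ (e α) ⊆ G α := by
      refine IsPreconnected.subset_left_of_subset_union k4 k6.isClosed.isOpen_compl ?_ ?_ ?_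
        isPreconnected_connectedComponentIn
      · exact Set.disjoint_left.2 fun x hx hx' => hx' (Or.inl hx)
      · intro x hx
        by_cases hxG : x ∈ G α
        · exact Or.inl hxG
        · right
          rintro (h | h)
          · exact hxG h
          · exact connectedComponentIn_subset _ _ hx (hZ h)
      · exact ⟨e α, hmem2, k3⟩
    exact hsub.trans k8
  obtain ⟨α, hα, β, hβ, hαβ, z, hzα, hzβ⟩ := h3 X U N hU _ hk (fun α hα => hα.1.1.1)
    (fun α => connectedComponentIn (closure (O k))ᶜ (e α))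
    (fun α _ => isClosed_closure.isOpen_compl.connectedComponentIn)
    (fun α hα => ⟨e α, (hC α hα).2.1, (hh α hα.1.1).1⟩)
  have e1 := connectedComponentIn_eq hzα
  have e2 := connectedComponentIn_eq hzβ
  have h4 : e β ∈ N α := by
    apply (hC α hα).2.2
    rw [e1, ← e2]
    exact (hC β hβ).2.1
  exact (hh β hβ.1.1).2.1 (hU.mono α β hαβ hβ.1.1.1.1 (Or.inr h4))

end Pool.Agent.Work.MP_ba58b9_gt

end

section

/-!
# Item Z5: convergent sequences in the boundary on which the quasi-development is uniform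
-/

set_option autoImplicit false

open Set Filter Topology Ordinal

namespace Pool.Agent.Work.MP_ba58b9_gt

theorem itemZ5 : ZBaire := by
  intro X _ _ _ _ G hG U N hU hN hne hiso
  have hlc : IsLocallyClosed (bd U ∩ N) := by
    have h1 : bd U = closure U ∩ Uᶜ := rfl
    have h2 : IsClosed (bd U) := by
      rw [h1]
      exact isClosed_closure.inter hU.isClosed_compl
    exact h2.isLocallyClosed.inter hN.isLocallyClosed
  have hMlc : LocallyCompactSpace (bd U ∩ N : Set X) := hlc.locallyCompactSpace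
  have hMne : Nonempty (bd U ∩ N : Set X) := hne.to_subtype
  -- the pieces
  let E : ℕ → Set (bd U ∩ N : Set X) := fun k => {x | ∀ g ∈ G k, (x : X) ∈ g → g ⊆ N}
  let Mk : ℕ → Set (bd U ∩ N : Set X) := fun k => {x | (∃ g ∈ G k, (x : X) ∈ g) ∧
    ∀ g ∈ G k, (x : X) ∈ g → g ⊆ N}
  have hE : ∀ k, IsClosed (E k) := by
    intro k
    have h1 : (E k)ᶜ = Subtype.val ⁻¹' (⋃₀ {g | g ∈ G k ∧ ¬ g ⊆ N}) := by
      ext x
      simp only [E, mem_compl_iff, mem_ofPred_eq, mem_preimage, mem_sUnion]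
      push Not
      constructor
      · rintro ⟨g, hg, hx, hgN⟩
        exact ⟨g, ⟨hg, hgN⟩, hx⟩
      · rintro ⟨g, ⟨hg, hgN⟩, hx⟩
        exact ⟨g, hg, hx, hgN⟩
    rw [← isOpen_compl_iff, h1]
    exact (isOpen_sUnion fun g hg => hG.1 k g hg.1).preimage continuous_subtype_val
  have hcov : (⋃ k, closure (Mk k)) = Set.univ := by
    refine eq_univ_of_forall fun x => ?_
    obtain ⟨k, h1, h2⟩ := hG.2 x N hN x.2.2
    exact mem_iUnion.2 ⟨k, subset_closure ⟨h1, h2⟩⟩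
  obtain ⟨k, W0, hW0⟩ := nonempty_interior_of_iUnion_of_closed
    (fun k => isClosed_closure (s := Mk k)) hcov
  have hsub : closure (Mk k) ⊆ E k := closure_minimal (fun x hx => hx.2) (hE k)
  obtain ⟨x0, hx0, hx0'⟩ := mem_closure_iff.1 (interior_subset hW0) _ isOpen_interior hW0
  obtain ⟨O', hO', hO'eq⟩ := isOpen_induced_iff.1 (isOpen_interior (s := closure (Mk k)))
  let O : Set X := O' ∩ N ∩ ⋃₀ (G k)
  have hO : IsOpen O := (hO'.inter hN).inter (isOpen_sUnion fun g hg => hG.1 k g hg)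
  have hOM : ∀ x, x ∈ O → x ∈ bd U → x ∈ bd U ∩ N ∧ (∃ g ∈ G k, x ∈ g) ∧
      ∀ g ∈ G k, x ∈ g → g ⊆ N := by
    intro x hxO hxU
    have hxM : x ∈ bd U ∩ N := ⟨hxU, hxO.1.2⟩
    have h1 : (⟨x, hxM⟩ : (bd U ∩ N : Set X)) ∈ interior (closure (Mk k)) := by
      rw [← hO'eq]
      exact hxO.1.1
    have h2 := hsub (interior_subset h1)
    obtain ⟨g, hg, hxg⟩ := hxO.2
    exact ⟨hxM, ⟨g, hg, hxg⟩, h2⟩
  have hx0O : (x0 : X) ∈ O := by
    refine ⟨⟨?_, x0.2.2⟩, ?_⟩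
    · have h1 : x0 ∈ Subtype.val ⁻¹' O' := by
        rw [hO'eq]
        exact hx0
      exact h1
    · obtain ⟨g, hg, hxg⟩ := hx0'.1
      exact ⟨g, hg, hxg⟩
  have hcl : (x0 : X) ∈ closure ((bd U ∩ O) \ {(x0 : X)}) := by
    rw [mem_closure_iff]
    intro o ho hxo
    by_contra hcon
    refine hiso x0 ⟨x0.2.1, o ∩ O, ho.inter hO, ⟨hxo, hx0O⟩, ?_⟩
    rintro y ⟨⟨hyo, hyO⟩, hyU⟩
    by_contra hy
    exact hcon ⟨y, hyo, ⟨hyU, hyO⟩, hy⟩
  obtain ⟨u, hu, hlim⟩ := mem_closure_iff_seq_limit.1 hcl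
  refine ⟨k, x0, u, fun j hj => (hu j).2 hj, hlim, ?_⟩
  rintro x (rfl | ⟨j, rfl⟩)
  · exact hOM x0 hx0O x0.2.1
  · exact hOM (u j) (hu j).1.2 (hu j).1.1

end Pool.Agent.Work.MP_ba58b9_gt

end

section

/-!
# Item Z6: Ishikawa's characterisation of countable paracompactness
-/

set_option autoImplicit false

open Set Filter Topology Ordinal

namespace Pool.Agent.Work.MP_ba58b9_gt

theorem itemZ6 : ZCP := by
  classical
  intro Y _ hY F hF hanti hempty
  obtain ⟨ι, v, hvo, hvc, hvf, hvr⟩ := hY (fun k => (F k)ᶜ) (fun k => (hF k).isOpen_compl) (by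
    rw [← compl_iInter, hempty, compl_empty])
  choose k hk using hvr
  refine ⟨fun m => ⋃ i, ⋃ (_ : m < k i), v i, ?_, ?_, ?_, ?_⟩
  · intro m
    exact isOpen_iUnion fun i => isOpen_iUnion fun _ => hvo i
  · intro m m' hm
    refine iUnion_mono fun i => ?_
    exact iUnion_subset fun h => subset_iUnion_of_subset (lt_of_le_of_lt hm h) (subset_refl _)
  · intro m x hx
    have hx' : x ∈ ⋃ i, v i := by rw [hvc]; trivial
    obtain ⟨i, hi⟩ := mem_iUnion.1 hx'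
    refine mem_iUnion.2 ⟨i, mem_iUnion.2 ⟨?_, hi⟩⟩
    by_contra hmk
    exact hk i hi (hanti (not_lt.1 hmk) hx)
  · rw [eq_empty_iff_forall_notMem]
    intro x hx
    obtain ⟨t, ht, hfin⟩ := hvf x
    obtain ⟨K, hK⟩ := (hfin.image k).bddAbove
    have h1 := mem_iInter.1 hx K
    rw [mem_closure_iff_nhds] at h1
    obtain ⟨y, hyt, hy⟩ := h1 t ht
    obtain ⟨i, hi⟩ := mem_iUnion.1 hy
    obtain ⟨hKi, hyi⟩ := mem_iUnion.1 hi
    have h2 := hK (mem_image_of_mem k (show i ∈ {i | (v i ∩ t).Nonempty} from ⟨y, hyi, hyt⟩))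
    exact absurd hKi (not_lt.2 h2)

end Pool.Agent.Work.MP_ba58b9_gt

end

section

/-!
# Z7: no chains in hereditarily countably paracompact quasi-developable manifolds
-/

set_option autoImplicit false

open Set Filter Topology Ordinal

namespace Pool.Agent.Work.MP_ba58b9_gt

/-- The data on a stationary set. -/
structure Z7D {X : Type} [TopologicalSpace X] (H : Set (Set X)) (U N : Ordinal.{0} → Set X)
    (S : Set Ordinal.{0}) (d : Ordinal.{0} → X) (u : Ordinal.{0} → ℕ → X) : Prop where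
  lt : ∀ α ∈ S, α < ω₁
  ne : ∀ α ∈ S, ∀ j, u α j ≠ d α
  tend : ∀ α ∈ S, Tendsto (u α) atTop (𝓝 (d α))
  prop : ∀ α ∈ S, ∀ x, (x = d α ∨ ∃ j, x = u α j) → x ∈ bd (U α) ∩ N α ∧ (∃ g ∈ H, x ∈ g) ∧
        ∀ g ∈ H, x ∈ g → g ⊆ N α

theorem z7_key' {X : Type} [TopologicalSpace X] {H : Set (Set X)} {U N : Ordinal.{0} → Set X}
    {S : Set Ordinal.{0}} {d : Ordinal.{0} → X} {u : Ordinal.{0} → ℕ → X} (hc : IsChain U N)
    (h : Z7D H U N S d u) {α β : Ordinal.{0}} (hα : α ∈ S) (hβ : β ∈ S) {x y : X}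
    (hx : x = d α ∨ ∃ j, x = u α j) (hy : y = d β ∨ ∃ j, y = u β j) {g : Set X} (hg : g ∈ H)
    (hxg : x ∈ g) (hyg : y ∈ g) : ¬ α < β := by
  intro hlt
  have h1 : g ⊆ N α := (h.prop α hα x hx).2.2 g hg hxg
  have h2 : U α ∪ N α ⊆ U β := hc.mono α β hlt (h.lt β hβ)
  have h3 : y ∈ bd (U β) := (h.prop β hβ y hy).1.1
  exact h3.2 (h2 (Or.inr (h1 hyg)))

theorem z7_key {X : Type} [TopologicalSpace X] {H : Set (Set X)} {U N : Ordinal.{0} → Set X}
    {S : Set Ordinal.{0}} {d : Ordinal.{0} → X} {u : Ordinal.{0} → ℕ → X} (hc : IsChain U N)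
    (h : Z7D H U N S d u) {α β : Ordinal.{0}} (hα : α ∈ S) (hβ : β ∈ S) {x y : X}
    (hx : x = d α ∨ ∃ j, x = u α j) (hy : y = d β ∨ ∃ j, y = u β j) {g : Set X} (hg : g ∈ H)
    (hxg : x ∈ g) (hyg : y ∈ g) : α = β := by
  rcases lt_trichotomy α β with h1 | h1 | h1
  · exact absurd h1 (z7_key' hc h hα hβ hx hy hg hxg hyg)
  · exact h1
  · exact absurd h1 (z7_key' hc h hβ hα hy hx hg hyg hxg)

/-- The open subspace. -/
def z7Y {X : Type} (H : Set (Set X)) (S : Set Ordinal.{0}) (d : Ordinal.{0} → X) : Set X :=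
  ⋃₀ H \ {x | ∃ α ∈ S, x = d α}

theorem z7_Y_open {X : Type} [TopologicalSpace X] [T2Space X] {H : Set (Set X)}
    {U N : Ordinal.{0} → Set X} {S : Set Ordinal.{0}} {d : Ordinal.{0} → X}
    {u : Ordinal.{0} → ℕ → X} (hH : ∀ g ∈ H, IsOpen g) (hc : IsChain U N)
    (h : Z7D H U N S d u) : IsOpen (z7Y H S d) := by
  rw [isOpen_iff_forall_mem_open]
  rintro y ⟨⟨g, hg, hyg⟩, hy2⟩
  by_cases hex : ∃ α ∈ S, d α ∈ g
  · obtain ⟨α, hα, hαg⟩ := hex
    refine ⟨g \ {d α}, ?_, (hH g hg).sdiff isClosed_singleton, ⟨hyg, ?_⟩⟩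
    · rintro x ⟨hxg, hxd⟩
      refine ⟨⟨g, hg, hxg⟩, ?_⟩
      rintro ⟨β, hβ, rfl⟩
      have : α = β := z7_key hc h hα hβ (Or.inl rfl) (Or.inl rfl) hg hαg hxg
      exact hxd (by rw [this]; rfl)
    · intro hyd
      exact hy2 ⟨α, hα, hyd⟩
  · refine ⟨g, ?_, hH g hg, hyg⟩
    intro x hxg
    refine ⟨⟨g, hg, hxg⟩, ?_⟩
    rintro ⟨β, hβ, rfl⟩
    exact hex ⟨β, hβ, hxg⟩

/-- The closed sets. -/
def z7F {X : Type} (Y : Set X) (S : Set Ordinal.{0}) (u : Ordinal.{0} → ℕ → X) (m : ℕ) : Set Y :=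
  {y | ∃ α ∈ S, ∃ j, m ≤ j ∧ (y : X) = u α j}

theorem z7_F_closed {X : Type} [TopologicalSpace X] [T2Space X] {H : Set (Set X)}
    {U N : Ordinal.{0} → Set X} {S : Set Ordinal.{0}} {d : Ordinal.{0} → X}
    {u : Ordinal.{0} → ℕ → X} (hH : ∀ g ∈ H, IsOpen g) (hc : IsChain U N)
    (h : Z7D H U N S d u) (m : ℕ) : IsClosed (z7F (z7Y H S d) S u m) := by
  rw [← isOpen_compl_iff, isOpen_iff_forall_mem_open]
  rintro ⟨y, hy⟩ hyF
  obtain ⟨⟨g, hg, hyg⟩, hyd⟩ := hy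
  by_cases hex : ∃ α ∈ S, ∃ x, (x = d α ∨ ∃ j, x = u α j) ∧ x ∈ g
  · obtain ⟨α, hα, x, hx, hxg⟩ := hex
    set K : Set X := insert (d α) (range fun j => u α (j + m)) with hK
    have hKc : IsClosed K := by
      have h1 : Tendsto (fun j => u α (j + m)) atTop (𝓝 (d α)) :=
        (h.tend α hα).comp (tendsto_add_atTop_nat m)
      exact h1.isCompact_insert_range.isClosed
    refine ⟨Subtype.val ⁻¹' (g \ K), ?_, ((hH g hg).sdiff hKc).preimage continuous_subtype_val,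
      ⟨hyg, ?_⟩⟩
    · rintro ⟨z, hz⟩ ⟨hzg, hzK⟩
      rintro ⟨β, hβ, j, hj, hzj⟩
      have hzj' : z = u β j := hzj
      have hab : α = β := z7_key hc h hα hβ hx (Or.inr ⟨j, hzj'⟩) hg hxg hzg
      apply hzK
      refine Or.inr ⟨j - m, ?_⟩
      simp only
      rw [Nat.sub_add_cancel hj, hab]
      exact hzj'.symm
    · rintro (hyd' | ⟨j, hj⟩)
      · exact hyd ⟨α, hα, hyd'⟩
      · exact hyF ⟨α, hα, j + m, Nat.le_add_left _ _, hj.symm⟩
  · refine ⟨Subtype.val ⁻¹' g, ?_, (hH g hg).preimage continuous_subtype_val, hyg⟩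
    rintro ⟨z, hz⟩ hzg
    rintro ⟨β, hβ, j, hj, hzj⟩
    exact hex ⟨β, hβ, z, Or.inr ⟨j, hzj⟩, hzg⟩

theorem z7_F_inter {X : Type} [TopologicalSpace X] [T2Space X] {H : Set (Set X)}
    {U N : Ordinal.{0} → Set X} {S : Set Ordinal.{0}} {d : Ordinal.{0} → X}
    {u : Ordinal.{0} → ℕ → X} (hc : IsChain U N)
    (h : Z7D H U N S d u) : (⋂ m, z7F (z7Y H S d) S u m) = ∅ := by
  rw [eq_empty_iff_forall_notMem]
  rintro ⟨y, hy⟩ hyF
  rw [mem_iInter] at hyF
  obtain ⟨⟨g, hg, hyg⟩, hyd⟩ := hy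
  obtain ⟨α, hα, j, -, hj⟩ := hyF 0
  have hj' : y = u α j := hj
  have hyne : y ≠ d α := fun h' => hyd ⟨α, hα, h'⟩
  have hev : ∀ᶠ i in atTop, u α i ∈ ({y}ᶜ : Set X) :=
    (h.tend α hα) (isOpen_compl_singleton.mem_nhds (by
      intro h'
      exact hyne h'.symm))
  obtain ⟨m, hm⟩ := eventually_atTop.mp hev
  obtain ⟨β, hβ, i, hi, hyi⟩ := hyF m
  have hyi' : y = u β i := hyi
  have hab : α = β := z7_key hc h hα hβ (Or.inr ⟨j, hj'⟩) (Or.inr ⟨i, hyi'⟩) hg hyg hyg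
  refine hm i hi ?_
  rw [hab]
  exact hyi'.symm

/-- Z7. -/
theorem itemZ7 (h1 : ZFodor) (h2 : ZLoc) (h3 : ZPress) (h4 : ZIso) (h5 : ZBaire) (h6 : ZCP) :
    ZMain := by
  intro n hn X _ _ hloc hCP G hG U N hc
  obtain ⟨hLC, hLCn, hFC, -, hpt⟩ := h2 n X hloc
  have hS0 := h4 n hn X hloc U N hc
  have hω : (0 : Ordinal.{0}) < ω₁ := Ordinal.omega_pos 1
  obtain ⟨x0, -⟩ := hc.bdN 0 hω
  -- convergent sequences
  have hex : ∀ α : Ordinal.{0}, ∃ (k : ℕ) (d : X) (u : ℕ → X),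
      (Lim α ∧ ∀ e, ¬ Iso (bd (U α)) e) → (∀ j, u j ≠ d) ∧ Tendsto u atTop (𝓝 d) ∧
      ∀ x, (x = d ∨ ∃ j, x = u j) → x ∈ bd (U α) ∩ N α ∧ (∃ g ∈ G k, x ∈ g) ∧
        ∀ g ∈ G k, x ∈ g → g ⊆ N α := by
    intro α
    by_cases hα : Lim α ∧ ∀ e, ¬ Iso (bd (U α)) e
    · obtain ⟨k, d, u, hh⟩ := h5 X G hG (U α) (N α) (hc.opnU α hα.1.1) (hc.opnN α hα.1.1)
        (hc.bdN α hα.1.1) hα.2
      exact ⟨k, d, u, fun _ => hh⟩
    · exact ⟨0, x0, fun _ => x0, fun h => absurd h hα⟩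
  choose kf d u hdu using hex
  obtain ⟨k, hS1⟩ := h1.2.1 _ hS0 kf
  set S1 : Set Ordinal.{0} := {α | α ∈ {α | Lim α ∧ ∀ e, ¬ Iso (bd (U α)) e} ∧ kf α = k} with hS1d
  have hD : Z7D (G k) U N S1 d u := by
    refine ⟨fun α hα => hα.1.1.1, fun α hα => (hdu α hα.1).1, fun α hα => (hdu α hα.1).2.1, ?_⟩
    intro α hα x hx
    have := (hdu α hα.1).2.2 x hx
    rw [hα.2] at this
    exact this
  have hH : ∀ g ∈ G k, IsOpen g := hG.1 k
  set Y : Set X := z7Y (G k) S1 d with hY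
  have hYo : IsOpen Y := z7_Y_open hH hc hD
  have hWa : ∃ W' : ℕ → Set Y, (∀ m, IsOpen (W' m)) ∧ Antitone W' ∧
      (∀ m, z7F Y S1 u m ⊆ W' m) ∧ (⋂ m, closure (W' m)) = ∅ :=
    h6 Y (hCP Y) (z7F Y S1 u) (z7_F_closed hH hc hD)
    (by
      rintro m m' hmm y ⟨α, hα, j, hj, hy⟩
      exact ⟨α, hα, j, hmm.trans hj, hy⟩) (z7_F_inter hc hD)
  obtain ⟨W, hWo, hWanti, hFW, hWe⟩ := hWa
  -- the points u α j are in Y
  have huY : ∀ α ∈ S1, ∀ j, u α j ∈ Y := by
    intro α hα j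
    obtain ⟨g, hg, hgu⟩ := (hD.prop α hα _ (Or.inr ⟨j, rfl⟩)).2.1
    refine ⟨⟨g, hg, hgu⟩, ?_⟩
    rintro ⟨β, hβ, he⟩
    have hab : β = α := z7_key hc hD hβ hα (Or.inl he) (Or.inr ⟨j, rfl⟩) hg hgu hgu
    rw [hab] at he
    exact hD.ne α hα j he
  -- local data
  have hex2 : ∀ α : Ordinal.{0}, ∃ (g Gd Z : Set X) (m j : ℕ), α ∈ S1 →
      g ∈ G k ∧ d α ∈ g ∧ IsOpen Gd ∧ IsCompact (Gd ∪ Z) ∧ Gd ∪ Z ⊆ g ∧ m ≤ j ∧ u α j ∈ Gd ∧
        ∀ w ∈ W m, (w : X) ∉ Z := by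
    intro α
    by_cases hα : α ∈ S1
    · obtain ⟨g, hg, hgd⟩ := (hD.prop α hα _ (Or.inl rfl)).2.1
      obtain ⟨Gd, Z, hGdo, hdGd, hZc, hGZ, hGZg, hdis, -⟩ := hpt (d α) g (hH g hg) hgd
      have hZY : Z ⊆ Y := by
        intro z hz
        refine ⟨⟨g, hg, hGZg (Or.inr hz)⟩, ?_⟩
        rintro ⟨β, hβ, rfl⟩
        have hab : α = β := z7_key hc hD hα hβ (Or.inl rfl) (Or.inl rfl) hg hgd
          (hGZg (Or.inr hz))
        rw [← hab] at hz
        exact (disjoint_left.mp hdis) hdGd hz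
      have hZYc : IsCompact (Subtype.val ⁻¹' Z : Set Y) := by
        rw [Subtype.isCompact_iff]
        have : Subtype.val '' (Subtype.val ⁻¹' Z : Set Y) = Z := by
          rw [Subtype.image_preimage_coe]
          exact inter_eq_right.mpr hZY
        rw [this]
        exact hZc
      obtain ⟨m, hm⟩ := hZYc.elim_directed_family_closed (fun m => closure (W m))
        (fun m => isClosed_closure) (by rw [hWe, inter_empty])
        (by
          intro a b
          exact ⟨max a b, closure_mono (hWanti (le_max_left a b)),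
            closure_mono (hWanti (le_max_right a b))⟩)
      have hev : ∀ᶠ j in atTop, u α j ∈ Gd := hD.tend α hα (hGdo.mem_nhds hdGd)
      obtain ⟨j, hj1, hj2⟩ := (hev.and (eventually_ge_atTop m)).exists
      refine ⟨g, Gd, Z, m, j, fun _ => ⟨hg, hgd, hGdo, hGZ, hGZg, hj2, hj1, ?_⟩⟩
      intro w hw hwZ
      have : w ∈ (Subtype.val ⁻¹' Z : Set Y) ∩ closure (W m) := ⟨hwZ, subset_closure hw⟩
      rw [hm] at this
      exact this
    · exact ⟨∅, ∅, ∅, 0, 0, fun h => absurd h hα⟩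
  choose g Gd Z mf jf hloc2 using hex2
  obtain ⟨c, hS2⟩ := h1.2.1 _ hS1 (fun α => Nat.pair (mf α) (jf α))
  set S2 : Set Ordinal.{0} := {α | α ∈ S1 ∧ Nat.pair (mf α) (jf α) = c} with hS2d
  have hmj : ∀ α ∈ S2, mf α = (Nat.unpair c).1 ∧ jf α = (Nat.unpair c).2 := by
    intro α hα
    rw [← hα.2, Nat.unpair_pair]
    exact ⟨rfl, rfl⟩
  set m := (Nat.unpair c).1 with hm
  set j := (Nat.unpair c).2 with hj
  set W' : Set X := Subtype.val '' W m with hW'
  have hW'o : IsOpen W' := hYo.isOpenEmbedding_subtypeVal.isOpenMap _ (hWo m)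
  have huW : ∀ α ∈ S2, u α j ∈ W' := by
    intro α hα
    obtain ⟨e1, e2⟩ := hmj α hα
    have h7 := (hloc2 α hα.1).2.2.2.2.2.1
    rw [e1, e2] at h7
    exact ⟨⟨u α j, huY α hα.1 j⟩, hFW m ⟨α, hα.1, j, h7, rfl⟩, rfl⟩
  have hCG : ∀ α ∈ S2, connectedComponentIn W' (u α j) ⊆ Gd α := by
    intro α hα
    obtain ⟨e1, e2⟩ := hmj α hα
    obtain ⟨hg1, hg2, hg3, hg4, hg5, hg6, hg7, hg8⟩ := hloc2 α hα.1
    rw [e2] at hg7
    rw [e1] at hg8
    have hcl : IsClosed (Gd α ∪ Z α) := hg4.isClosed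
    refine IsPreconnected.subset_left_of_subset_union hg3 hcl.isOpen_compl ?_ ?_ ?_
      isPreconnected_connectedComponentIn
    · rw [disjoint_left]
      intro x hx hx2
      exact hx2 (Or.inl hx)
    · intro x hx
      by_cases hxG : x ∈ Gd α
      · exact Or.inl hxG
      · refine Or.inr ?_
        rintro (h' | h')
        · exact hxG h'
        · obtain ⟨w, hw, rfl⟩ := connectedComponentIn_subset _ _ hx
          exact hg8 w hw h'
    · exact ⟨u α j, mem_connectedComponentIn (huW α hα), hg7⟩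
  obtain ⟨α, hα, β, hβ, hlt, z, hz1, hz2⟩ := h3 X U N hc S2 hS2 (fun α hα => hα.1.1.1)
    (fun α => connectedComponentIn W' (u α j)) (fun α _ => hW'o.connectedComponentIn)
    (fun α hα => ⟨u α j, mem_connectedComponentIn (huW α hα),
      ((hD.prop α hα.1 _ (Or.inr ⟨j, rfl⟩)).1.1).1⟩)
  have hCC : connectedComponentIn W' (u α j) = connectedComponentIn W' (u β j) :=
    (connectedComponentIn_eq hz1).trans (connectedComponentIn_eq hz2).symm
  have hub : u β j ∈ Gd α := by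
    apply hCG α hα
    rw [hCC]
    exact mem_connectedComponentIn (huW β hβ)
  obtain ⟨hg1, hg2, -, -, hg5, -, -, -⟩ := hloc2 α hα.1
  have hab : α = β := z7_key hc hD hα.1 hβ.1 (Or.inl rfl) (Or.inr ⟨j, rfl⟩) hg1 hg2
    (hg5 (Or.inl hub))
  exact hlt.ne hab

end Pool.Agent.Work.MP_ba58b9_gt

end

section

/-!
# Item Z8: existence of chains
-/

set_option autoImplicit false

open Set Filter Topology Ordinal

namespace Pool.Agent.Work.MP_ba58b9_gt

/-- Countable unions of charts. -/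
def Z8P (n : ℕ) {X : Type} [TopologicalSpace X] (A : Set X) : Prop :=
  ∃ V : Set (Set X), V.Countable ∧
    (∀ v ∈ V, IsOpen v ∧ Nonempty (v ≃ₜ EuclideanSpace ℝ (Fin n))) ∧ A = ⋃₀ V

theorem Z8P.isOpen {n : ℕ} {X : Type} [TopologicalSpace X] {A : Set X} (h : Z8P n A) :
    IsOpen A := by
  obtain ⟨V, _, h2, rfl⟩ := h
  exact isOpen_sUnion fun v hv => (h2 v hv).1

theorem Z8P.sep {n : ℕ} {X : Type} [TopologicalSpace X] {A : Set X} (h : Z8P n A) :
    ∃ Q : Set X, Q.Countable ∧ A ⊆ closure Q := by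
  obtain ⟨V, h1, h2, rfl⟩ := h
  have h3 : ∀ v ∈ V, TopologicalSpace.IsSeparable v := by
    intro v hv
    obtain ⟨e⟩ := (h2 v hv).2
    have : SecondCountableTopology v := e.secondCountableTopology
    exact TopologicalSpace.IsSeparable.of_subtype v
  have := h1.to_subtype
  have h4 : TopologicalSpace.IsSeparable (⋃ v : V, (v : Set X)) :=
    TopologicalSpace.IsSeparable.iUnion fun v => h3 v v.2
  rw [sUnion_eq_iUnion]
  exact h4

theorem Z8P.sigma {n : ℕ} {X : Type} [TopologicalSpace X] {A : Set X} (h : Z8P n A) :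
    IsSigmaCompact A := by
  obtain ⟨V, h1, h2, rfl⟩ := h
  apply isSigmaCompact_sUnion _ h1
  rintro ⟨v, hv⟩
  obtain ⟨e⟩ := (h2 v hv).2
  rw [isSigmaCompact_iff_sigmaCompactSpace]
  have h3 : IsSigmaCompact (Set.range e.symm) := isSigmaCompact_range e.symm.continuous
  rw [e.symm.surjective.range_eq] at h3
  exact isSigmaCompact_univ_iff.mp h3

theorem Z8P.second {n : ℕ} {X : Type} [TopologicalSpace X] (h : Z8P n (Set.univ : Set X)) :
    SecondCountableTopology X := by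
  obtain ⟨V, h1, h2, h3⟩ := h
  have := h1.to_subtype
  have : ∀ v : V, SecondCountableTopology (v : Set X) := by
    intro v
    obtain ⟨e⟩ := (h2 v v.2).2
    exact e.secondCountableTopology
  exact TopologicalSpace.secondCountableTopology_of_countable_cover
    (U := fun v : V => (v : Set X)) (fun v => (h2 v v.2).1) (by rw [← sUnion_eq_iUnion]; exact h3.symm)

theorem Z8P.cof {n : ℕ} {X : Type} [TopologicalSpace X] [T2Space X] [LocallyCompactSpace X]
    {A : Set X} (h : Z8P n A) :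
    ∃ O : ℕ → Set X, (∀ i, IsOpen (O i) ∧ closure (O i) ⊆ A) ∧
      ∀ K : Set X, IsCompact K → K ⊆ A → ∃ i, K ⊆ O i := by
  have hA := h.isOpen
  obtain ⟨K, hK, hKA⟩ := h.sigma
  have h1 : ∀ i, ∃ O : Set X, IsOpen O ∧ K i ⊆ O ∧ closure O ⊆ A := by
    intro i
    obtain ⟨O, hO, hKO, hOA, _⟩ := exists_open_between_and_isCompact_closure (hK i) hA
      (by rw [← hKA]; exact subset_iUnion K i)
    exact ⟨O, hO, hKO, hOA⟩
  choose O hO hKO hOA using h1
  refine ⟨fun i => ⋃ j ∈ Finset.range (i + 1), O j, ?_, ?_⟩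
  · intro i
    constructor
    · exact isOpen_biUnion fun j _ => hO j
    · rw [Finset.closure_biUnion]
      exact iUnion₂_subset fun j _ => hOA j
  · intro L hL hLA
    have h2 : L ⊆ ⋃ i, (⋃ j ∈ Finset.range (i + 1), O j) := by
      intro x hx
      have := hLA hx
      rw [← hKA] at this
      obtain ⟨i, hi⟩ := mem_iUnion.mp this
      refine mem_iUnion.mpr ⟨i, mem_iUnion₂.mpr ⟨i, by simp, hKO i hi⟩⟩
    obtain ⟨i, hi⟩ := hL.elim_directed_cover (fun i => ⋃ j ∈ Finset.range (i + 1), O j)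
      (fun i => isOpen_biUnion fun j _ => hO j) h2 (by
        apply Monotone.directed_le
        intro i j hij
        apply biUnion_subset_biUnion_left
        intro k hk
        simp only [Finset.coe_range, mem_Iio] at hk ⊢
        simp at hk ⊢
        omega)
    exact ⟨i, hi⟩

theorem z8_nx {n : ℕ} {X : Type} [TopologicalSpace X] (hX : LocN n X) (A : Set X) :
    ∃ N : Set X, (bd A).Nonempty → (IsOpen N ∧ Nonempty (N ≃ₜ EuclideanSpace ℝ (Fin n)) ∧
      (bd A ∩ N).Nonempty ∧ ((∃ e, Iso (bd A) e) → ∃ e ∈ N, Iso (bd A) e)) := by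
  by_cases h : ∃ e, Iso (bd A) e
  · obtain ⟨e, he⟩ := h
    obtain ⟨N, h1, h2, h3⟩ := hX e
    exact ⟨N, fun _ => ⟨h1, h3, ⟨e, he.1, h2⟩, fun _ => ⟨e, h2, he⟩⟩⟩
  · by_cases hb : (bd A).Nonempty
    · obtain ⟨e, he⟩ := hb
      obtain ⟨N, h1, h2, h3⟩ := hX e
      exact ⟨N, fun _ => ⟨h1, h3, ⟨e, he, h2⟩, fun h' => absurd h' h⟩⟩
    · exact ⟨∅, fun h' => absurd h' hb⟩

theorem z8_countable_Iio {α : Ordinal.{0}} (h : α < ω₁) : (Iio α).Countable := by
  rw [← Cardinal.le_aleph0_iff_set_countable, Cardinal.mk_Iio_ordinal, Cardinal.lift_le_aleph0,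
    ← Order.lt_succ_iff, Cardinal.succ_aleph0, ← Cardinal.lt_ord, Cardinal.ord_aleph]
  exact h

theorem itemZ8 (h1 : ZLoc) : ZChain := by
  intro n X _ _ hX hconn hnsc
  obtain ⟨hlc, -, -, -, -⟩ := h1 n X hX
  choose nx hnx using z8_nx hX
  obtain ⟨x0⟩ := hconn.toNonempty
  obtain ⟨U0, hU0, hx0, hE0⟩ := hX x0
  let U : Ordinal.{0} → Set X := WellFounded.fix Ordinal.lt_wf
    (fun α F => U0 ∪ ⋃ β, ⋃ (h : β < α), (F β h ∪ nx (F β h)))
  have hU : ∀ α, U α = U0 ∪ ⋃ β, ⋃ (_ : β < α), (U β ∪ nx (U β)) := by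
    intro α
    exact WellFounded.fix_eq Ordinal.lt_wf _ α
  have hbd : ∀ α, Z8P n (U α) → (bd (U α)).Nonempty := by
    intro α hP
    by_contra hne
    rw [not_nonempty_iff_eq_empty] at hne
    have h2 : IsClosed (U α) := by
      rw [← closure_subset_iff_isClosed]
      intro x hx
      by_contra hxU
      have : x ∈ bd (U α) := ⟨hx, hxU⟩
      rw [hne] at this
      exact this
    have h3 : IsClopen (U α) := ⟨h2, hP.isOpen⟩
    rcases isClopen_iff.mp h3 with h4 | h4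
    · have : x0 ∈ U α := by
        rw [hU α]; exact Or.inl hx0
      rw [h4] at this
      exact this
    · rw [h4] at hP
      exact hnsc hP.second
  have hP : ∀ α, α < ω₁ → Z8P n (U α) := by
    intro α
    induction α using WellFounded.induction Ordinal.lt_wf with
    | _ α ih =>
    intro hα
    have ih' : ∀ β : Iio α, ∃ V : Set (Set X), V.Countable ∧
        (∀ v ∈ V, IsOpen v ∧ Nonempty (v ≃ₜ EuclideanSpace ℝ (Fin n))) ∧ U β = ⋃₀ V :=
      fun β => ih β β.2 (lt_trans β.2 hα)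
    choose V hV1 hV2 hV3 using ih'
    have hcount : Countable (Iio α) := by
      exact (z8_countable_Iio hα).to_subtype
    refine ⟨{U0} ∪ ⋃ β : Iio α, (V β ∪ {nx (U β)}), ?_, ?_, ?_⟩
    · refine (countable_singleton _).union (countable_iUnion fun β => (hV1 β).union
        (countable_singleton _))
    · intro v hv
      rcases hv with hv | hv
      · rw [mem_singleton_iff] at hv
        rw [hv]
        exact ⟨hU0, hE0⟩
      · obtain ⟨β, hβ⟩ := mem_iUnion.mp hv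
        rcases hβ with hβ | hβ
        · exact hV2 β v hβ
        · rw [mem_singleton_iff] at hβ
          rw [hβ]
          have := hnx (U β) (hbd β ⟨V β, hV1 β, hV2 β, hV3 β⟩)
          exact ⟨this.1, this.2.1⟩
    · rw [hU α, sUnion_union, sUnion_singleton, sUnion_iUnion]
      congr 1
      rw [iUnion_subtype]
      apply iUnion_congr
      intro β
      apply iUnion_congr
      intro hβ
      rw [sUnion_union, sUnion_singleton, ← hV3 ⟨β, hβ⟩]
  have hmono : ∀ β α, β < α → U β ∪ nx (U β) ⊆ U α := by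
    intro β α hβ x hx
    rw [hU α]
    exact Or.inr (mem_iUnion₂.mpr ⟨β, hβ, hx⟩)
  refine ⟨U, fun α => nx (U α), ?_⟩
  constructor
  · exact fun α hα => (hP α hα).isOpen
  · exact fun α hα => (hnx _ (hbd α (hP α hα))).1
  · exact fun α hα => (hP α hα).sep
  · exact fun α hα => (hP α hα).cof
  · exact fun β α hβ _ => hmono β α hβ
  · intro α hα x hx
    rw [hU α] at hx
    rcases hx with hx | hx
    · refine mem_iUnion₂.mpr ⟨0, pos_iff_ne_zero.mpr hα.2.1, ?_⟩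
      rw [hU 0]
      exact Or.inl hx
    · obtain ⟨β, hβ, hx'⟩ := mem_iUnion₂.mp hx
      exact mem_iUnion₂.mpr ⟨β + 1, hα.2.2 β hβ, hmono β (β + 1) (lt_add_one β) hx'⟩
  · exact fun α hα => (hnx _ (hbd α (hP α hα))).2.2.1
  · exact fun α hα => (hnx _ (hbd α (hP α hα))).2.2.2

end Pool.Agent.Work.MP_ba58b9_gt

end
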