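import Pool.Agent.Work.MP_ba58b9_gt.Stmts

/-! Bundle of small proof modules (one section per former module). -/

section

/-!
# Item C1: bases and codes of relatively closed sets
-/

set_option autoImplicit false

open Set Filter Topology Ordinal

namespace Pool.Agent.Work.MP_ba58b9_gt

theorem exists_base (M : Set Om) (hM : Good M) : ∃ b, IsBaseOf M b := by
  have := hM.sc
  obtain ⟨b, hc, -, hb⟩ := TopologicalSpace.exists_countable_basis M
  obtain ⟨f, hf⟩ := (hc.insert ∅).exists_eq_range ⟨∅, Set.mem_insert _ _⟩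
  have hop : ∀ k, ∃ g : Set Om, IsOpen g ∧ (Subtype.val : M → Om) ⁻¹' g = f k := by
    intro k
    have hk : f k ∈ insert ∅ b := by rw [hf]; exact ⟨k, rfl⟩
    have ho : IsOpen (f k) := by
      rcases hk with hk | hk
      · rw [hk]; exact isOpen_empty
      · exact hb.isOpen hk
    exact isOpen_induced_iff.mp ho
  choose g hg1 hg2 using hop
  refine ⟨g, hg1, ?_⟩
  rintro G hG p ⟨hpG, hpM⟩
  have hG' : IsOpen ((Subtype.val : M → Om) ⁻¹' G) := hG.preimage continuous_subtype_val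
  obtain ⟨s, hs, hps, hsG⟩ := hb.exists_subset_of_mem_open (a := ⟨p, hpM⟩) hpG hG'
  have hs' : s ∈ range f := by rw [← hf]; exact Set.mem_insert_of_mem _ hs
  obtain ⟨k, rfl⟩ := hs'
  refine ⟨k, ?_, ?_⟩
  · rw [← hg2] at hps
    exact hps
  · rintro q ⟨hq, hqM⟩
    have hq' : (⟨q, hqM⟩ : M) ∈ f k := by
      rw [← hg2]
      exact hq
    exact hsG hq'

/-- Item C1. -/
theorem itemC1 : SBase := by
  constructor
  · intro M hM
    have h := exists_base M hM
    unfold base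
    rw [dif_pos h]
    exact h.choose_spec
  · intro M hb T hT hcl
    refine ⟨{k | Disjoint (base M k) T}, ?_⟩
    apply Set.Subset.antisymm
    · rintro p ⟨hpM, hp⟩
      by_contra hpT
      have hpc : p ∉ closure T := fun h => hpT (hcl ⟨h, hpM⟩)
      obtain ⟨k, hk, hkG⟩ := hb.2 (closure T)ᶜ isClosed_closure.isOpen_compl p ⟨hpc, hpM⟩
      apply hp
      refine Set.mem_iUnion₂.mpr ⟨k, ?_, hk⟩
      show Disjoint (base M k) T
      rw [Set.disjoint_left]
      intro x hx hxT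
      exact hkG ⟨hx, hT hxT⟩ (subset_closure hxT)
    · intro p hp
      refine ⟨hT hp, ?_⟩
      intro hp'
      obtain ⟨k, hk, hkp⟩ := Set.mem_iUnion₂.mp hp'
      exact Set.disjoint_left.mp hk hkp hp

end Pool.Agent.Work.MP_ba58b9_gt

end

section

/-!
# Item C2: every real is guessed by a diamond sequence
-/

set_option autoImplicit false

open Set Filter Topology Ordinal

namespace Pool.Agent.Work.MP_ba58b9_gt

/-- The set of infinite countable ordinals is club. -/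
theorem club_omega_le : Club {α : Ordinal.{0} | ω ≤ α ∧ α < ω₁} := by
  refine ⟨fun α h => h.2, ?_, ?_⟩
  · intro β hβ
    refine ⟨Order.succ (max β ω), ⟨?_, ?_⟩, ?_⟩
    · exact (le_max_right β ω).trans (Order.le_succ _)
    · have h1 : max β ω < ω₁ := max_lt hβ omega0_lt_omega_one
      exact (Cardinal.isSuccLimit_omega 1).succ_lt h1
    · exact lt_of_le_of_lt (le_max_left β ω) (Order.lt_succ _)
  · intro δ hδ h0 h
    obtain ⟨γ, hγ, -, hγδ⟩ := h 0 (pos_iff_ne_zero.2 h0)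
    exact ⟨hγ.1.trans hγδ.le, hδ⟩

theorem itemC2 : SCode := by
  intro D hD c
  obtain ⟨α, hα, h⟩ := hD {x : Ordinal.{0} | ∃ k ∈ c, x = (k : Ordinal.{0})}
    {α : Ordinal.{0} | ω ≤ α ∧ α < ω₁} club_omega_le
  refine ⟨α, hα.2, ?_⟩
  ext k
  have hk : (k : Ordinal.{0}) < α := (natCast_lt_omega0 k).trans_le hα.1
  have h1 := Set.ext_iff.1 h (k : Ordinal.{0})
  constructor
  · intro hm
    obtain ⟨⟨j, hj, hjk⟩, -⟩ := h1.2 ⟨hm, hk⟩
    have : k = j := by exact_mod_cast hjk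
    exact this ▸ hj
  · intro hm
    exact (h1.1 ⟨⟨k, hm, rfl⟩, hk⟩).1

end Pool.Agent.Work.MP_ba58b9_gt

end

section

/-!
# C3: guessing `ω₁`-sequences of reals
-/

set_option autoImplicit false

open Set Filter Topology Ordinal

namespace Pool.Agent.Work.MP_ba58b9_gt

theorem C3_lt {η : Ordinal.{0}} (h : η < ω₁) : ω * η + ω < ω₁ := by
  rw [Cardinal.lt_omega_iff_card_lt] at h ⊢
  have h1 : η.card ≤ Cardinal.aleph0 := by
    rw [← Cardinal.lt_aleph_one_iff]
    exact h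
  rw [card_add, card_mul, card_omega0]
  refine lt_of_le_of_lt ?_ Cardinal.aleph0_lt_aleph_one
  calc Cardinal.aleph0 * η.card + Cardinal.aleph0
      ≤ Cardinal.aleph0 * Cardinal.aleph0 + Cardinal.aleph0 := by gcongr
    _ = Cardinal.aleph0 := by simp

theorem C3_inj {η η' : Ordinal.{0}} {k k' : ℕ} (h : ω * η + (k : Ordinal.{0}) = ω * η' + k') :
    η = η' ∧ k = k' := by
  have hk : (k : Ordinal.{0}) < ω := natCast_lt_omega0 k
  have hk' : (k' : Ordinal.{0}) < ω := natCast_lt_omega0 k'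
  constructor
  · have h1 := congrArg (· / ω) h
    simpa [mul_add_div _ omega0_ne_zero, div_eq_zero_of_lt hk, div_eq_zero_of_lt hk'] using h1
  · have h1 := congrArg (· % ω) h
    simp only [mul_add_mod_self, mod_eq_of_lt hk, mod_eq_of_lt hk'] at h1
    exact_mod_cast h1

theorem itemC3 : SGuess := by
  intro D hD g C hC
  obtain ⟨hC1, hC2, hC3⟩ := hC
  let X : Set Ordinal.{0} := {x | ∃ (η : Ordinal.{0}) (k : ℕ), k ∈ g η ∧ x = ω * η + k}
  let C' : Set Ordinal.{0} := {α | α ∈ C ∧ ∀ η < α, ω * η + ω ≤ α}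
  have hC' : Club C' := by
    refine ⟨fun α h => hC1 α h.1, ?_, ?_⟩
    · intro β hβ
      have step : ∀ γ : Ordinal.{0}, ∃ δ : Ordinal.{0}, γ < ω₁ → δ ∈ C ∧ γ < δ ∧
          ω * γ + ω < δ := by
        intro γ
        by_cases h : γ < ω₁
        · obtain ⟨δ, h1, h2⟩ := hC2 (max γ (ω * γ + ω)) (max_lt h (C3_lt h))
          exact ⟨δ, fun _ => ⟨h1, (le_max_left _ _).trans_lt h2, (le_max_right _ _).trans_lt h2⟩⟩
        · exact ⟨0, fun h' => absurd h' h⟩
      choose nx hnx using step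
      let sq : ℕ → Ordinal.{0} := fun n => Nat.rec (nx β) (fun _ x => nx x) n
      have sqs : ∀ n, sq (n + 1) = nx (sq n) := fun n => rfl
      have hsC : ∀ n, sq n ∈ C := by
        intro n
        induction n with
        | zero => exact (hnx β hβ).1
        | succ n ih => rw [sqs]; exact (hnx _ (hC1 _ ih)).1
      have hs1 : ∀ n, sq n < ω₁ := fun n => hC1 _ (hsC n)
      have hlt : ∀ n, sq n < sq (n + 1) ∧ ω * sq n + ω < sq (n + 1) := fun n => by
        rw [sqs]; exact (hnx _ (hs1 n)).2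
      have hsup : (⨆ n, sq n) < ω₁ := Ordinal.iSup_lt_omega_one hs1
      have hle : ∀ n, sq n ≤ ⨆ n, sq n := fun n => Ordinal.le_iSup sq n
      have hlt' : ∀ n, sq n < ⨆ n, sq n := fun n => (hlt n).1.trans_le (hle (n + 1))
      have hβs : β < ⨆ n, sq n := ((hnx β hβ).2.1).trans_le (hle 0)
      refine ⟨⨆ n, sq n, ⟨hC3 _ hsup (fun h => ?_) ?_, ?_⟩, hβs⟩
      · rw [h] at hβs
        exact absurd hβs (by simp)
      · intro b hb
        obtain ⟨n, hn⟩ := (Ordinal.lt_iSup_iff (f := sq)).1 hb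
        exact ⟨sq n, hsC n, hn, hlt' n⟩
      · intro η hη
        obtain ⟨n, hn⟩ := (Ordinal.lt_iSup_iff (f := sq)).1 hη
        have h1 : ω * η + ω ≤ ω * sq n + ω := by gcongr
        exact h1.trans ((hlt n).2.le.trans (hle (n + 1)))
    · intro δ hδ h0 hlim
      refine ⟨hC3 δ hδ h0 fun b hb => ?_, ?_⟩
      · obtain ⟨γ, h1, h2⟩ := hlim b hb
        exact ⟨γ, h1.1, h2⟩
      · intro η hη
        obtain ⟨γ, h1, h2, h3⟩ := hlim η hη
        exact (h1.2 η h2).trans h3.le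
  obtain ⟨α, hα, hg⟩ := hD X C' hC'
  refine ⟨α, hα.1, fun η hη => ?_⟩
  ext k
  have hlt : ω * η + (k : Ordinal.{0}) < α := by
    refine lt_of_lt_of_le ?_ (hα.2 η hη)
    gcongr
    exact natCast_lt_omega0 k
  have h1 : ω * η + (k : Ordinal.{0}) ∈ D α ↔ ω * η + (k : Ordinal.{0}) ∈ X := by
    have h2 : ω * η + (k : Ordinal.{0}) ∈ X ∩ Iio α ↔ ω * η + (k : Ordinal.{0}) ∈ D α ∩ Iio α := by
      rw [hg]
    constructor
    · intro h
      exact (h2.2 ⟨h, hlt⟩).1
    · intro h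
      exact (h2.1 ⟨h, hlt⟩).1
  show ω * η + (k : Ordinal.{0}) ∈ D α ↔ k ∈ g η
  rw [h1]
  constructor
  · rintro ⟨η', k', hk', he⟩
    obtain ⟨rfl, rfl⟩ := C3_inj he
    exact hk'
  · intro h
    exact ⟨η, k, h, rfl⟩

end Pool.Agent.Work.MP_ba58b9_gt

end

section

set_option autoImplicit false

open Set Filter Topology Ordinal

namespace Pool.Agent.Work.MP_ba58b9_gt

/-- C4: small closed sets are eventually candidates. -/
theorem itemC4 (h1 : SBase) (h2 : SCode) : SCand := by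
  intro D S hD hT β hβ T hTM hTcl hdis
  obtain ⟨P, -, -, -, hstep⟩ := hT β hβ
  have hgood : Good (S β).M := hstep.valid.good
  obtain ⟨c, hc⟩ := h1.2 (S β).M (h1.1 (S β).M hgood) T hTM hTcl
  obtain ⟨ξ, hξ, hξc⟩ := h2 D hD c
  have hlim : ∀ α : Ordinal.{0}, α < ω₁ → Order.succ α < ω₁ := fun α hα =>
    (Cardinal.isSuccLimit_omega 1).succ_lt hα
  refine ⟨max (Order.succ β) (Order.succ ξ), max_lt (hlim β hβ) (hlim ξ hξ), ?_⟩
  intro α hα _
  have hβα : β < α := lt_of_lt_of_le (Order.lt_succ β) (le_trans (le_max_left _ _) hα)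
  have hξα : ξ < α := lt_of_lt_of_le (Order.lt_succ ξ) (le_trans (le_max_right _ _) hα)
  left
  refine ⟨β, hβα, ξ, hξα, ?_⟩
  rw [hξc, hc]
  rcases hdis with h | h
  · left
    exact (h.sdiff_eq_left).symm
  · right
    exact (h.sdiff_eq_left).symm

end Pool.Agent.Work.MP_ba58b9_gt

end

section

/-!
# Item F1: the stages are valid, and there are transitions between them
-/

set_option autoImplicit false

open Set Filter Topology Ordinal

namespace Pool.Agent.Work.MP_ba58b9_gt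

theorem itemF1 (h1 : STransComp) : SF1 := by
  intro D S hS
  have hv : ∀ α < ω₁, (S α).Valid := by
    intro α hα
    obtain ⟨P, -, -, -, h⟩ := hS α hα
    exact h.valid
  refine ⟨hv, ?_, ?_⟩
  · intro β α hβ hα
    rcases hβ.lt_or_eq with h | h
    · obtain ⟨P, hP, -, h2, h3⟩ := hS α hα
      exact h1.2.1 _ _ _ (hv β (h.trans hα)) hP (hv α hα) (h2 β h) h3.trans
    · subst h
      exact h1.1 _ (hv β hα)
  · intro α hα
    obtain ⟨P, hP, hM, h2, h3⟩ := hS α hα
    refine ⟨P.swap, h1.2.2.1 P hP, hM, fun β hβ => h1.2.2.2.1 _ _ (h2 β hβ), ?_⟩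
    have hc : cand D α (fun α => (S α).swap) = cand D α S := by
      unfold cand
      congr 1
      ext T
      simp only [mem_setOf_eq, Stage.swap]
      constructor
      · rintro ⟨β, hβ, ξ, hξ, h⟩
        exact ⟨β, hβ, ξ, hξ, h.symm⟩
      · rintro ⟨β, hβ, ξ, hξ, h⟩
        exact ⟨β, hβ, ξ, hξ, h.symm⟩
    rw [hc]
    exact h1.2.2.2.2 _ _ _ h3

end Pool.Agent.Work.MP_ba58b9_gt

end

section

/-!
# F10: the final space is not normal
-/

set_option autoImplicit false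

open Set Filter Topology Ordinal

namespace Pool.Agent.Work.MP_ba58b9_gt

theorem F10_anti {s : Stage} (hs : s.Valid) : Antitone s.U := by
  apply antitone_nat_of_succ_le
  intro n p hp
  have h1 : (⟨p, hs.subU _ hp⟩ : s.M) ∈ s.st.U (n + 1) := hp
  exact hs.st.endA.reg n (subset_closure h1)

theorem F10_antiV {s : Stage} (hs : s.Valid) : Antitone s.V := by
  apply antitone_nat_of_succ_le
  intro n p hp
  have h1 : (⟨p, hs.subV _ hp⟩ : s.M) ∈ s.st.V (n + 1) := hp
  exact hs.st.endB.reg n (subset_closure h1)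

/-- The union of the two ends is preconnected. -/
theorem F10_conn {s : Stage} (hs : s.Valid) (n : ℕ) : IsPreconnected (s.U n ∪ s.V n) := by
  have h1 : IsPreconnected (s.st.U n ∪ s.st.V n) := by
    obtain ⟨x, hx1, hx2⟩ := hs.st.join n
    exact IsPreconnected.union x hx1 hx2 (hs.st.endA.conn n).isPreconnected
      (hs.st.endB.conn n).isPreconnected
  have h2 := h1.image Subtype.val continuous_subtype_val.continuousOn
  convert h2 using 1
  ext p
  simp only [mem_image, Subtype.exists, exists_and_right, exists_eq_right]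
  constructor
  · rintro (h | h)
    · exact ⟨hs.subU n h, Or.inl h⟩
    · exact ⟨hs.subV n h, Or.inr h⟩
  · rintro ⟨_, h | h⟩
    · exact Or.inl h
    · exact Or.inr h

theorem itemF10 (h1 : SF1) (h3 : SF3) (h4 : SF4) : SF10 := by
  intro D S hD hT hnorm
  obtain ⟨hval, htr, hsw⟩ := h1 D S hT
  obtain ⟨hAα, hAM, hAcl, hAB, hnew, -⟩ := h3 D S hT
  obtain ⟨hBα, hBM, hBcl, -, -, -⟩ := h3 D _ hsw
  have hBM' : Binf S ⊆ Minf S := hBM
  have hBcl' : closure (Binf S) ∩ Minf S ⊆ Binf S := hBcl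
  have hω : (0 : Ordinal.{0}) < ω₁ := omega_pos 1
  -- the closed sets in the subtype
  have cA : IsClosed ((Subtype.val ⁻¹' Ainf S : Set (Minf S))) := by
    rw [← closure_subset_iff_isClosed]
    intro x hx
    refine hAcl ⟨?_, x.2⟩
    exact closure_mono (image_preimage_subset _ _) (closure_subtype.1 hx)
  have cB : IsClosed ((Subtype.val ⁻¹' Binf S : Set (Minf S))) := by
    rw [← closure_subset_iff_isClosed]
    intro x hx
    refine hBcl' ⟨?_, x.2⟩
    exact closure_mono (image_preimage_subset _ _) (closure_subtype.1 hx)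
  obtain ⟨G, H, hG, hH, hAG, hBH, hGH⟩ := hnorm.normal _ _ cA cB (hAB.preimage _)
  have hGH' : Disjoint (closure G) H := hGH.closure_left hH
  set E : Set Om := Subtype.val '' (closure G \ G) with hE
  have hEcl : closure E ∩ Minf S ⊆ E := by
    rintro p ⟨hp, hpM⟩
    have h5 : (⟨p, hpM⟩ : Minf S) ∈ closure (closure G \ G) := closure_subtype.2 hp
    have h6 : IsClosed (closure G \ G) := isClosed_closure.sdiff hG
    rw [h6.closure_eq] at h5
    exact ⟨_, h5, rfl⟩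
  have hEM : E ⊆ Minf S := by
    rintro _ ⟨x, -, rfl⟩
    exact x.2
  have hEA : Disjoint E (Ainf S) := by
    rw [Set.disjoint_left]
    rintro _ ⟨x, hx, rfl⟩ hxA
    exact hx.2 (hAG hxA)
  have hEB : Disjoint E (Binf S) := by
    rw [Set.disjoint_left]
    rintro _ ⟨x, hx, rfl⟩ hxB
    exact Set.disjoint_left.1 hGH' hx.1 (hBH hxB)
  have hE0 : E ⊆ (S 0).M := by
    intro p hp
    by_contra h0
    rcases hnew ⟨hEM hp, h0⟩ with h | h
    · exact Set.disjoint_left.1 hEA hp h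
    · exact Set.disjoint_left.1 hEB hp h
  have sub0A : (S 0).A ⊆ Ainf S := fun p hp => mem_iUnion₂.2 ⟨0, hω, hp⟩
  have sub0B : (S 0).B ⊆ Binf S := fun p hp => mem_iUnion₂.2 ⟨0, hω, hp⟩
  obtain ⟨γ, hγ, -, hγ'⟩ := h4 D S hD hT 0 hω E hE0 (hEA.mono_right sub0A)
    (hEcl.trans subset_union_left)
  obtain ⟨δ, hδ, -, hδ'⟩ := h4 D _ hD hsw 0 hω E hE0 (hEB.mono_right sub0B)
    (Subset.trans hEcl subset_union_left)
  have hα : max γ δ < ω₁ := max_lt hγ hδ
  obtain ⟨n1, hn1⟩ := hγ' (max γ δ) (le_max_left _ _) hα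
  obtain ⟨n2, hn2⟩ := hδ' (max γ δ) (le_max_right _ _) hα
  have hv := hval (max γ δ) hα
  have hn2' : Disjoint E ((S (max γ δ)).V n2) := hn2
  have hMsub : (S (max γ δ)).M ⊆ Minf S := fun p hp => mem_iUnion₂.2 ⟨_, hα, hp⟩
  set n := max n1 n2 with hn
  have hdU : Disjoint E ((S (max γ δ)).U n) := hn1.mono_right (F10_anti hv (le_max_left _ _))
  have hdV : Disjoint E ((S (max γ δ)).V n) := hn2'.mono_right (F10_antiV hv (le_max_right _ _))
  have hC : IsPreconnected (Subtype.val ⁻¹' ((S (max γ δ)).U n ∪ (S (max γ δ)).V n) :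
      Set (Minf S)) := by
    rw [← Topology.IsInducing.subtypeVal.isPreconnected_image, Subtype.image_preimage_coe,
      inter_eq_right.2]
    · exact F10_conn hv n
    · rintro p (hp | hp)
      · exact hMsub (hv.subU n hp)
      · exact hMsub (hv.subV n hp)
  obtain ⟨a, haA, haU⟩ := hv.st.endA.meet n
  obtain ⟨b, hbB, hbV⟩ := hv.st.endB.meet n
  have hcov : (Subtype.val ⁻¹' ((S (max γ δ)).U n ∪ (S (max γ δ)).V n) : Set (Minf S)) ⊆
      G ∪ (closure G)ᶜ := by
    intro x hx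
    by_contra hcon
    rw [mem_union, not_or] at hcon
    have hxE : (x : Om) ∈ E := ⟨x, ⟨by simpa using hcon.2, hcon.1⟩, rfl⟩
    rcases hx with hx | hx
    · exact Set.disjoint_left.1 hdU hxE hx
    · exact Set.disjoint_left.1 hdV hxE hx
  obtain ⟨x, -, hx1, hx2⟩ := hC G (closure G)ᶜ hG isClosed_closure.isOpen_compl hcov
    ⟨⟨a, hMsub a.2⟩, Or.inl haU, hAG (show (a : Om) ∈ Ainf S from
      mem_iUnion₂.2 ⟨_, hα, haA⟩)⟩
    ⟨⟨b, hMsub b.2⟩, Or.inr hbV, fun hcl => Set.disjoint_left.1 hGH' hcl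
      (hBH (show (b : Om) ∈ Binf S from mem_iUnion₂.2 ⟨_, hα, hbB⟩))⟩
  exact hx2 (subset_closure hx1)

end Pool.Agent.Work.MP_ba58b9_gt

end

section

/-!
# F2: topology of the final space
-/

set_option autoImplicit false

open Set Filter Topology Ordinal

namespace Pool.Agent.Work.MP_ba58b9_gt

namespace ItemF2

theorem mem_Minf {S : Ordinal.{0} → Stage} {m : Om} : m ∈ Minf S ↔ ∃ α < ω₁, m ∈ (S α).M := by
  simp [Minf]

/-- A relatively open subset which is locally homeomorphic to `ℝ³` at its points. -/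
theorem locE_point {M N : Set Om} (hMN : M ⊆ N) (hG : ∃ G : Set Om, IsOpen G ∧ M = G ∩ N)
    (hM : LocE M) (x : N) (hx : (x : Om) ∈ M) :
    ∃ U : Set N, IsOpen U ∧ x ∈ U ∧ Nonempty (U ≃ₜ E3) := by
  obtain ⟨G, hGo, hGe⟩ := hG
  obtain ⟨U, hU, hxU, ⟨e⟩⟩ := hM ⟨x, hx⟩
  have hi : IsOpenEmbedding (Set.inclusion hMN) := by
    refine ⟨IsEmbedding.inclusion hMN, ?_⟩
    have : range (Set.inclusion hMN) = (Subtype.val : N → Om) ⁻¹' G := by
      ext y
      constructor
      · rintro ⟨z, rfl⟩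
        have h := (Set.ext_iff.1 hGe z.1).1 z.2
        exact h.1
      · intro hy
        have hyM : (y : Om) ∈ M := by
          rw [hGe]; exact ⟨hy, y.2⟩
        exact ⟨⟨y, hyM⟩, rfl⟩
    rw [this]
    exact hGo.preimage continuous_subtype_val
  refine ⟨Set.inclusion hMN '' U, hi.isOpenMap U hU, ⟨⟨x, hx⟩, hxU, rfl⟩, ?_⟩
  exact ⟨(hi.isEmbedding.homeomorphImage U).symm.trans e⟩

end ItemF2

open ItemF2 in
theorem itemF2 (h1 : SF1) (h2 : SGoodFacts) : SF2 := by
  intro D S hT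
  obtain ⟨hval, htr, -⟩ := h1 D S hT
  have hpos : (0 : Ordinal.{0}) < ω₁ := Ordinal.omega_pos 1
  have hmono : ∀ β α, β ≤ α → α < ω₁ → (S β).M ⊆ (S α).M := fun β α h h' => (htr β α h h').sub
  have hgood : ∀ α < ω₁, Good (S α).M := fun α h => (hval α h).good
  have hnh : ∀ x : E3, (𝓝 x : Om) ∈ Minf S := fun x =>
    mem_Minf.2 ⟨0, hpos, (hgood 0 hpos).nh x⟩
  have hneb : ∀ m ∈ Minf S, m.NeBot := by
    intro m hm
    obtain ⟨α, hα, hm⟩ := mem_Minf.1 hm
    exact (hgood α hα).neb m hm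
  have hopn : ∀ m ∈ Minf S, ∀ s ∈ m, interior s ∈ m := by
    intro m hm
    obtain ⟨α, hα, hm⟩ := mem_Minf.1 hm
    exact (hgood α hα).opn m hm
  have hsub : ∀ α < ω₁, (S α).M ⊆ Minf S := fun α hα m hm => mem_Minf.2 ⟨α, hα, hm⟩
  obtain ⟨hconn, hsep, -, hT2iff⟩ := h2.1 (Minf S) hnh hneb hopn
  have hT2 : T2Space (Minf S) := by
    rw [hT2iff]
    intro m hm m' hm' hne
    obtain ⟨α, hα, hmα⟩ := mem_Minf.1 hm
    obtain ⟨β, hβ, hmβ⟩ := mem_Minf.1 hm'
    have hγ : max α β < ω₁ := max_lt hα hβ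
    have hg := hgood (max α β) hγ
    exact ((h2.1 _ hg.nh hg.neb hg.opn).2.2.2.1 hg.t2) m
      (hmono α _ (le_max_left _ _) hγ hmα) m' (hmono β _ (le_max_right _ _) hγ hmβ) hne
  have hrel : ∀ α < ω₁, ∃ G : Set Om, IsOpen G ∧ (S α).M = G ∩ Minf S := fun α hα =>
    h2.2 (S α).M (Minf S) (hgood α hα) hneb hopn hT2 (hsub α hα)
  refine ⟨hT2, hconn, hsep, ?_, hrel, ?_⟩
  · intro x
    obtain ⟨α, hα, hx⟩ := mem_Minf.1 x.2
    exact locE_point (hsub α hα) (hrel α hα) (hgood α hα).loc x hx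
  · intro α hα hα0 C hC hCs
    have hlt : ∀ β, β < α → β < ω₁ := fun β h => h.trans_le hα
    choose G hGo hGe using hrel
    let U : Iio α → Set Om := fun β => ⋃ γ, ⋃ (h : γ ≤ β.1), G γ (hlt γ (h.trans_lt β.2))
    have hne : Nonempty (Iio α) := ⟨⟨0, pos_iff_ne_zero.2 hα0⟩⟩
    have hUo : ∀ β, IsOpen (U β) := fun β =>
      isOpen_iUnion fun γ => isOpen_iUnion fun h => hGo γ _
    have hCN : C ⊆ Minf S := by
      intro m hm
      have := hCs hm
      simp only [mem_iUnion] at this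
      obtain ⟨β, hβ, hm⟩ := this
      exact hsub β (hlt β hβ) hm
    have hCU : C ⊆ ⋃ β, U β := by
      intro m hm
      have := hCs hm
      simp only [mem_iUnion] at this
      obtain ⟨β, hβ, hm'⟩ := this
      refine mem_iUnion.2 ⟨⟨β, hβ⟩, ?_⟩
      refine mem_iUnion.2 ⟨β, mem_iUnion.2 ⟨le_rfl, ?_⟩⟩
      rw [hGe β (hlt β hβ)] at hm'
      exact hm'.1
    have hdir : Directed (· ⊆ ·) U := by
      have hm : Monotone U := by
        intro β β' hββ m hm
        simp only [U, mem_iUnion] at hm ⊢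
        obtain ⟨γ, hγ, hm⟩ := hm
        exact ⟨γ, hγ.trans hββ, hm⟩
      exact hm.directed_le
    obtain ⟨β, hβ⟩ := hC.elim_directed_cover U hUo hCU hdir
    refine ⟨β.1, β.2, ?_⟩
    intro m hm
    have h3 := hβ hm
    simp only [U, mem_iUnion] at h3
    obtain ⟨γ, hγ, h4⟩ := h3
    have h5 : m ∈ (S γ).M := by
      rw [hGe γ (hlt γ (hγ.trans_lt β.2))]
      exact ⟨h4, hCN hm⟩
    exact hmono γ β.1 hγ (hlt _ β.2) h5

end Pool.Agent.Work.MP_ba58b9_gt

end

section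

/-!
# Item F3: the two closed sets of the final space
-/

set_option autoImplicit false

open Set Filter Topology Ordinal

namespace Pool.Agent.Work.MP_ba58b9_gt

namespace ItemF3

lemma mem_Ainf {S : Ordinal.{0} → Stage} {p : Om} : p ∈ Ainf S ↔ ∃ α < ω₁, p ∈ (S α).A := by
  simp [Ainf]

lemma mem_Binf {S : Ordinal.{0} → Stage} {p : Om} : p ∈ Binf S ↔ ∃ α < ω₁, p ∈ (S α).B := by
  simp [Binf]

lemma mem_Minf {S : Ordinal.{0} → Stage} {p : Om} : p ∈ Minf S ↔ ∃ α < ω₁, p ∈ (S α).M := by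
  simp [Minf]

end ItemF3

open ItemF3 in
theorem itemF3 (h1 : SF1) (h2 : SF2) : SF3 := by
  intro D S hS
  obtain ⟨hv, ht, -⟩ := h1 D S hS
  have hA : ∀ α < ω₁, Ainf S ∩ (S α).M = (S α).A := by
    intro α hα
    apply Subset.antisymm
    · rintro p ⟨hp, hpM⟩
      obtain ⟨β, hβ, hpA⟩ := mem_Ainf.1 hp
      rcases le_total β α with h | h
      · have h3 := (ht β α h hα).eA
        rw [← h3] at hpA
        exact hpA.1
      · have h3 := (ht α β h hβ).eA
        rw [← h3]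
        exact ⟨hpA, hpM⟩
    · intro p hp
      exact ⟨mem_Ainf.2 ⟨α, hα, hp⟩, (hv α hα).subA hp⟩
  have hAM : Ainf S ⊆ Minf S := by
    intro p hp
    obtain ⟨β, hβ, hpA⟩ := mem_Ainf.1 hp
    exact mem_Minf.2 ⟨β, hβ, (hv β hβ).subA hpA⟩
  refine ⟨hA, hAM, ?_, ?_, ?_, ?_⟩
  · rintro p ⟨hp, hpM⟩
    obtain ⟨α, hα, hpα⟩ := mem_Minf.1 hpM
    obtain ⟨G, hG, hGM⟩ := (h2 D S hS).2.2.2.2.1 α hα
    have hpG : p ∈ G := by
      rw [hGM] at hpα
      exact hpα.1
    have h3 : p ∈ closure (G ∩ Ainf S) := hG.inter_closure ⟨hpG, hp⟩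
    have h4 : G ∩ Ainf S ⊆ (S α).A := by
      rintro q ⟨hq1, hq2⟩
      rw [← hA α hα]
      refine ⟨hq2, ?_⟩
      rw [hGM]
      exact ⟨hq1, hAM hq2⟩
    have h5 : p ∈ closure (S α).A := closure_mono h4 h3
    have h6 := (hv α hα).st.clA
    have h7 : (⟨p, hpα⟩ : (S α).M) ∈ closure (Subtype.val ⁻¹' (S α).A : Set (S α).M) := by
      rw [closure_subtype, Subtype.image_preimage_coe,
        Set.inter_eq_right.2 (hv α hα).subA]
      exact h5
    have h8 : (⟨p, hpα⟩ : (S α).M) ∈ (Subtype.val ⁻¹' (S α).A : Set (S α).M) := by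
      have h9 : closure (Subtype.val ⁻¹' (S α).A : Set (S α).M) = Subtype.val ⁻¹' (S α).A :=
        IsClosed.closure_eq h6
      rw [h9] at h7
      exact h7
    exact mem_Ainf.2 ⟨α, hα, h8⟩
  · rw [Set.disjoint_left]
    intro p hpA hpB
    obtain ⟨α, hα, hA'⟩ := mem_Ainf.1 hpA
    obtain ⟨β, hβ, hB'⟩ := mem_Binf.1 hpB
    have hγ : max α β < ω₁ := max_lt hα hβ
    have h3 : p ∈ (S (max α β)).A := by
      have := (ht α _ (le_max_left α β) hγ).eA
      rw [← this] at hA'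
      exact hA'.1
    have h4 : p ∈ (S (max α β)).B := by
      have := (ht β _ (le_max_right α β) hγ).eB
      rw [← this] at hB'
      exact hB'.1
    have h5 := (hv _ hγ).st.dAB
    exact Set.disjoint_left.1 h5
      (show (⟨p, (hv _ hγ).subA h3⟩ : (S (max α β)).M) ∈
        (Subtype.val ⁻¹' (S (max α β)).A : Set (S (max α β)).M) from h3) h4
  · rintro p ⟨hp, hp0⟩
    obtain ⟨α, hα, hpα⟩ := mem_Minf.1 hp
    rcases (ht 0 α (zero_le) hα).new ⟨hpα, hp0⟩ with h | h
    · exact Or.inl (mem_Ainf.2 ⟨α, hα, h⟩)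
    · exact Or.inr (mem_Binf.2 ⟨α, hα, h⟩)
  · rintro α hα n p ⟨hp, hpM⟩
    obtain ⟨γ, hγ, hpA⟩ := mem_Ainf.1 hp
    rcases le_total γ α with h | h
    · exact absurd ((ht γ α h hα).sub ((hv γ hγ).subA hpA)) hpM
    · exact (ht α γ h hγ).nbA n p ⟨hpA, hpM⟩

end Pool.Agent.Work.MP_ba58b9_gt

end

section

/-!
# Item F4: small relatively closed sets are eventually disjoint from the end
-/

set_option autoImplicit false

open Set Filter Topology Ordinal

namespace Pool.Agent.Work.MP_ba58b9_gt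

theorem itemF4 (h1 : SCand) (_h2 : SF1) (_h3 : SF2) (h4 : SF3) : SF4 := by
  intro D S hD hS β hβ E hE hEA hcl
  obtain ⟨-, hAM, -, hdis, -, -⟩ := h4 D S hS
  have hsub : (S β).M ⊆ Minf S := fun p hp => by
    simp only [Minf, mem_iUnion]
    exact ⟨β, hβ, hp⟩
  have hrel : closure E ∩ (S β).M ⊆ E := by
    rintro p ⟨hp, hpM⟩
    rcases hcl ⟨hp, hsub hpM⟩ with h | h
    · exact h
    · exact absurd hpM h.2
  obtain ⟨γ, hγ, hcand⟩ := h1 D S hD hS β hβ E hE hrel (Or.inl hEA)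
  have hlim : Order.succ β < ω₁ := (Cardinal.isSuccLimit_ord (Cardinal.aleph0_le_aleph 1)).succ_lt
    (by simpa using hβ) |> fun h => by simpa using h
  refine ⟨max γ (Order.succ β), max_lt hγ hlim,
    (Order.le_succ β).trans (le_max_right _ _), fun α hα hα1 => ?_⟩
  obtain ⟨P, -, hPM, -, hst⟩ := hS α hα1
  have hβα : β < α := lt_of_lt_of_le (Order.lt_succ β) ((le_max_right _ _).trans hα)
  have hEP : (S β).M ⊆ P.M := by
    rw [hPM]
    intro p hp
    refine Or.inr ?_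
    simp only [mem_iUnion]
    exact ⟨β, hβα, hp⟩
  rcases hst.clA E (hcand α ((le_max_left _ _).trans hα) hα1) (hE.trans hEP) with h | h
  · exfalso
    obtain ⟨p, hp⟩ := hst.newA
    have hpA : p ∈ Ainf S := by
      simp only [Ainf, mem_iUnion]
      exact ⟨α, hα1, hp.1⟩
    rcases hcl ⟨h hp, hAM hpA⟩ with h5 | h5
    · exact hp.2 (hEP (hE h5))
    · exact Set.disjoint_left.1 hdis hpA h5.1
  · exact h

end Pool.Agent.Work.MP_ba58b9_gt

end

section

/-!
# [ba58b9 F5] separation of small sets from one side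
-/

set_option autoImplicit false

open Set Filter Topology Ordinal

namespace Pool.Agent.Work.MP_ba58b9_gt

/-- closures in the subspace -/
theorem itemF5_closure {s : Stage} (h : s.Valid) (n : ℕ) {p : Om} (hp : p ∈ s.M)
    (hc : p ∈ closure (s.U (n + 1))) : p ∈ s.U n := by
  have h1 : (⟨p, hp⟩ : s.M) ∈ closure (Subtype.val ⁻¹' s.U (n + 1) : Set s.M) := by
    rw [closure_subtype, Subtype.image_preimage_coe, inter_eq_right.2 (h.subU (n + 1))]
    exact hc
  exact h.st.endA.reg n h1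

theorem itemF5 (h1 : SF1) (h2 : SF2) (h3 : SF3) (h4 : SF4) : SF5 := by
  intro D S hD hS β hβ E hE hEA hEc
  obtain ⟨γ, hγ, hβγ, hn⟩ := h4 D S hD hS β hβ E hE hEA hEc
  obtain ⟨n, hn⟩ := hn γ le_rfl hγ
  have hval := (h1 D S hS).1 γ hγ
  have htr := (h1 D S hS).2.1 β γ hβγ hγ
  obtain ⟨G, hGo, hG⟩ := (h2 D S hS).2.2.2.2.1 γ hγ
  refine ⟨γ, hγ, G \ closure ((S γ).U (n + 1)), hGo.sdiff isClosed_closure, ?_, ?_⟩
  · intro e he
    have heM : e ∈ (S γ).M := htr.sub (hE he)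
    refine ⟨?_, fun hc => ?_⟩
    · rw [hG] at heM
      exact heM.1
    · exact (Set.disjoint_left.1 hn he) (itemF5_closure hval n heM hc)
  · rintro p ⟨hpc, hpA⟩
    by_contra hpM
    obtain ⟨G', hG'o, hpG', hG'⟩ := (h3 D S hS).2.2.2.2.2 γ hγ (n + 1) p ⟨hpA, hpM⟩
    obtain ⟨q, hq1, hq2, hq3⟩ := mem_closure_iff.1 hpc G' hG'o hpG'
    have hqM : q ∈ (S γ).M := by
      rw [hG]
      exact ⟨hq2.1, hq3⟩
    exact hq2.2 (subset_closure (hG' ⟨hq1, hqM⟩))

end Pool.Agent.Work.MP_ba58b9_gt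

end

section

set_option autoImplicit false

open Set Filter Topology Ordinal

namespace Pool.Agent.Work.MP_ba58b9_gt

namespace ItemF6

/-- compactness of the part of `A` outside the end -/
theorem cptA {s : Stage} (hs : s.Valid) (n : ℕ) : IsCompact (s.A \ s.U n) := by
  have h := (hs.st.endA.cpt n).image continuous_subtype_val
  have e : Subtype.val '' (s.st.A \ s.st.U n) = s.A \ s.U n := by
    ext p
    constructor
    · rintro ⟨q, ⟨h1, h2⟩, rfl⟩
      exact ⟨h1, h2⟩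
    · rintro ⟨h1, h2⟩
      exact ⟨⟨p, hs.subA h1⟩, ⟨h1, h2⟩, rfl⟩
  rwa [e] at h

theorem mem_Minf {S : Ordinal.{0} → Stage} {p : Om} :
    p ∈ Minf S ↔ ∃ α < ω₁, p ∈ (S α).M := by
  simp [Minf]

theorem mem_Ainf {S : Ordinal.{0} → Stage} {p : Om} :
    p ∈ Ainf S ↔ ∃ α < ω₁, p ∈ (S α).A := by
  simp [Ainf]

theorem mem_Binf {S : Ordinal.{0} → Stage} {p : Om} :
    p ∈ Binf S ↔ ∃ α < ω₁, p ∈ (S α).B := by
  simp [Binf]

theorem mem_Y {S : Ordinal.{0} → Stage} {α : Ordinal.{0}} {p : Om} :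
    p ∈ (⋃ β, ⋃ (_ : β < α), (S β).M) ↔ ∃ β < α, p ∈ (S β).M := by
  simp

end ItemF6

open ItemF6 in
/-- F6 -/
theorem itemF6 (h1 : SCand) (h2 : SBase) (h3 : SGuess) (h4 : SF1) (h5 : SF2) (h6 : SF3) :
    SF6 := by
  intro D S hD hS T hTA hTcl
  obtain ⟨hval, htr, -⟩ := h4 D S hS
  obtain ⟨-, -, -, -, -, hcpt⟩ := h5 D S hS
  obtain ⟨hAM, hAinf, -, hAB, -, -⟩ := h6 D S hS
  have hmono : ∀ β α, β ≤ α → α < ω₁ → (S β).M ⊆ (S α).M := fun β α h h' => (htr β α h h').sub
  have hsubM : ∀ α < ω₁, (S α).M ⊆ Minf S := fun α hα p hp => mem_Minf.2 ⟨α, hα, hp⟩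
  have hnh : ∀ α < ω₁, range (nhds : E3 → Om) ⊆ (S α).M := by
    rintro α hα _ ⟨x, rfl⟩
    exact (hval α hα).good.nh x
  by_cases hbd : ∃ β < ω₁, T ⊆ (S β).M
  · -- bounded case
    left
    obtain ⟨β, hβ, hTβ⟩ := hbd
    have hdisj : Disjoint T (S β).B := by
      rw [Set.disjoint_left]
      intro p hp hpB
      exact Set.disjoint_left.1 hAB (hTA hp) (mem_Binf.2 ⟨β, hβ, hpB⟩)
    have hcl : closure T ∩ (S β).M ⊆ T := fun p hp => hTcl ⟨hp.1, hsubM β hβ hp.2⟩
    obtain ⟨γ, hγ, hc⟩ := h1 D S hD hS β hβ T hTβ hcl (Or.inr hdisj)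
    set α := max γ (Order.succ β) with hα
    have hsucc : Order.succ β < ω₁ := (Cardinal.isSuccLimit_omega 1).succ_lt hβ
    have hα1 : α < ω₁ := max_lt hγ hsucc
    have hβα : β < α := lt_of_lt_of_le (Order.lt_succ β) (le_max_right _ _)
    have hcα : T ∈ cand D α S := hc α (le_max_left _ _) hα1
    obtain ⟨P, hP, hPM, hPt, hPs⟩ := hS α hα1
    have hTP : T ⊆ P.M := by
      intro p hp
      rw [hPM]
      exact Or.inr (mem_Y.2 ⟨β, hβα, hTβ hp⟩)
    have hn : ∃ n, Disjoint T ((S α).U n) := by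
      rcases hPs.clA T hcα hTP with h | h
      · exfalso
        obtain ⟨p, hp⟩ := hPs.newA
        have hpM : p ∈ Minf S := hsubM α hα1 ((hval α hα1).subA hp.1)
        exact hp.2 (hTP (hTcl ⟨h hp, hpM⟩))
      · exact h
    obtain ⟨n, hn⟩ := hn
    have hTα : T ⊆ (S α).A \ (S α).U n := by
      intro p hp
      refine ⟨?_, Set.disjoint_left.1 hn hp⟩
      rw [← hAM α hα1]
      exact ⟨hTA hp, hmono β α hβα.le hα1 (hTβ hp)⟩
    have e : T = ((S α).A \ (S α).U n) ∩ closure T := by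
      ext p
      constructor
      · intro hp
        exact ⟨hTα hp, subset_closure hp⟩
      · rintro ⟨hp1, hp2⟩
        exact hTcl ⟨hp2, hsubM α hα1 ((hval α hα1).subA hp1.1)⟩
    rw [e]
    exact (cptA (hval α hα1) n).inter_right isClosed_closure
  · -- unbounded case
    right
    push Not at hbd
    let Y : Ordinal.{0} → Set Om := fun α => ⋃ β, ⋃ (_ : β < α), (S β).M
    have hY : ∀ α p, p ∈ Y α ↔ ∃ β < α, p ∈ (S β).M := fun α p => mem_Y
    let C : Set Ordinal.{0} := {α | α ≠ 0 ∧ α < ω₁ ∧ ∀ β < α, (T ∩ (Y α \ (S β).M)).Nonempty}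
    have hC : Club C := by
      refine ⟨fun α hα => hα.2.1, ?_, ?_⟩
      · intro β hβ
        have step : ∀ δ : Ordinal.{0}, ∃ δ' : Ordinal.{0}, δ < ω₁ → δ < δ' ∧ δ' < ω₁ ∧
            ∃ p ∈ T, p ∉ (S δ).M ∧ p ∈ Y δ' := by
          intro δ
          by_cases hδ : δ < ω₁
          · obtain ⟨p, hp, hpn⟩ := Set.not_subset.1 (hbd δ hδ)
            obtain ⟨ε, hε, hpε⟩ := mem_Minf.1 (hAinf (hTA hp))
            have hlt : δ < ε := by
              by_contra hc
              exact hpn (hmono ε δ (not_lt.1 hc) hδ hpε)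
            refine ⟨Order.succ ε, fun _ => ⟨hlt.trans (Order.lt_succ ε),
              (Cardinal.isSuccLimit_omega 1).succ_lt hε, p, hp, hpn, ?_⟩⟩
            exact (hY _ _).2 ⟨ε, Order.lt_succ ε, hpε⟩
          · exact ⟨0, fun h => absurd h hδ⟩
        choose h hh using step
        let d : ℕ → Ordinal.{0} := fun n => h^[n] (Order.succ β)
        have hd0 : d 0 = Order.succ β := rfl
        have hds : ∀ n, d (n + 1) = h (d n) := fun n => Function.iterate_succ_apply' h n _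
        have hd1 : ∀ n, d n < ω₁ := by
          intro n
          induction n with
          | zero => exact (Cardinal.isSuccLimit_omega 1).succ_lt hβ
          | succ n ih =>
            rw [hds]
            exact (hh _ ih).2.1
        have hlt : ∀ n, d n < d (n + 1) := by
          intro n
          rw [hds]
          exact (hh _ (hd1 n)).1
        have hle : ∀ n, d n ≤ ⨆ n, d n := fun n => Ordinal.le_iSup d n
        have hγ : (⨆ n, d n) < ω₁ := Ordinal.iSup_lt_omega_one hd1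
        have hβγ : β < ⨆ n, d n :=
          lt_of_lt_of_le (Order.lt_succ β) (hd0 ▸ hle 0)
        refine ⟨⨆ n, d n, ⟨(pos_of_gt hβγ).ne', hγ, ?_⟩, hβγ⟩
        intro β' hβ'
        obtain ⟨n, hn⟩ := (Ordinal.lt_iSup_iff).1 hβ'
        obtain ⟨-, -, p, hp, hpn, hpY⟩ := hh (d n) (hd1 n)
        refine ⟨p, hp, ?_, fun hpβ => hpn (hmono β' (d n) hn.le (hd1 n) hpβ)⟩
        rw [← hds] at hpY
        obtain ⟨ε, hε, hpε⟩ := (hY _ _).1 hpY
        exact (hY _ _).2 ⟨ε, hε.trans_le (hle (n + 1)), hpε⟩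
      · intro δ hδ hδ0 hlim
        refine ⟨hδ0, hδ, ?_⟩
        intro β hβ
        obtain ⟨γ, hγC, hβγ, hγδ⟩ := hlim β hβ
        obtain ⟨p, hp, hpY, hpn⟩ := hγC.2.2 β hβγ
        refine ⟨p, hp, ?_, hpn⟩
        obtain ⟨ε, hε, hpε⟩ := (hY _ _).1 hpY
        exact (hY _ _).2 ⟨ε, hε.trans hγδ, hpε⟩
    -- the codes
    have hcode : ∀ η : Ordinal.{0}, ∃ c : Set ℕ, η < ω₁ → decode (S η).M c = T ∩ (S η).M := by
      intro η
      by_cases hη : η < ω₁
      · obtain ⟨c, hc⟩ := h2.2 (S η).M (h2.1 _ (hval η hη).good) (T ∩ (S η).M)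
          Set.inter_subset_right (by
            rintro p ⟨hp1, hp2⟩
            exact ⟨hTcl ⟨closure_mono Set.inter_subset_left hp1, hsubM η hη hp2⟩, hp2⟩)
        exact ⟨c, fun _ => hc⟩
      · exact ⟨∅, fun h => absurd h hη⟩
    choose g hg using hcode
    obtain ⟨α, hαC, hαg⟩ := h3 D hD g C hC
    obtain ⟨hα0, hα1, hαn⟩ := hαC
    have hguess : guess D α S = T ∩ Y α := by
      ext p
      rw [Set.mem_inter_iff, hY]
      simp only [guess, Set.mem_iUnion]
      constructor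
      · rintro ⟨η, hη, hp⟩
        rw [hαg η hη, hg η (hη.trans hα1)] at hp
        exact ⟨hp.1, η, hη, hp.2⟩
      · rintro ⟨hp, η, hη, hpη⟩
        refine ⟨η, hη, ?_⟩
        rw [hαg η hη, hg η (hη.trans hα1)]
        exact ⟨hp, hpη⟩
    set T' := T ∩ Y α with hT'
    have hcand : ∀ α', α ≤ α' → T' ∈ cand D α' S := by
      intro α' h
      right
      exact ⟨α, h, hguess.symm⟩
    -- the predecessor of a stage
    have hPY : ∀ α', α ≤ α' → α' < ω₁ → ∀ P : Stage,
        P.M = range (nhds : E3 → Om) ∪ ⋃ β, ⋃ (_ : β < α'), (S β).M → P.M = Y α' := by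
      intro α' h h' P hPM
      rw [hPM]
      refine Set.union_eq_right.2 ?_
      intro p hp
      have h0 : (0 : Ordinal.{0}) < α' := lt_of_lt_of_le (pos_iff_ne_zero.2 hα0) h
      exact (hY _ _).2 ⟨0, h0, hnh 0 (h0.trans h') hp⟩
    have hrc : ∀ α', α ≤ α' → α' < ω₁ → ¬ RC (S α').M T' := by
      intro α'
      induction α' using WellFoundedLT.induction with
      | ind α' ih =>
        intro h h'
        obtain ⟨P, hP, hPM, hPt, hPs⟩ := hS α' h'
        have hPM' := hPY α' h h' P hPM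
        have hα'0 : α' ≠ 0 := (lt_of_lt_of_le (pos_iff_ne_zero.2 hα0) h).ne'
        refine hPs.rcA T' (hcand α' h) ?_ ?_
        · rintro p ⟨hp, hpY⟩
          obtain ⟨β, hβ, hpβ⟩ := (hY _ _).1 hpY
          have hβ' := hβ.trans_le h
          have : p ∈ (S β).A := by
            rw [← hAM β (hβ'.trans h')]
            exact ⟨hTA hp, hpβ⟩
          rw [← (hPt β hβ').eA] at this
          exact this.1
        · rintro ⟨K, hK, hKP, hTK⟩
          rw [hPM'] at hKP
          obtain ⟨β, hβ, hKβ⟩ := hcpt α' h'.le hα'0 K hK hKP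
          rcases h.eq_or_lt with he | hlt
          · subst he
            obtain ⟨p, hp, hpY, hpn⟩ := hαn β hβ
            exact hpn (hKβ (hTK ⟨hp, hpY⟩))
          · have hm : max β α < α' := max_lt hβ hlt
            refine ih (max β α) hm (le_max_right _ _) (hm.trans h') ⟨K, hK, ?_, hTK⟩
            exact hKβ.trans (hmono β _ (le_max_left _ _) (hm.trans h'))
    refine ⟨α, hα1, ?_⟩
    rintro p ⟨hpA, hpn⟩
    -- the least stage containing `p`
    obtain ⟨δ, hδ, hpδ⟩ := mem_Minf.1 (hAinf hpA)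
    obtain ⟨α', hα'p, hmin⟩ := WellFounded.has_min (wellFounded_lt (α := Ordinal.{0}))
      {α' | p ∈ (S α').M} ⟨δ, hpδ⟩
    have hmin' : ∀ β < α', p ∉ (S β).M := fun β hβ hpβ => hmin β hpβ hβ
    have hα'δ : α' ≤ δ := not_lt.1 fun hc => hmin' δ hc hpδ
    have hα'1 : α' < ω₁ := hα'δ.trans_lt hδ
    have hαα' : α < α' := by
      by_contra hc
      exact hpn (hmono α' α (not_lt.1 hc) hα1 hα'p)
    obtain ⟨P, hP, hPM, hPt, hPs⟩ := hS α' hα'1
    have hPM' := hPY α' hαα'.le hα'1 P hPM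
    have hpP : p ∉ P.M := by
      rw [hPM', hY]
      rintro ⟨β, hβ, hpβ⟩
      exact hmin' β hβ hpβ
    have hpA' : p ∈ (S α').A := by
      rw [← hAM α' hα'1]
      exact ⟨hpA, hα'p⟩
    have hT'P : T' ⊆ P.M := by
      rintro q ⟨hq, hqY⟩
      rw [hPM', hY]
      obtain ⟨β, hβ, hqβ⟩ := (hY _ _).1 hqY
      exact ⟨β, hβ.trans hαα', hqβ⟩
    rcases hPs.clA T' (hcand α' hαα'.le) hT'P with h | ⟨n, hn⟩
    · exact hTcl ⟨closure_mono Set.inter_subset_left (h ⟨hpA', hpP⟩), hAinf hpA⟩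
    · exfalso
      refine hrc α' hαα'.le hα'1 ⟨(S α').A \ (S α').U n, cptA (hval α' hα'1) n,
        fun q hq => (hval α' hα'1).subA hq.1, ?_⟩
      intro q hq
      refine ⟨?_, Set.disjoint_left.1 hn hq⟩
      rw [← hAM α' hα'1]
      refine ⟨hTA hq.1, ?_⟩
      obtain ⟨β, hβ, hqβ⟩ := (hY _ _).1 hq.2
      exact hmono β α' (hβ.trans hαα').le hα'1 hqβ

end Pool.Agent.Work.MP_ba58b9_gt

end

section

set_option autoImplicit false

open Set Filter Topology Ordinal

namespace Pool.Agent.Work.MP_ba58b9_gt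

/-- A compact subset of a locally compact Hausdorff subspace has a neighbourhood with closure
contained in a compact subset of the subspace. -/
theorem itemF7_nbhd {X : Set Om} [T2Space X] [LocallyCompactSpace X] {K : Set Om}
    (hK : IsCompact K) (hKX : K ⊆ X) :
    ∃ N C : Set Om, IsOpen N ∧ K ⊆ N ∧ IsCompact C ∧ C ⊆ X ∧ closure (N ∩ X) ∩ X ⊆ C := by
  have hK' : IsCompact (Subtype.val ⁻¹' K : Set X) :=
    (Topology.IsInducing.subtypeVal.isCompact_preimage_iff (by simpa using hKX)).2 hK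
  obtain ⟨K1, hK1, hKK⟩ := exists_compact_superset hK'
  obtain ⟨N, hN, hN'⟩ := isOpen_induced_iff.1 (isOpen_interior (s := K1))
  obtain ⟨C, hC, hC'⟩ := isClosed_induced_iff.1 hK1.isClosed
  refine ⟨N, Subtype.val '' K1, hN, ?_, hK1.image continuous_subtype_val, ?_, ?_⟩
  · intro x hx
    have : (⟨x, hKX hx⟩ : X) ∈ interior K1 := hKK hx
    rw [← hN'] at this
    exact this
  · rintro _ ⟨x, _, rfl⟩; exact x.2
  · rintro x ⟨hx, hxX⟩
    have h1 : N ∩ X ⊆ C := by
      rintro y ⟨hy, hyX⟩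
      have h2 : (⟨y, hyX⟩ : X) ∈ interior K1 := by rw [← hN']; exact hy
      have h3 := interior_subset h2
      rw [← hC'] at h3
      exact h3
    have h2 : x ∈ C := closure_minimal h1 hC hx
    refine ⟨⟨x, hxX⟩, ?_, rfl⟩
    rw [← hC']; exact h2

theorem itemF7 (h0 : SLoc) (h1 : SF1) (h2 : SF2) (h3 : SF3) (h5 : SF5) : SF7 := by
  intro D S hD hT β hβ F hFM hFB hcpt
  obtain ⟨hT2, -, -, hloc, -, hcov⟩ := h2 D S hT
  obtain ⟨-, hAM, -, -, h30, -⟩ := h3 D S hT
  have hmono : ∀ α α', α ≤ α' → α' < ω₁ → (S α).M ⊆ (S α').M :=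
    fun α α' h h' => ((h1 D S hT).2.1 α α' h h').sub
  have := (h0 (Minf S) hloc).1
  obtain ⟨N, C, hN, hKN, hC, hCM, hNC⟩ := itemF7_nbhd (X := Minf S) hcpt
    (inter_subset_right.trans hAM)
  obtain ⟨γ1, hγ1, hCγ⟩ := hcov ω₁ le_rfl (by
    intro h; rw [h] at hβ; exact absurd hβ (not_lt.2 zero_le)) C hC hCM
  have hnA : ∀ x ∈ closure F, x ∉ N → x ∉ Ainf S := fun x hx hxN hxA => hxN (hKN ⟨hx, hxA⟩)
  obtain ⟨γ2, hγ2, O, hO, hEO, hOA⟩ := h5 D S hD hT β hβ ((closure F ∩ (S β).M) \ N)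
    (fun x hx => hx.1.2) (by
      rw [Set.disjoint_left]
      intro x hx hxA
      refine hnA x hx.1.1 hx.2 ?_
      exact mem_iUnion.2 ⟨β, mem_iUnion.2 ⟨hβ, hxA⟩⟩) (by
      rintro x ⟨hx, hxM⟩
      have hxF : x ∈ closure F := closure_minimal (fun y hy => hy.1.1) isClosed_closure hx
      have hxN : x ∉ N := by
        have : x ∈ Nᶜ := closure_minimal (fun y hy => hy.2) hN.isClosed_compl hx
        exact this
      by_cases hxβ : x ∈ (S β).M
      · exact Or.inl ⟨⟨hxF, hxβ⟩, hxN⟩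
      · right
        have hx0 : x ∉ (S 0).M := fun h => hxβ (hmono 0 β zero_le hβ h)
        rcases h30 ⟨hxM, hx0⟩ with h | h
        · exact absurd h (hnA x hxF hxN)
        · exact ⟨h, hxβ⟩)
  refine ⟨max γ1 γ2, max_lt hγ1 hγ2, N ∪ O, hN.union hO, ?_, ?_⟩
  · intro x hx
    by_cases hxN : x ∈ N
    · exact Or.inl hxN
    · right
      apply hEO
      refine ⟨⟨subset_closure hx, ?_⟩, hxN⟩
      by_contra hxβ
      have hx0 : x ∉ (S 0).M := fun h => hxβ (hmono 0 β zero_le hβ h)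
      rcases h30 ⟨hFM hx, hx0⟩ with h | h
      · exact hnA x (subset_closure hx) hxN h
      · exact hxβ (hFB ⟨hx, h⟩)
  · rw [union_inter_distrib_right, closure_union, union_inter_distrib_right]
    rintro x (⟨hx, hxA⟩ | hx)
    · exact hmono γ1 _ (le_max_left _ _) (max_lt hγ1 hγ2) (hCγ (hNC ⟨hx, hAM hxA⟩))
    · exact hmono γ2 _ (le_max_right _ _) (max_lt hγ1 hγ2) (hOA hx)

end Pool.Agent.Work.MP_ba58b9_gt

end

section

/-!
# MP_ba58b9_gt : item F8, a criterion for countable paracompactness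
-/

set_option autoImplicit false

open Set Filter Topology Ordinal

namespace Pool.Agent.Work.MP_ba58b9_gt

theorem itemF8_shrink (Y : Type) [TopologicalSpace Y] (F : ℕ → Set Y) (hF : ∀ n, IsClosed (F n))
    (hanti : Antitone F) (hempty : (⋂ n, F n) = ∅) (m : ℕ) (W K : Set Y) (hW : IsOpen W)
    (hFW : F m ⊆ W) (hWK : closure W ⊆ K) (hK : TopologicalSpace.MetrizableSpace K) :
    ∃ W' : ℕ → Set Y, (∀ n, IsOpen (W' n)) ∧ (∀ n, F n ⊆ W' n) ∧ (⋂ n, closure (W' n)) = ∅ := by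
  let _ : MetricSpace K := TopologicalSpace.metrizableSpaceMetric K
  let E : ℕ → Set K := fun n => Subtype.val ⁻¹' F n
  let T : ℕ → Set K := fun n => Metric.thickening (1 / ((n : ℝ) + 1)) (E n)
  have hT : ∀ n, IsOpen (T n) := fun n => Metric.isOpen_thickening
  choose G hG hGT using fun n => isOpen_induced_iff.1 (hT n)
  let W' : ℕ → Set Y := fun n => if n < m then Set.univ else W ∩ G n
  have hW'1 : ∀ n, n < m → W' n = Set.univ := fun n hn => if_pos hn
  have hW'2 : ∀ n, m ≤ n → W' n = W ∩ G n := fun n hn => if_neg (not_lt.2 hn)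
  refine ⟨W', fun n => ?_, fun n => ?_, ?_⟩
  · rcases lt_or_ge n m with h | h
    · rw [hW'1 n h]; exact isOpen_univ
    · rw [hW'2 n h]; exact hW.inter (hG n)
  · rcases lt_or_ge n m with h | h
    · rw [hW'1 n h]; exact Set.subset_univ _
    · rw [hW'2 n h]
      intro y hy
      have hyW : y ∈ W := hFW (hanti h hy)
      refine ⟨hyW, ?_⟩
      have hyK : y ∈ K := hWK (subset_closure hyW)
      have h1 : (⟨y, hyK⟩ : K) ∈ T n :=
        Metric.self_subset_thickening (by positivity) (E n) hy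
      rw [← hGT n] at h1
      exact h1
  · rw [Set.eq_empty_iff_forall_notMem]
    intro y hy
    rw [Set.mem_iInter] at hy
    have hym := hy m
    rw [hW'2 m le_rfl] at hym
    have hyK : y ∈ K := hWK (closure_mono Set.inter_subset_left hym)
    have hcl : ∀ n, m ≤ n → (⟨y, hyK⟩ : K) ∈ closure (T n) := by
      intro n hn
      refine (closure_subtype (x := (⟨y, hyK⟩ : K)) (s := T n)).2 ?_
      have h1 := hy n
      rw [hW'2 n hn] at h1
      refine closure_mono ?_ h1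
      intro x hx
      have hxK : x ∈ K := hWK (subset_closure hx.1)
      refine ⟨⟨x, hxK⟩, ?_, rfl⟩
      rw [← hGT n]
      exact hx.2
    have hle : ∀ n, m ≤ n → Metric.infEDist (⟨y, hyK⟩ : K) (E n) ≤
        ENNReal.ofReal (1 / ((n : ℝ) + 1)) := by
      intro n hn
      exact (Metric.closure_thickening_subset_cthickening _ _) (hcl n hn)
    have hall : ∀ n, y ∈ F n := by
      intro n
      have hE : IsClosed (E n) := (hF n).preimage continuous_subtype_val
      have h0 : Metric.infEDist (⟨y, hyK⟩ : K) (E n) = 0 := by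
        refine le_antisymm ?_ zero_le
        have hlim : Tendsto (fun k : ℕ => ENNReal.ofReal (1 / ((k : ℝ) + 1))) atTop (𝓝 0) := by
          have h2 : Tendsto (fun k : ℕ => 1 / ((k : ℝ) + 1)) atTop (𝓝 0) :=
            tendsto_one_div_add_atTop_nhds_zero_nat
          have h3 := (ENNReal.continuous_ofReal.tendsto 0).comp h2
          rw [ENNReal.ofReal_zero] at h3
          exact h3
        refine ge_of_tendsto hlim ?_
        filter_upwards [eventually_ge_atTop (max n m)] with k hk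
        refine le_trans ?_ (hle k (le_trans (le_max_right _ _) hk))
        exact Metric.infEDist_anti fun x hx => hanti (le_trans (le_max_left _ _) hk) hx
      have h1 : (⟨y, hyK⟩ : K) ∈ closure (E n) := Metric.mem_closure_iff_infEDist_zero.2 h0
      rw [hE.closure_eq] at h1
      exact h1
    have : y ∈ ⋂ n, F n := Set.mem_iInter.2 hall
    rw [hempty] at this
    exact this

/-- Ishikawa's criterion. -/
theorem itemF8_ishikawa (Y : Type) [TopologicalSpace Y] (u : ℕ → Set Y)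
    (hu : ∀ k, IsOpen (u k)) (hcov : (⋃ k, u k) = Set.univ) (W : ℕ → Set Y)
    (hW : ∀ n, IsOpen (W n)) (hFW : ∀ n, (⋃ k, ⋃ (_ : k ≤ n), u k)ᶜ ⊆ W n)
    (hempty : (⋂ n, closure (W n)) = ∅) :
    ∃ (ι : Type) (v : ι → Set Y), (∀ i, IsOpen (v i)) ∧ (⋃ i, v i) = Set.univ ∧
      LocallyFinite v ∧ ∀ i, ∃ k, v i ⊆ u k := by
  classical
  refine ⟨ℕ, fun n => u n ∩ ⋂ j ∈ Finset.range n, W j, fun n => ?_, ?_, ?_, fun n =>
    ⟨n, Set.inter_subset_left⟩⟩
  · exact (hu n).inter (isOpen_biInter_finset fun j _ => hW j)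
  · rw [Set.eq_univ_iff_forall]
    intro y
    have hy : ∃ k, y ∈ u k := by
      have : y ∈ ⋃ k, u k := hcov ▸ Set.mem_univ y
      exact Set.mem_iUnion.1 this
    refine Set.mem_iUnion.2 ⟨Nat.find hy, Nat.find_spec hy, ?_⟩
    refine Set.mem_iInter₂.2 fun j hj => hFW j ?_
    intro hyj
    obtain ⟨k, hk, hyk⟩ := Set.mem_iUnion₂.1 hyj
    exact Nat.find_min hy (lt_of_le_of_lt hk (Finset.mem_range.1 hj)) hyk
  · intro y
    have hy : ∃ n, y ∉ closure (W n) := by
      by_contra h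
      push Not at h
      have : y ∈ ⋂ n, closure (W n) := Set.mem_iInter.2 h
      rw [hempty] at this
      exact this
    obtain ⟨n, hn⟩ := hy
    refine ⟨(closure (W n))ᶜ, isClosed_closure.isOpen_compl.mem_nhds hn, ?_⟩
    refine (Set.finite_le_nat n).subset ?_
    rintro k ⟨x, ⟨_, hx1⟩, hx2⟩
    by_contra hkn
    have hkn' : n < k := not_le.1 hkn
    exact hx2 (subset_closure (Set.mem_iInter₂.1 hx1 n (Finset.mem_range.2 hkn')))

theorem itemF8 : SMet := by
  intro Y _ hY u hu hcov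
  let F : ℕ → Set Y := fun n => (⋃ k, ⋃ (_ : k ≤ n), u k)ᶜ
  have hF : ∀ n, IsClosed (F n) := fun n =>
    (isOpen_iUnion fun k => isOpen_iUnion fun _ => hu k).isClosed_compl
  have hanti : Antitone F := by
    intro a b hab
    refine Set.compl_subset_compl.2 ?_
    exact Set.iUnion_mono fun k => Set.iUnion_mono' fun hk => ⟨hk.trans hab, subset_rfl⟩
  have hempty : (⋂ n, F n) = ∅ := by
    rw [Set.eq_empty_iff_forall_notMem]
    intro y hy
    have : y ∈ ⋃ k, u k := hcov ▸ Set.mem_univ y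
    obtain ⟨k, hk⟩ := Set.mem_iUnion.1 this
    exact Set.mem_iInter.1 hy k (Set.mem_iUnion₂.2 ⟨k, le_refl k, hk⟩)
  obtain ⟨m, W, K, hW, hFW, hWK, hK⟩ := hY F hF hanti hempty
  obtain ⟨W', h1, h2, h3⟩ := itemF8_shrink Y F hF hanti hempty m W K hW hFW hWK hK
  exact itemF8_ishikawa Y u hu hcov W' h1 h2 h3

end Pool.Agent.Work.MP_ba58b9_gt

end

section

/-!
# MP_ba58b9_gt: item F9, the final space is hereditarily countably paracompact
-/

set_option autoImplicit false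

open Set Filter Topology Ordinal

namespace Pool.Agent.Work.MP_ba58b9_gt

/-- A tower: either `Y` meets the first closed set in a bounded set, or the closure of some `F n`
meets it in a compact set. -/
theorem F9_dichotomy (h3 : SF1) (h5 : SF3) (h6 : SF6)
    (D : Ordinal.{0} → Set Ordinal.{0}) (S : Ordinal.{0} → Stage) (hD : DiamondSeq D)
    (hS : Tower D S) (Y : Set Om) (F : ℕ → Set Om)
    (hcl : ∀ n, closure (F n) ∩ Y ⊆ F n) (hF : (⋂ n, F n) = ∅) :
    (∃ β < ω₁, Y ∩ Ainf S ⊆ (S β).M) ∨ ∃ n, IsCompact (closure (F n) ∩ Ainf S) := by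
  by_contra hcon
  push Not at hcon
  obtain ⟨h1, h2⟩ := hcon
  obtain ⟨-, htr, -⟩ := h3 D S hS
  obtain ⟨-, hAM, hAcl, -, -, -⟩ := h5 D S hS
  have h4 : ∀ n, ∃ α, α < ω₁ ∧ Ainf S \ (S α).M ⊆ closure (F n) := by
    intro n
    have hT : closure (closure (F n) ∩ Ainf S) ∩ Minf S ⊆ closure (F n) ∩ Ainf S := by
      rintro p ⟨hp1, hp2⟩
      refine ⟨?_, ?_⟩
      · have := closure_mono (inter_subset_left : closure (F n) ∩ Ainf S ⊆ closure (F n)) hp1
        rwa [closure_closure] at this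
      · exact hAcl ⟨closure_mono (inter_subset_right : closure (F n) ∩ Ainf S ⊆ Ainf S) hp1, hp2⟩
    rcases h6 D S hD hS (closure (F n) ∩ Ainf S) inter_subset_right hT with hc | ⟨α, hα, hc⟩
    · exact absurd hc (h2 n)
    · exact ⟨α, hα, hc.trans inter_subset_left⟩
  choose a ha1 ha2 using h4
  have hsup : (⨆ n, a n) < ω₁ := Ordinal.iSup_lt_omega_one ha1
  obtain ⟨p, ⟨hp1, hp2⟩, hp3⟩ := not_subset.mp (h1 _ hsup)
  have hp4 : p ∈ ⋂ n, F n := by
    refine mem_iInter.mpr fun n => hcl n ⟨ha2 n ⟨hp2, fun h => hp3 ?_⟩, hp1⟩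
    exact (htr (a n) (⨆ n, a n) (Ordinal.le_iSup a n) hsup).sub h
  rw [hF] at hp4
  exact hp4

/-- Compact sets are bounded. -/
theorem F9_bounded (h4 : SF2) (h5 : SF3)
    (D : Ordinal.{0} → Set Ordinal.{0}) (S : Ordinal.{0} → Stage) (hS : Tower D S) (F : Set Om)
    (hc : IsCompact (closure F ∩ Ainf S)) : ∃ β < ω₁, F ∩ Ainf S ⊆ (S β).M := by
  obtain ⟨-, -, -, -, -, hcpt⟩ := h4 D S hS
  obtain ⟨-, hAM, -⟩ := h5 D S hS
  obtain ⟨β, hβ, h⟩ := hcpt ω₁ le_rfl (Ordinal.omega_pos 1).ne' (closure F ∩ Ainf S) hc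
    (inter_subset_right.trans hAM)
  exact ⟨β, hβ, (inter_subset_inter_left _ subset_closure).trans h⟩

/-- One side of the neighbourhood. -/
theorem F9_side (h7 : SF7)
    (D : Ordinal.{0} → Set Ordinal.{0}) (S : Ordinal.{0} → Stage) (hD : DiamondSeq D)
    (hS : Tower D S) (Y F : Set Om) (hFM : F ⊆ Minf S)
    (hB : ∃ β < ω₁, F ∩ Binf S ⊆ (S β).M)
    (hA : (∃ β < ω₁, Y ∩ Ainf S ⊆ (S β).M) ∨ IsCompact (closure F ∩ Ainf S)) :
    ∃ γ < ω₁, ∃ O : Set Om, IsOpen O ∧ F ⊆ O ∧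
      closure (O ∩ Minf S) ∩ Ainf S ∩ Y ⊆ (S γ).M := by
  rcases hA with ⟨β, hβ, h⟩ | h
  · refine ⟨β, hβ, Set.univ, isOpen_univ, subset_univ _, ?_⟩
    rintro p ⟨⟨-, hp1⟩, hp2⟩
    exact h ⟨hp2, hp1⟩
  · obtain ⟨β, hβ, hB⟩ := hB
    obtain ⟨γ, hγ, O, hO, hFO, hcl⟩ := h7 D S hD hS β hβ F hFM hB h
    exact ⟨γ, hγ, O, hO, hFO, inter_subset_left.trans hcl⟩

/-- F9: the final space is hereditarily countably paracompact. -/
theorem itemF9 (h1 : SMet) (h2 : SLoc) (h3 : SF1) (h4 : SF2) (h5 : SF3) (h6 : SF6) (h7 : SF7) :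
    SF9 := by
  intro D S hD hS Y
  obtain ⟨hval, htr, hsw⟩ := h3 D S hS
  obtain ⟨-, hAM, -, -, hnew, -⟩ := h5 D S hS
  apply h1
  intro F hFc hFa hFe
  -- images in the space of filters
  set e : Y → Om := fun y => ((y : Minf S) : Om) with he
  have hem : IsEmbedding e := IsEmbedding.subtypeVal.comp IsEmbedding.subtypeVal
  set Y' : Set Om := range e with hY'
  set F' : ℕ → Set Om := fun n => e '' F n with hF'
  have hYM : Y' ⊆ Minf S := by
    rintro _ ⟨y, rfl⟩
    exact (y : Minf S).2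
  have hFM : ∀ n, F' n ⊆ Minf S := fun n => (image_subset_range _ _).trans hYM
  have hFY : ∀ n, F' n ⊆ Y' := fun n => image_subset_range _ _
  have hcl : ∀ n, closure (F' n) ∩ Y' ⊆ F' n := by
    rintro n _ ⟨hp, ⟨y, rfl⟩⟩
    have h8 : y ∈ closure (F n) := by
      rw [hem.closure_eq_preimage_closure_image]
      exact hp
    rw [(hFc n).closure_eq] at h8
    exact mem_image_of_mem _ h8
  have hanti : Antitone F' := fun i j hij => image_mono (hFa hij)
  have hempty : (⋂ n, F' n) = ∅ := by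
    rw [eq_empty_iff_forall_notMem]
    intro p hp
    rw [mem_iInter] at hp
    obtain ⟨y, -, rfl⟩ := hp 0
    have h8 : y ∈ ⋂ n, F n := by
      refine mem_iInter.mpr fun n => ?_
      obtain ⟨z, hz, hzy⟩ := hp n
      rwa [← hem.injective hzy]
    rw [hFe] at h8
    exact h8
  -- the two dichotomies
  have hdA := F9_dichotomy h3 h5 h6 D S hD hS Y' F' hcl hempty
  have hdB := F9_dichotomy h3 h5 h6 D (fun α => (S α).swap) hD hsw Y' F' hcl hempty
  have hAs : Ainf (fun α => (S α).swap) = Binf S := rfl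
  have hBs : Binf (fun α => (S α).swap) = Ainf S := rfl
  have hMs : Minf (fun α => (S α).swap) = Minf S := rfl
  rw [hAs] at hdB
  -- a common index
  obtain ⟨m, hmA, hmB⟩ : ∃ m, ((∃ β < ω₁, Y' ∩ Ainf S ⊆ (S β).M) ∨
      IsCompact (closure (F' m) ∩ Ainf S)) ∧ ((∃ β < ω₁, Y' ∩ Binf S ⊆ (S β).M) ∨
      IsCompact (closure (F' m) ∩ Binf S)) := by
    have hmono : ∀ (i j : ℕ) (T : Set Om), i ≤ j → IsCompact (closure (F' i) ∩ T) →
        IsCompact (closure (F' j) ∩ T) := by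
      intro i j T hij hc
      have h8 : closure (F' j) ∩ T = (closure (F' i) ∩ T) ∩ closure (F' j) := by
        ext p
        constructor
        · rintro ⟨hp1, hp2⟩
          exact ⟨⟨closure_mono (hanti hij) hp1, hp2⟩, hp1⟩
        · rintro ⟨⟨-, hp1⟩, hp2⟩
          exact ⟨hp2, hp1⟩
      rw [h8]
      exact hc.inter_right isClosed_closure
    rcases hdA with hA | ⟨i, hi⟩
    · rcases hdB with hB | ⟨j, hj⟩
      · exact ⟨0, Or.inl hA, Or.inl hB⟩
      · exact ⟨j, Or.inl hA, Or.inr hj⟩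
    · rcases hdB with hB | ⟨j, hj⟩
      · exact ⟨i, Or.inr hi, Or.inl hB⟩
      · exact ⟨max i j, Or.inr (hmono _ _ _ (le_max_left _ _) hi),
          Or.inr (hmono _ _ _ (le_max_right _ _) hj)⟩
  have hbA : ∃ β < ω₁, F' m ∩ Ainf S ⊆ (S β).M := by
    rcases hmA with ⟨β, hβ, h⟩ | h
    · exact ⟨β, hβ, (inter_subset_inter_left _ (hFY m)).trans h⟩
    · exact F9_bounded h4 h5 D S hS _ h
  have hbB : ∃ β < ω₁, F' m ∩ Binf S ⊆ (S β).M := by
    rcases hmB with ⟨β, hβ, h⟩ | h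
    · exact ⟨β, hβ, (inter_subset_inter_left _ (hFY m)).trans h⟩
    · exact F9_bounded h4 h5 D (fun α => (S α).swap) hsw _ h
  obtain ⟨γ₁, hγ₁, O₁, hO₁, hFO₁, hcl₁⟩ := F9_side h7 D S hD hS Y' (F' m) (hFM m) hbB hmA
  obtain ⟨γ₂, hγ₂, O₂, hO₂, hFO₂, hcl₂⟩ :=
    F9_side h7 D (fun α => (S α).swap) hD hsw Y' (F' m) (hFM m) hbA hmB
  rw [hAs, hMs] at hcl₂
  have hγ : max γ₁ γ₂ < ω₁ := max_lt hγ₁ hγ₂
  set γ := max γ₁ γ₂ with hγdef
  have hclW : closure ((O₁ ∩ O₂) ∩ Minf S) ∩ Y' ⊆ (S γ).M := by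
    rintro p ⟨hp1, hp2⟩
    have hpM : p ∈ Minf S := hYM hp2
    by_cases hpA : p ∈ Ainf S
    · have h8 : p ∈ (S γ₁).M := hcl₁ ⟨⟨closure_mono
        (inter_subset_inter_left _ inter_subset_left) hp1, hpA⟩, hp2⟩
      exact (htr γ₁ γ (le_max_left _ _) hγ).sub h8
    · by_cases hpB : p ∈ Binf S
      · have h8 : p ∈ (S γ₂).M := hcl₂ ⟨⟨closure_mono
          (inter_subset_inter_left _ inter_subset_right) hp1, hpB⟩, hp2⟩
        exact (htr γ₂ γ (le_max_right _ _) hγ).sub h8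
      · have h8 : p ∈ (S 0).M := by
          by_contra h9
          rcases hnew ⟨hpM, h9⟩ with h | h
          · exact hpA h
          · exact hpB h
        exact (htr 0 γ zero_le hγ).sub h8
  -- conclusion
  refine ⟨m, e ⁻¹' (O₁ ∩ O₂), e ⁻¹' (S γ).M, (hO₁.inter hO₂).preimage hem.continuous, ?_, ?_, ?_⟩
  · intro y hy
    exact ⟨hFO₁ (mem_image_of_mem _ hy), hFO₂ (mem_image_of_mem _ hy)⟩
  · intro y hy
    rw [hem.closure_eq_preimage_closure_image] at hy
    refine hclW ⟨closure_mono ?_ hy, mem_range_self y⟩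
    rintro _ ⟨z, hz, rfl⟩
    exact ⟨hz, hYM (mem_range_self z)⟩
  · have hg := (hval γ hγ).good
    have := (h2 (S γ).M hg.loc).2.2.2 hg.t2 hg.sc |>.1
    set k : (e ⁻¹' (S γ).M : Set Y) → (S γ).M := fun y => ⟨e y, y.2⟩ with hk
    have hke : IsEmbedding (Subtype.val ∘ k) := hem.comp IsEmbedding.subtypeVal
    have hk2 : IsEmbedding k := IsEmbedding.of_comp
      (by exact (hem.continuous.comp continuous_subtype_val).subtype_mk _)
      continuous_subtype_val hke
    exact hk2.metrizableSpace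

end Pool.Agent.Work.MP_ba58b9_gt

end

section

/-!
# [ba58b9 G0] consequences of local homeomorphism with `ℝ³`
-/

set_option autoImplicit false

open Set Filter Topology Ordinal

namespace Pool.Agent.Work.MP_ba58b9_gt

theorem itemG0_chart {X : Type} [TopologicalSpace X] (h : LocE X) (x : X) :
    ∃ (φ : E3 → X) (y : E3), IsOpenEmbedding φ ∧ φ y = x := by
  obtain ⟨U, hU, hx, ⟨e⟩⟩ := h x
  refine ⟨fun y => (e.symm y : X), e ⟨x, hx⟩,
    hU.isOpenEmbedding_subtypeVal.comp e.symm.isOpenEmbedding, ?_⟩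
  simp

theorem itemG0 : SLoc := by
  intro X _ hX
  have hlc : LocallyCompactSpace X := by
    refine ⟨fun x n hn => ?_⟩
    obtain ⟨φ, y, hφ, rfl⟩ := itemG0_chart hX x
    have h1 : φ ⁻¹' n ∈ 𝓝 y := hφ.continuous.continuousAt.preimage_mem_nhds hn
    obtain ⟨s, hs, hsn, hsc⟩ := LocallyCompactSpace.local_compact_nhds y _ h1
    exact ⟨φ '' s, hφ.image_mem_nhds.2 hs, image_subset_iff.2 hsn, hsc.image hφ.continuous⟩
  have hlconn : LocallyConnectedSpace X := by
    rw [locallyConnectedSpace_iff_subsets_isOpen_isConnected]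
    intro x n hn
    obtain ⟨φ, y, hφ, rfl⟩ := itemG0_chart hX x
    have h1 : φ ⁻¹' n ∈ 𝓝 y := hφ.continuous.continuousAt.preimage_mem_nhds hn
    obtain ⟨V, hVn, hVo, hyV, hVc⟩ :=
      locallyConnectedSpace_iff_subsets_isOpen_isConnected.1 (inferInstance :
        LocallyConnectedSpace E3) y _ h1
    exact ⟨φ '' V, image_subset_iff.2 hVn, hφ.isOpenMap _ hVo, mem_image_of_mem _ hyV,
      hVc.image _ hφ.continuous.continuousOn⟩
  refine ⟨hlc, hlconn, ?_, ?_⟩
  · rintro V hV ⟨x, hx⟩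
    obtain ⟨φ, y, hφ, rfl⟩ := itemG0_chart hX x
    have h1 : φ ⁻¹' V ∈ 𝓝 y := hφ.continuous.continuousAt.preimage_mem_nhds (hV.mem_nhds hx)
    have h2 : (φ ⁻¹' V).Infinite := infinite_of_mem_nhds y h1
    exact (h2.image hφ.injective.injOn).mono (image_preimage_subset φ V)
  · intro hT2 hSC
    refine ⟨TopologicalSpace.metrizableSpace_of_t3_secondCountable X, ?_⟩
    let K := CompactExhaustion.choice X
    exact ⟨K, K.isCompact, K.subset_interior_succ, K.iUnion_eq⟩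

end Pool.Agent.Work.MP_ba58b9_gt

end

section

/-!
# Item G1: move the centre of the unit ball
-/

set_option autoImplicit false

open Set Filter Topology Ordinal

namespace Pool.Agent.Work.MP_ba58b9_gt

theorem itemG1 : SMoveE := by
  intro v hv
  let f : E3 → E3 := fun x => x + (max (1 - ‖x‖) 0) • v
  have hf : ApproximatesLinearOn f ((ContinuousLinearEquiv.refl ℝ E3 : E3 ≃L[ℝ] E3) : E3 →L[ℝ] E3)
      univ ‖v‖₊ := by
    intro x _ y _
    have e : f x - f y - ((ContinuousLinearEquiv.refl ℝ E3 : E3 ≃L[ℝ] E3) : E3 →L[ℝ] E3) (x - y) =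
        (max (1 - ‖x‖) 0 - max (1 - ‖y‖) 0) • v := by
      show x + (max (1 - ‖x‖) 0) • v - (y + (max (1 - ‖y‖) 0) • v) - (x - y) = _
      module
    rw [e, norm_smul, coe_nnnorm, mul_comm]
    apply mul_le_mul_of_nonneg_left _ (norm_nonneg v)
    rw [Real.norm_eq_abs]
    calc |max (1 - ‖x‖) 0 - max (1 - ‖y‖) 0| ≤ |(1 - ‖x‖) - (1 - ‖y‖)| :=
          abs_max_sub_max_le_abs _ _ _
      _ = |‖y‖ - ‖x‖| := by congr 1; ring
      _ ≤ ‖y - x‖ := abs_norm_sub_norm_le _ _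
      _ = ‖x - y‖ := norm_sub_rev _ _
  have hc : Subsingleton E3 ∨ ‖v‖₊ <
      ‖((ContinuousLinearEquiv.refl ℝ E3 : E3 ≃L[ℝ] E3).symm : E3 →L[ℝ] E3)‖₊⁻¹ := by
    right
    have h1 : ‖((ContinuousLinearEquiv.refl ℝ E3 : E3 ≃L[ℝ] E3).symm : E3 →L[ℝ] E3)‖₊ ≤ 1 := by
      have : ‖((ContinuousLinearEquiv.refl ℝ E3 : E3 ≃L[ℝ] E3).symm : E3 →L[ℝ] E3)‖ ≤ 1 :=
        ContinuousLinearMap.norm_id_le
      exact_mod_cast this
    have h2 : 0 < ‖((ContinuousLinearEquiv.refl ℝ E3 : E3 ≃L[ℝ] E3).symm : E3 →L[ℝ] E3)‖₊ := by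
      rw [nnnorm_pos]
      intro h
      have h3 := congrArg (fun g : E3 →L[ℝ] E3 => g (EuclideanSpace.single 0 1)) h
      have h4 : (EuclideanSpace.single (0 : Fin 3) (1 : ℝ)) = 0 := h3
      have h5 := congrArg (fun z : E3 => z 0) h4
      simp at h5
    have h6 : ‖v‖₊ < 1 := by exact_mod_cast hv
    exact h6.trans_le ((one_le_inv₀ h2).2 h1)
  refine ⟨hf.toHomeomorph f hc, ?_, ?_⟩
  · intro x hx
    show x + (max (1 - ‖x‖) 0) • v = x
    rw [max_eq_right (by linarith), zero_smul, add_zero]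
  · show (0 : E3) + (max (1 - ‖(0 : E3)‖) 0) • v = v
    simp

end Pool.Agent.Work.MP_ba58b9_gt

end
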